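import Pool.Agent.Run7.h454.Sign2

set_option autoImplicit false

namespace Pool.Agent.Run7.H454

open Configuration Configuration.Nondegenerate Equiv Pool.Agent.Char3

theorem isPrimePow_of_iso {P L : Type*} [Membership P L] [ProjectivePlane P L] [Finite P] [Finite L]
    {F : Type*} [Field F] (f : P ≃ Projectivization F (Fin 3 → F)) :
    IsPrimePow (ProjectivePlane.order P L) := by
  classical
  have hPfin : Finite (Projectivization F (Fin 3 → F)) := Finite.of_equiv P f
  have hFfin : Finite F := by
    have hinj : Function.Injective (fun x : F => Projectivization.mk F (![1, x, 0] : Fin 3 → F)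
        (fun h => by have := congrFun h 0; simp at this)) := by
      intro x y hxy
      obtain ⟨c, hc⟩ := (Projectivization.mk_eq_mk_iff' F _ _ _ _).mp hxy
      have h0 := congrFun hc 0
      have h1 := congrFun hc 1
      simp at h0 h1
      rw [h0, one_mul] at h1
      exact h1.symm
    exact Finite.of_injective _ hinj
  have : Fintype P := Fintype.ofFinite _
  have : Fintype L := Fintype.ofFinite _
  have : Fintype F := Fintype.ofFinite _
  have h1 : Nat.card (Projectivization F (Fin 3 → F)) = ∑ i ∈ Finset.range 3, Nat.card F ^ i :=
    Projectivization.card_of_finrank F (Fin 3 → F) (by simp)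
  have h2 := ProjectivePlane.card_points P L
  rw [← Nat.card_eq_fintype_card, Nat.card_congr f, h1] at h2
  simp only [Finset.sum_range_succ, Finset.sum_range_zero, pow_zero, pow_one, zero_add] at h2
  have h3 : Nat.card F = ProjectivePlane.order P L := by
    nlinarith
  rw [← h3, Nat.card_eq_fintype_card]
  exact FiniteField.isPrimePow_card F

end Pool.Agent.Run7.H454
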