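import Pool.Agent.Run7.h454.Copy2

set_option autoImplicit false

namespace Pool.Agent.Run7.H454

open Configuration

section
variable {F : Type*} [Field F]

/-- exchange of the first two coordinates -/
def ex3 (F : Type*) [Field F] : (Fin 3 → F) ≃ₗ[F] (Fin 3 → F) :=
  LinearEquiv.funCongrLeft F F (Equiv.swap 0 1)

theorem ex3_apply (v : Fin 3 → F) (i : Fin 3) : ex3 F v i = v (Equiv.swap 0 1 i) := rfl

theorem ex3_ex3 (v : Fin 3 → F) : ex3 F (ex3 F v) = v := by
  funext i
  rw [ex3_apply, ex3_apply, Equiv.swap_apply_self]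

/-- the collineation on points -/
def sp (x : Projectivization F (Fin 3 → F)) : Projectivization F (Fin 3 → F) :=
  Projectivization.map (ex3 F).toLinearMap (ex3 F).injective x

theorem sp_mk {v : Fin 3 → F} (hv : v ≠ 0) (hv' : ex3 F v ≠ 0) :
    sp (Projectivization.mk F v hv) = Projectivization.mk F (ex3 F v) hv' := rfl

theorem ex3_ne {v : Fin 3 → F} (hv : v ≠ 0) : ex3 F v ≠ 0 := by
  intro h
  exact hv ((map_eq_zero_iff _ (ex3 F).injective).1 h)

theorem sp_sp (x : Projectivization F (Fin 3 → F)) : sp (sp x) = x := by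
  induction x using Projectivization.ind with | h v hv
  rw [sp_mk hv (ex3_ne hv), sp_mk (ex3_ne hv) (ex3_ne (ex3_ne hv))]
  congr 1
  exact ex3_ex3 v

/-- the collineation on lines -/
def sl (W : {W : Submodule F (Fin 3 → F) // Module.finrank F W = 2}) :
    {W : Submodule F (Fin 3 → F) // Module.finrank F W = 2} :=
  ⟨W.1.map (ex3 F).toLinearMap, by rw [LinearEquiv.finrank_map_eq]; exact W.2⟩

theorem sl_sl (W : {W : Submodule F (Fin 3 → F) // Module.finrank F W = 2}) : sl (sl W) = W := by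
  apply Subtype.ext
  change (W.1.map (ex3 F).toLinearMap).map (ex3 F).toLinearMap = W.1
  ext v
  simp only [Submodule.mem_map]
  constructor
  · rintro ⟨_, ⟨w, hw, rfl⟩, rfl⟩
    have : (ex3 F).toLinearMap ((ex3 F).toLinearMap w) = w := ex3_ex3 w
    rw [this]
    exact hw
  · intro hv
    exact ⟨ex3 F v, ⟨v, hv, rfl⟩, ex3_ex3 v⟩

theorem sp_mem (x : Projectivization F (Fin 3 → F))
    (W : {W : Submodule F (Fin 3 → F) // Module.finrank F W = 2}) :
    (sp x).submodule ≤ (sl W).1 ↔ x.submodule ≤ W.1 := by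
  induction x using Projectivization.ind with | h v hv
  rw [sp_mk hv (ex3_ne hv), Projectivization.submodule_mk, Projectivization.submodule_mk,
    Submodule.span_singleton_le_iff_mem, Submodule.span_singleton_le_iff_mem]
  change ex3 F v ∈ W.1.map (ex3 F).toLinearMap ↔ _
  rw [Submodule.mem_map]
  constructor
  · rintro ⟨w, hw, h⟩
    exact (ex3 F).injective h ▸ hw
  · intro h
    exact ⟨v, h, rfl⟩

theorem sp_ne : ∃ x : Projectivization F (Fin 3 → F), sp x ≠ x := by
  have h1 : (![1, 0, 0] : Fin 3 → F) ≠ 0 := fun h => by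
    have := congrFun h 0
    simp at this
  refine ⟨Projectivization.mk F ![1, 0, 0] h1, ?_⟩
  rw [sp_mk h1 (ex3_ne h1)]
  intro h
  rw [Projectivization.mk_eq_mk_iff'] at h
  obtain ⟨c, hc⟩ := h
  have h2 := congrFun hc 0
  have h3 := congrFun hc 1
  rw [ex3_apply] at h2 h3
  simp at h2 h3

end

/-- `PG(2, F)` has a nontrivial collineation -/
theorem collineation_of_iso {P L : Type*} [Membership P L] {F : Type*} [Field F]
    (f : P ≃ Projectivization F (Fin 3 → F))
    (g : L ≃ {W : Submodule F (Fin 3 → F) // Module.finrank F W = 2})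
    (hfg : ∀ (p : P) (l : L), p ∈ l ↔ (f p).submodule ≤ (g l).1) :
    ∃ σ : P ≃ P, ∃ τ : L ≃ L, σ ≠ Equiv.refl P ∧ ∀ (p : P) (l : L), p ∈ l ↔ σ p ∈ τ l := by
  let s : Projectivization F (Fin 3 → F) ≃ Projectivization F (Fin 3 → F) :=
    ⟨sp, sp, sp_sp, sp_sp⟩
  let t : {W : Submodule F (Fin 3 → F) // Module.finrank F W = 2} ≃
      {W : Submodule F (Fin 3 → F) // Module.finrank F W = 2} := ⟨sl, sl, sl_sl, sl_sl⟩
  refine ⟨(f.trans s).trans f.symm, (g.trans t).trans g.symm, ?_, ?_⟩
  · intro h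
    obtain ⟨x, hx⟩ := sp_ne (F := F)
    apply hx
    have h1 := congrArg (fun e : P ≃ P => f (e (f.symm x))) h
    simpa [s] using h1
  · intro p l
    rw [hfg p l, hfg]
    simp only [Equiv.trans_apply, Equiv.apply_symm_apply]
    exact (sp_mem (f p) (g l)).symm

end Pool.Agent.Run7.H454
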