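import Pool.Agent.Run7.h454.Card2

set_option autoImplicit false

namespace Pool.Agent.Run7.H454

open Configuration Pool.Agent.Char3

section copy
variable {P L : Type*} [Membership P L] {K : Type*} [Field K]
  {f : Projectivization K (Fin 3 → K) → P}
  {g : {W : Submodule K (Fin 3 → K) // Module.finrank K W = 2} → L}

theorem copy_mem (hg : ∀ x W, f x ∈ g W ↔ x.submodule ≤ W.1) {v : Fin 3 → K} (hv : v ≠ 0)
    (W : {W : Submodule K (Fin 3 → K) // Module.finrank K W = 2}) :
    f (Projectivization.mk K v hv) ∈ g W ↔ v ∈ W.1 := by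
  rw [hg, Projectivization.submodule_mk, Submodule.span_singleton_le_iff_mem]

/-- the plane spanned by two independent vectors -/
def pl {v w : Fin 3 → K} (h : LinearIndependent K ![v, w]) :
    {W : Submodule K (Fin 3 → K) // Module.finrank K W = 2} :=
  ⟨Submodule.span K (Set.range ![v, w]), by simpa using finrank_span_eq_card h⟩

theorem mem_pl {v w x : Fin 3 → K} (h : LinearIndependent K ![v, w]) :
    x ∈ (pl h).1 ↔ ∃ s t : K, s • v + t • w = x := by
  have e : Set.range ![v, w] = {v, w} := by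
    ext y
    simp only [Set.mem_range, Fin.exists_fin_two, Matrix.cons_val_zero, Matrix.cons_val_one,
      Set.mem_insert_iff, Set.mem_singleton_iff]
    constructor
    · rintro (h | h)
      · exact Or.inl h.symm
      · exact Or.inr h.symm
    · rintro (h | h)
      · exact Or.inl h.symm
      · exact Or.inr h.symm
  change x ∈ Submodule.span K (Set.range ![v, w]) ↔ _
  rw [e]
  exact Submodule.mem_span_pair

theorem indep_of_ne {v w : Fin 3 → K} (hv : v ≠ 0) (hw : w ≠ 0)
    (h : f (Projectivization.mk K v hv) ≠ f (Projectivization.mk K w hw)) :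
    LinearIndependent K ![v, w] := by
  rw [LinearIndependent.pair_iff' hv]
  intro c hc
  apply h
  congr 1
  rw [Projectivization.mk_eq_mk_iff']
  have hc0 : c ≠ 0 := by
    rintro rfl
    rw [zero_smul] at hc
    exact hw hc.symm
  refine ⟨c⁻¹, ?_⟩
  rw [← hc, smul_smul, inv_mul_cancel₀ hc0, one_smul]

variable [ProjectivePlane P L]

theorem line_iff (hf : Function.Injective f) (hg : ∀ x W, f x ∈ g W ↔ x.submodule ≤ W.1)
    {v w x : Fin 3 → K} (hv : v ≠ 0) (hw : w ≠ 0) (hx : x ≠ 0)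
    (h : LinearIndependent K ![v, w]) {k : L} (h1 : f (Projectivization.mk K v hv) ∈ k)
    (h2 : f (Projectivization.mk K w hw) ∈ k) :
    f (Projectivization.mk K x hx) ∈ k ↔ ∃ s t : K, s • v + t • w = x := by
  have hne : f (Projectivization.mk K v hv) ≠ f (Projectivization.mk K w hw) := by
    intro h0
    have h3 := hf h0
    rw [Projectivization.mk_eq_mk_iff'] at h3
    obtain ⟨c, hc⟩ := h3
    have h4 := (LinearIndependent.pair_iff.1 h) 1 (-c) (by rw [← hc]; simp)
    exact one_ne_zero h4.1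
  have hk : k = g (pl h) := by
    refine line_eq hne h1 h2 ?_ ?_
    · rw [copy_mem hg, mem_pl]
      exact ⟨1, 0, by simp⟩
    · rw [copy_mem hg, mem_pl]
      exact ⟨0, 1, by simp⟩
  rw [hk, copy_mem hg, mem_pl]

/-- coordinates adapted to a quadrangle -/
theorem exists_frame (hf : Function.Injective f) (hg : ∀ x W, f x ∈ g W ↔ x.submodule ≤ W.1)
    {Z Y x q : P} (h1 : ¬ Col L Z Y x) (h2 : ¬ Col L Z Y q) (h3 : ¬ Col L Z x q)
    (h4 : ¬ Col L Y x q) (hZ : Z ∈ Set.range f) (hY : Y ∈ Set.range f) (hx : x ∈ Set.range f)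
    (hq : q ∈ Set.range f) :
    ∃ (z y u : Fin 3 → K) (hz : z ≠ 0) (hy : y ≠ 0) (hu : u ≠ 0) (hw : z + y + u ≠ 0),
      f (Projectivization.mk K z hz) = Z ∧ f (Projectivization.mk K y hy) = Y ∧
      f (Projectivization.mk K u hu) = x ∧ f (Projectivization.mk K (z + y + u) hw) = q ∧
      ∀ r s t : K, r • z + s • y + t • u = 0 → r = 0 ∧ s = 0 ∧ t = 0 := by
  obtain ⟨Z', rfl⟩ := hZ
  obtain ⟨Y', rfl⟩ := hY
  obtain ⟨x', rfl⟩ := hx
  obtain ⟨q', rfl⟩ := hq
  induction Z' using Projectivization.ind with | h z hz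
  induction Y' using Projectivization.ind with | h y hy
  induction x' using Projectivization.ind with | h u hu
  induction q' using Projectivization.ind with | h w hw
  have hcol : ∀ a b : P, ∃ k : L, a ∈ k ∧ b ∈ k := fun a b =>
    ⟨jn a b, mem_jn_left _ _, mem_jn_right _ _⟩
  have nZY : f (Projectivization.mk K z hz) ≠ f (Projectivization.mk K y hy) := by
    intro h0
    obtain ⟨k, e1, e2⟩ := hcol (f (Projectivization.mk K z hz)) (f (Projectivization.mk K u hu))
    exact h1 ⟨k, e1, h0 ▸ e1, e2⟩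
  have iZY := indep_of_ne hz hy nZY
  have nYx : f (Projectivization.mk K y hy) ≠ f (Projectivization.mk K u hu) := by
    intro h0
    obtain ⟨k, e1, e2⟩ := hcol (f (Projectivization.mk K z hz)) (f (Projectivization.mk K y hy))
    exact h1 ⟨k, e1, e2, h0 ▸ e2⟩
  have iYx := indep_of_ne hy hu nYx
  have nZx : f (Projectivization.mk K z hz) ≠ f (Projectivization.mk K u hu) := by
    intro h0
    obtain ⟨k, e1, e2⟩ := hcol (f (Projectivization.mk K z hz)) (f (Projectivization.mk K y hy))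
    exact h1 ⟨k, e1, e2, h0 ▸ e1⟩
  have iZx := indep_of_ne hz hu nZx
  obtain ⟨kZY, a1, a2⟩ := hcol (f (Projectivization.mk K z hz)) (f (Projectivization.mk K y hy))
  obtain ⟨kYx, b1, b2⟩ := hcol (f (Projectivization.mk K y hy)) (f (Projectivization.mk K u hu))
  obtain ⟨kZx, c1, c2⟩ := hcol (f (Projectivization.mk K z hz)) (f (Projectivization.mk K u hu))
  have hun : ¬ ∃ s t : K, s • z + t • y = u := by
    rw [← line_iff hf hg hz hy hu iZY a1 a2]
    exact fun h => h1 ⟨kZY, a1, a2, h⟩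
  have hLI : ∀ r s t : K, r • z + s • y + t • u = 0 → r = 0 ∧ s = 0 ∧ t = 0 := by
    intro r s t h0
    have ht : t = 0 := by
      by_contra ht
      refine hun ⟨-(t⁻¹ * r), -(t⁻¹ * s), ?_⟩
      have e := congrArg (fun v => t⁻¹ • v) h0
      simp only [smul_add, smul_smul, smul_zero, inv_mul_cancel₀ ht, one_smul] at e
      rw [neg_smul, neg_smul]
      have e2 : u = -((t⁻¹ * r) • z + (t⁻¹ * s) • y) := by
        rw [eq_neg_iff_add_eq_zero, add_comm]; exact e
      rw [e2, neg_add]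
    subst ht
    rw [zero_smul, add_zero] at h0
    have := (LinearIndependent.pair_iff.1 iZY) r s h0
    exact ⟨this.1, this.2, rfl⟩
  have hLI3 : LinearIndependent K ![z, y, u] := by
    rw [Fintype.linearIndependent_iff]
    intro c hc
    rw [Fin.sum_univ_three] at hc
    have := hLI (c 0) (c 1) (c 2) hc
    intro i
    fin_cases i
    · exact this.1
    · exact this.2.1
    · exact this.2.2
  have hsp : Submodule.span K (Set.range ![z, y, u]) = ⊤ :=
    hLI3.span_eq_top_of_card_eq_finrank (by simp)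
  have hwm : w ∈ Submodule.span K (Set.range ![z, y, u]) := by rw [hsp]; trivial
  rw [Submodule.mem_span_range_iff_exists_fun] at hwm
  obtain ⟨c, hc⟩ := hwm
  rw [Fin.sum_univ_three] at hc
  change c 0 • z + c 1 • y + c 2 • u = w at hc
  have hc0 : c 0 ≠ 0 := by
    intro h0
    rw [h0, zero_smul, zero_add] at hc
    exact h4 ⟨kYx, b1, b2, (line_iff hf hg hy hu hw iYx b1 b2).2 ⟨_, _, hc⟩⟩
  have hc1 : c 1 ≠ 0 := by
    intro h0
    rw [h0, zero_smul, add_zero] at hc
    exact h3 ⟨kZx, c1, c2, (line_iff hf hg hz hu hw iZx c1 c2).2 ⟨_, _, hc⟩⟩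
  have hc2 : c 2 ≠ 0 := by
    intro h0
    rw [h0, zero_smul, add_zero] at hc
    exact h2 ⟨kZY, a1, a2, (line_iff hf hg hz hy hw iZY a1 a2).2 ⟨_, _, hc⟩⟩
  refine ⟨c 0 • z, c 1 • y, c 2 • u, smul_ne_zero hc0 hz, smul_ne_zero hc1 hy,
    smul_ne_zero hc2 hu, by rw [hc]; exact hw, ?_, ?_, ?_, ?_, ?_⟩
  · congr 1
    rw [Projectivization.mk_eq_mk_iff']
    exact ⟨c 0, rfl⟩
  · congr 1
    rw [Projectivization.mk_eq_mk_iff']
    exact ⟨c 1, rfl⟩
  · congr 1
    rw [Projectivization.mk_eq_mk_iff']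
    exact ⟨c 2, rfl⟩
  · congr 1
    rw [Projectivization.mk_eq_mk_iff']
    exact ⟨1, by rw [one_smul, hc]⟩
  · intro r s t h0
    rw [smul_smul, smul_smul, smul_smul] at h0
    have := hLI _ _ _ h0
    exact ⟨(mul_eq_zero.1 this.1).resolve_right hc0, (mul_eq_zero.1 this.2.1).resolve_right hc1,
      (mul_eq_zero.1 this.2.2).resolve_right hc2⟩

/-- the orbits of translations inside a copy of `PG(2, K)` -/
theorem orbit (hf : Function.Injective f) (hg : ∀ x W, f x ∈ g W ↔ x.submodule ≤ W.1)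
    {m : ℕ} (hm : (m : K) = 0) {X Y Z : P} {l a b : L} (hX : X ∈ l) (hY : Y ∈ l) (hZ : Z ∈ l)
    (hXY : X ≠ Y) (hZY : Z ≠ Y) (hXZ : X ≠ Z) (hYa : Y ∈ a) (hYb : Y ∈ b) (hal : a ≠ l)
    (hbl : b ≠ l) (hab : a ≠ b) (τ : Equiv.Perm {p : P // p ∈ a})
    (hτ : ∀ p : {p : P // p ∈ a}, ∃ q : P, q ∈ b ∧ Col L X p.1 q ∧ Col L Z q (τ p).1)
    (x : {p : P // p ∈ a}) (hxY : x.1 ≠ Y) {q : P} (hq : q ∈ b) (hXq : Col L X x.1 q)
    (hZr : Z ∈ Set.range f) (hYr : Y ∈ Set.range f) (hxr : x.1 ∈ Set.range f)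
    (hqr : q ∈ Set.range f) : (τ ^ m) x = x := by
  have hXa : X ∉ a := fun h => hXY (point_eq hal.symm hX h hY hYa)
  have hXb : X ∉ b := fun h => hXY (point_eq hbl.symm hX h hY hYb)
  have hZa : Z ∉ a := fun h => hZY (point_eq hal.symm hZ h hY hYa)
  have hZb : Z ∉ b := fun h => hZY (point_eq hbl.symm hZ h hY hYb)
  have hxl : x.1 ∉ l := fun h => hxY (point_eq hal x.2 h hYa hY)
  have hxb : x.1 ∉ b := fun h => hxY (point_eq hab x.2 h hYa hYb)
  obtain ⟨k0, hXk, hxk, hqk⟩ := hXq
  have hk0l : k0 ≠ l := by rintro rfl; exact hxl hxk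
  have hqY : q ≠ Y := by
    rintro rfl
    exact hxl (line_eq hXY hX hY hXk hqk ▸ hxk)
  have hql : q ∉ l := fun h => hqY (point_eq hbl hq h hYb hY)
  have hqa : q ∉ a := fun h => hqY (point_eq hab h hq hYa hYb)
  have hxq : x.1 ≠ q := by rintro h; exact hxb (h ▸ hq)
  have n1 : ¬ Col L Z Y x.1 := by
    rintro ⟨k, e1, e2, e3⟩
    exact hxl (line_eq hZY hZ hY e1 e2 ▸ e3)
  have n2 : ¬ Col L Z Y q := by
    rintro ⟨k, e1, e2, e3⟩
    exact hql (line_eq hZY hZ hY e1 e2 ▸ e3)
  have n3 : ¬ Col L Z x.1 q := by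
    rintro ⟨k, e1, e2, e3⟩
    have : k = k0 := line_eq hxq e2 e3 hxk hqk
    subst this
    exact hk0l (line_eq hXZ hXk e1 hX hZ)
  have n4 : ¬ Col L Y x.1 q := by
    rintro ⟨k, e1, e2, e3⟩
    exact hqa (line_eq hxY e2 e1 x.2 hYa ▸ e3)
  obtain ⟨z, y, u, hz, hy, hu, hw, eZ, eY, ex, eq, hLI⟩ :=
    exists_frame hf hg n1 n2 n3 n4 hZr hYr hxr hqr
  -- the point `X`
  have hzy : z + y ≠ 0 := by
    intro h0
    have := hLI 1 1 0 (by simpa using h0)
    exact one_ne_zero this.1
  have eX : f (Projectivization.mk K (z + y) hzy) = X := by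
    refine point_eq hk0l (q := X) ?_ ?_ hXk hX
    · refine (line_iff hf hg hu hw hzy ?_ (k := k0) (ex ▸ hxk) (eq ▸ hqk)).2 ⟨-1, 1, ?_⟩
      · rw [LinearIndependent.pair_iff]
        intro s t h0
        have := hLI t t (s + t) (by rw [← h0]; module)
        exact ⟨by simpa [this.1] using this.2.2, this.1⟩
      · module
    · refine (line_iff hf hg hz hy hzy ?_ (k := l) (eZ ▸ hZ) (eY ▸ hY)).2 ⟨1, 1, ?_⟩
      · rw [LinearIndependent.pair_iff]
        intro s t h0
        have := hLI s t 0 (by rw [← h0]; module)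
        exact ⟨this.1, this.2.1⟩
      · module
  have hnx : ∀ t : K, u + t • y ≠ 0 := by
    intro t h0
    have := hLI 0 t 1 (by rw [← h0]; module)
    exact one_ne_zero this.2.2
  have hnb : ∀ t : K, z + u + t • y ≠ 0 := by
    intro t h0
    have := hLI 1 t 1 (by rw [← h0]; module)
    exact one_ne_zero this.1
  have ha : ∀ t : K, f (Projectivization.mk K (u + t • y) (hnx t)) ∈ a := by
    intro t
    refine (line_iff hf hg hu hy (hnx t) ?_ (k := a) (ex ▸ x.2) (eY ▸ hYa)).2 ⟨1, t, ?_⟩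
    · rw [LinearIndependent.pair_iff]
      intro s t h0
      have := hLI 0 t s (by rw [← h0]; module)
      exact ⟨this.2.2, this.2.1⟩
    · module
  have hb : ∀ t : K, f (Projectivization.mk K (z + u + t • y) (hnb t)) ∈ b := by
    intro t
    refine (line_iff hf hg hw hy (hnb t) ?_ (k := b) (eq ▸ hq) (eY ▸ hYb)).2 ⟨1, t - 1, ?_⟩
    · rw [LinearIndependent.pair_iff]
      intro s t h0
      have := hLI s (s + t) s (by rw [← h0]; module)
      exact ⟨this.1, by simpa [this.1] using this.2.1⟩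
    · module
  have key : ∀ k : ℕ, ((τ ^ k) x).1 = f (Projectivization.mk K (u + (k : K) • y) (hnx k)) := by
    intro k
    induction k with
    | zero =>
      simp only [pow_zero, Equiv.Perm.coe_one, id_eq, Nat.cast_zero, zero_smul, add_zero]
      exact ex.symm
    | succ k ih =>
      rw [pow_succ', Equiv.Perm.mul_apply]
      obtain ⟨q', hq', ⟨k1, hXk1, hrk1, hqk1⟩, ⟨k2, hZk2, hqk2, hτk2⟩⟩ := hτ ((τ ^ k) x)
      have e1 : q' = f (Projectivization.mk K (z + u + ((k : K) + 1) • y) (hnb _)) := by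
        have hne : k1 ≠ b := by rintro rfl; exact hXb hXk1
        refine point_eq hne hqk1 hq' ?_ (hb _)
        refine (line_iff hf hg hzy (hnx (k : K)) (hnb _) ?_ (k := k1) (eX ▸ hXk1)
          (ih ▸ hrk1)).2 ⟨1, 1, ?_⟩
        · rw [LinearIndependent.pair_iff]
          intro s t h0
          have := hLI s (s + t * k) t (by rw [← h0]; module)
          exact ⟨this.1, this.2.2⟩
        · module
      have hne2 : k2 ≠ a := by rintro rfl; exact hZa hZk2
      refine point_eq hne2 hτk2 (τ ((τ ^ k) x)).2 ?_ (ha _)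
      refine (line_iff hf hg hz (hnb ((k : K) + 1)) (hnx _) ?_ (k := k2) (eZ ▸ hZk2)
        (e1 ▸ hqk2)).2 ⟨-1, 1, ?_⟩
      · rw [LinearIndependent.pair_iff]
        intro s t h0
        have := hLI (s + t) (t * ((k : K) + 1)) t (by rw [← h0]; module)
        exact ⟨by simpa [this.2.2] using this.1, this.2.2⟩
      · push_cast
        module
  apply Subtype.ext
  rw [key m]
  simp only [hm, zero_smul, add_zero]
  exact ex

end copy

end Pool.Agent.Run7.H454
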