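import Pool.Agent.Run7.h454.Copy

set_option autoImplicit false

namespace Pool.Agent.Run7.H454

open Configuration Pool.Agent.Char3

section
variable {P L : Type*} [Membership P L]

/-- the points `a, b, c, d` lie in a copy of `PG(2, K)` -/
def InCopy (K : Type*) [Field K] (L : Type*) {P : Type*} [Membership P L] (a b c d : P) : Prop :=
  ∃ (f : Projectivization K (Fin 3 → K) → P)
    (g : {W : Submodule K (Fin 3 → K) // Module.finrank K W = 2} → L),
    Function.Injective f ∧ (∀ x W, f x ∈ g W ↔ x.submodule ≤ W.1) ∧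
    a ∈ Set.range f ∧ b ∈ Set.range f ∧ c ∈ Set.range f ∧ d ∈ Set.range f

variable [ProjectivePlane P L]

/-- degenerate translations have fixed points -/
theorem fix_deg {X Y Z : P} {l a b : L} (hX : X ∈ l) (hY : Y ∈ l) (hZ : Z ∈ l)
    (hXY : X ≠ Y) (hZY : Z ≠ Y) (hYa : Y ∈ a) (hYb : Y ∈ b) (hal : a ≠ l)
    (hbl : b ≠ l) (τ : Equiv.Perm {p : P // p ∈ a})
    (hτ : ∀ p : {p : P // p ∈ a}, ∃ q : P, q ∈ b ∧ Col L X p.1 q ∧ Col L Z q (τ p).1)
    (x : {p : P // p ∈ a}) (h : X = Z ∨ a = b ∨ x.1 = Y) : τ x = x := by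
  have hXa : X ∉ a := fun h => hXY (point_eq hal.symm hX h hY hYa)
  have hXb : X ∉ b := fun h => hXY (point_eq hbl.symm hX h hY hYb)
  have hZa : Z ∉ a := fun h => hZY (point_eq hal.symm hZ h hY hYa)
  have hZb : Z ∉ b := fun h => hZY (point_eq hbl.symm hZ h hY hYb)
  obtain ⟨q, hq, ⟨k1, e1, e2, e3⟩, ⟨k2, e4, e5, e6⟩⟩ := hτ x
  have hk1a : k1 ≠ a := by rintro rfl; exact hXa e1
  have hk1b : k1 ≠ b := by rintro rfl; exact hXb e1
  have hk2a : k2 ≠ a := by rintro rfl; exact hZa e4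
  have hk2b : k2 ≠ b := by rintro rfl; exact hZb e4
  apply Subtype.ext
  rcases h with rfl | rfl | h
  · have hqX : X ≠ q := by rintro rfl; exact hXb hq
    have := line_eq hqX e1 e3 e4 e5
    subst this
    exact point_eq hk1a e6 (τ x).2 e2 x.2
  · have h1 : x.1 = q := point_eq hk1a e2 x.2 e3 hq
    have h2 : q = (τ x).1 := point_eq hk2a e5 hq e6 (τ x).2
    rw [h1, h2]
  · have h1 : k1 = l := line_eq hXY e1 (h ▸ e2) hX hY
    subst h1
    have h2 : q = Y := point_eq hbl hq e3 hYb hY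
    subst h2
    have h3 : k2 = k1 := line_eq hZY e4 e5 hZ hY
    subst h3
    rw [h]
    exact point_eq hal (τ x).2 e6 hYa hY

/-- translations in planes with enough subplanes `PG(2, K)`, `m = 0` in `K`, have orbits of
length dividing `m` -/
theorem period {X Y Z : P} {l a b : L} (hX : X ∈ l) (hY : Y ∈ l) (hZ : Z ∈ l)
    (hXY : X ≠ Y) (hZY : Z ≠ Y) (hYa : Y ∈ a) (hYb : Y ∈ b) (hal : a ≠ l)
    (hbl : b ≠ l) (τ : Equiv.Perm {p : P // p ∈ a})
    (hτ : ∀ p : {p : P // p ∈ a}, ∃ q : P, q ∈ b ∧ Col L X p.1 q ∧ Col L Z q (τ p).1)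
    (x : {p : P // p ∈ a}) (Q : ℕ → Prop) (hQ : Q 1)
    (h : ∀ a b c d : P, ¬ Col L a b c → ¬ Col L a b d → ¬ Col L a c d → ¬ Col L b c d →
      ∃ (K : Type) (_ : Field K) (m : ℕ), (m : K) = 0 ∧ Q m ∧ InCopy K L a b c d) :
    ∃ m : ℕ, Q m ∧ (τ ^ m) x = x := by
  by_cases hdeg : X = Z ∨ a = b ∨ x.1 = Y
  · refine ⟨1, hQ, ?_⟩
    rw [pow_one]
    exact fix_deg hX hY hZ hXY hZY hYa hYb hal hbl τ hτ x hdeg
  push Not at hdeg
  obtain ⟨hXZ, hab, hxY⟩ := hdeg
  obtain ⟨q, hq, hXq, -⟩ := hτ x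
  have hXa : X ∉ a := fun h => hXY (point_eq hal.symm hX h hY hYa)
  have hXb : X ∉ b := fun h => hXY (point_eq hbl.symm hX h hY hYb)
  have hxl : x.1 ∉ l := fun h => hxY (point_eq hal x.2 h hYa hY)
  have hxb : x.1 ∉ b := fun h => hxY (point_eq hab x.2 h hYa hYb)
  obtain ⟨k0, hXk, hxk, hqk⟩ := hXq
  have hk0l : k0 ≠ l := by rintro rfl; exact hxl hxk
  have hqY : q ≠ Y := by
    rintro rfl
    exact hxl (line_eq hXY hX hY hXk hqk ▸ hxk)
  have hql : q ∉ l := fun h => hqY (point_eq hbl hq h hYb hY)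
  have hqa : q ∉ a := fun h => hqY (point_eq hab h hq hYa hYb)
  have hxq : x.1 ≠ q := by rintro h; exact hxb (h ▸ hq)
  have n1 : ¬ Col L Z Y x.1 := by
    rintro ⟨k, e1, e2, e3⟩
    exact hxl (line_eq hZY hZ hY e1 e2 ▸ e3)
  have n2 : ¬ Col L Z Y q := by
    rintro ⟨k, e1, e2, e3⟩
    exact hql (line_eq hZY hZ hY e1 e2 ▸ e3)
  have n3 : ¬ Col L Z x.1 q := by
    rintro ⟨k, e1, e2, e3⟩
    have : k = k0 := line_eq hxq e2 e3 hxk hqk
    subst this
    exact hk0l (line_eq hXZ hXk e1 hX hZ)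
  have n4 : ¬ Col L Y x.1 q := by
    rintro ⟨k, e1, e2, e3⟩
    exact hqa (line_eq hxY e2 e1 x.2 hYa ▸ e3)
  obtain ⟨K, iK, m, hm, hQm, f, g, hf, hg, hZr, hYr, hxr, hqr⟩ := h Z Y x.1 q n1 n2 n3 n4
  exact ⟨m, hQm, orbit hf hg hm hX hY hZ hXY hZY hXZ hYa hYb hal hbl hab τ hτ x hxY hq
    ⟨k0, hXk, hxk, hqk⟩ hZr hYr hxr hqr⟩

theorem even_of_periods {α : Type*} [Finite α] (τ : Equiv.Perm α)
    (h : ∀ x, ∃ m : ℕ, Odd m ∧ (τ ^ m) x = x) : sgn τ = 1 := by
  classical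
  have : Fintype α := Fintype.ofFinite α
  choose m hm hx using h
  have hN : Odd (∏ x, m x) := by
    apply Finset.prod_induction m Odd (fun a b ha hb => ha.mul hb) odd_one
    intro x _
    exact hm x
  have h1 : τ ^ (∏ x, m x) = 1 := by
    ext x
    obtain ⟨k, hk⟩ := Finset.dvd_prod_of_mem m (Finset.mem_univ x)
    rw [hk, pow_mul]
    exact Equiv.Perm.pow_apply_eq_self_of_apply_eq_self (hx x) k
  have h2 : sgn τ ^ (∏ x, m x) = 1 := by
    have h3 := congrArg sgn h1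
    unfold sgn at h3 ⊢
    rw [map_pow, map_one] at h3
    exact h3
  rcases Int.units_eq_one_or (sgn τ) with h3 | h3
  · exact h3
  · rw [h3, Odd.neg_one_pow hN] at h2
    exact absurd h2 (by decide)

variable [Finite P] [Finite L]

/-- If every quadrangle is in a subplane `PG(2, K)`, `K` a field of odd characteristic, then all
translations are even. -/
theorem even_of_copies
    (h : ∀ a b c d : P, ¬ Col L a b c → ¬ Col L a b d → ¬ Col L a c d → ¬ Col L b c d →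
      ∃ (K : Type) (_ : Field K) (m : ℕ), (m : K) = 0 ∧ Odd m ∧ InCopy K L a b c d) :
    EvenTranslations P L := by
  intro X Y Z l a b hX hY hZ hXY hZY hYa hYb hal hbl τ hτ
  apply even_of_periods
  intro x
  exact period hX hY hZ hXY hZY hYa hYb hal hbl τ hτ x Odd odd_one h

/-- If every quadrangle is in a subplane `PG(2, p)` then `p` divides the order. -/
theorem dvd_order (p : ℕ) [hp : Fact p.Prime]
    (h : ∀ a b c d : P, ¬ Col L a b c → ¬ Col L a b d → ¬ Col L a c d → ¬ Col L b c d →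
      InCopy (ZMod p) L a b c d) :
    p ∣ ProjectivePlane.order P L := by
  classical
  obtain ⟨p₁, p₂, p₃, l₁, l₂, l₃, -, -, hp2l, -⟩ := ProjectivePlane.exists_config (P := P) (L := L)
  obtain ⟨X, Y, hX, hY, hXY⟩ := exists_two_points (P := P) l₁
  obtain ⟨Z, hZ, hZX, hZY⟩ := exists_third (P := P) l₁ X Y
  have hA : p₂ ∉ l₁ := hp2l
  obtain ⟨C, hC, hCA, hCX⟩ := exists_third (P := P) (jn p₂ X : L) p₂ X
  let a : L := jn Y p₂
  let b : L := jn Y C
  have hYa : Y ∈ a := mem_jn_left _ _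
  have hYb : Y ∈ b := mem_jn_left _ _
  have hAX : p₂ ≠ X := by rintro rfl; exact hA hX
  have hAY : p₂ ≠ Y := by rintro rfl; exact hA hY
  have hCl : C ∉ l₁ := by
    intro hc
    have e := line_eq hCX hc hX hC (mem_jn_right _ _)
    exact hA (e ▸ mem_jn_left _ _)
  have hal : a ≠ l₁ := by
    intro e
    exact hA (e ▸ mem_jn_right _ _)
  have hbl : b ≠ l₁ := by
    intro e
    exact hCl (e ▸ mem_jn_right _ _)
  have hab : a ≠ b := by
    intro e
    have hCa : C ∈ a := e ▸ mem_jn_right _ _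
    have e2 : a = jn p₂ X := line_eq hCA hCa (mem_jn_right _ _) hC (mem_jn_left _ _)
    have hXa : X ∈ a := e2 ▸ mem_jn_right _ _
    exact hal (line_eq hXY hXa hYa hX hY)
  have hXa : X ∉ a := fun h => hXY (point_eq hal.symm hX h hY hYa)
  have hXb : X ∉ b := fun h => hXY (point_eq hbl.symm hX h hY hYb)
  have hZa : Z ∉ a := fun h => hZY (point_eq hal.symm hZ h hY hYa)
  have hZb : Z ∉ b := fun h => hZY (point_eq hbl.symm hZ h hY hYb)
  let t : Equiv.Perm {p : P // p ∈ a} := (pers X a b hXa hXb).trans (pers Z b a hZb hZa)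
  have ht : ∀ q : {q : P // q ∈ a}, ∃ r : P, r ∈ b ∧ Col L X q.1 r ∧ Col L Z r (t q).1 := by
    rintro ⟨q, hq⟩
    refine ⟨pr X b q, pr_mem _ _ _, ⟨jn X q, mem_jn_left _ _, mem_jn_right _ _, pr_mem_jn _ _ _⟩,
      ⟨jn Z (pr X b q), mem_jn_left _ _, mem_jn_right _ _, ?_⟩⟩
    exact pr_mem_jn _ _ _
  have hper : t ^ p = 1 := by
    ext x
    obtain ⟨m, hm, hmx⟩ := period hX hY hZ hXY hZY hYa hYb hal hbl t ht x (fun m => m = 1 ∨ m = p)
      (Or.inl rfl) (fun a b c d h1 h2 h3 h4 =>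
        ⟨ZMod p, inferInstance, p, by simp, Or.inr rfl, h a b c d h1 h2 h3 h4⟩)
    rcases hm with rfl | rfl
    · rw [pow_one] at hmx
      rw [Equiv.Perm.pow_apply_eq_self_of_apply_eq_self hmx p]
      rfl
    · rw [hmx]
      rfl
  have hfix : ∀ x : {q : P // q ∈ a}, t x = x → x.1 = Y := by
    intro x hx
    by_contra hxY
    obtain ⟨q, hq, ⟨k1, e1, e2, e3⟩, ⟨k2, e4, e5, e6⟩⟩ := ht x
    rw [hx] at e6
    have hxb : x.1 ∉ b := fun h => hxY (point_eq hab x.2 h hYa hYb)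
    have hxq : x.1 ≠ q := by rintro h; exact hxb (h ▸ hq)
    have : k1 = k2 := line_eq hxq e2 e3 e6 e5
    subst this
    have : k1 = l₁ := line_eq hZX.symm e1 e4 hX hZ
    subst this
    exact hxY (point_eq hal x.2 e2 hYa hY)
  haveI : Fintype {q : P // q ∈ a} := Fintype.ofFinite _
  let ft : Function.End {q : P // q ∈ a} := fun x => t x
  have hft : ft ^ p ^ 1 = 1 := by
    rw [pow_one]
    have h1 : ∀ k : ℕ, ∀ x, (ft ^ k) x = (t ^ k) x := by
      intro k
      induction k with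
      | zero => intro x; rfl
      | succ k ih =>
        intro x
        rw [pow_succ', pow_succ', Equiv.Perm.mul_apply, ← ih x]
        rfl
    funext x
    rw [h1 p x, hper]
    rfl
  have hmod := Equiv.Perm.card_fixedPoints_modEq (f := ft) (p := p) (n := 1) hft
  have hc1 : Fintype.card (Function.fixedPoints ft) = 1 := by
    rw [Fintype.card_eq_one_iff]
    refine ⟨⟨⟨Y, hYa⟩, ?_⟩, ?_⟩
    · exact fix_deg hX hY hZ hXY hZY hYa hYb hal hbl t ht _ (Or.inr (Or.inr rfl))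
    · rintro ⟨x, hx⟩
      exact Subtype.ext (Subtype.ext (hfix x hx))
  have hc2 : Fintype.card {q : P // q ∈ a} = ProjectivePlane.order P L + 1 := by
    have := ProjectivePlane.pointCount_eq (P := P) a
    unfold pointCount at this
    rw [← this, Nat.card_eq_fintype_card]
  rw [hc1, hc2] at hmod
  have h5 : ProjectivePlane.order P L + 1 ≡ 0 + 1 [MOD p] := by simpa using hmod
  exact (Nat.modEq_zero_iff_dvd).1 (Nat.ModEq.add_right_cancel' 1 h5)

end

end Pool.Agent.Run7.H454
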