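import Pool.Agent.Run7.h454.Homo
import Pool.Agent.Char3.Trans2

set_option autoImplicit false

namespace Pool.Agent.Run7.H454

open Configuration Configuration.Nondegenerate Equiv Pool.Agent.Char3

variable {P L : Type*} [Membership P L] [ProjectivePlane P L] [Finite P] [Finite L]

section
variable (h : HH P L)
include h

theorem exists_tx' {l : L} {X A B : P} (hX : X ∈ l)
    (hA : A ∉ l) (hB : B ∉ l) (hBj : B ∈ (jn X A : L)) : ∃ σ : Perm P, IsTX l X σ ∧ σ A = B := by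
  by_cases hAB : A = B
  · subst hAB
    exact ⟨1, ⟨IsTr.one l, fun p _ => mem_jn_right _ _⟩, rfl⟩
  obtain ⟨σ, hσ, hσA⟩ := exists_tr'' h hA hB
  refine ⟨σ, ⟨hσ, ?_⟩, hσA⟩
  obtain ⟨Z, hZ, hc⟩ := exists_center hσ
  have h1 := hc.cen A hA
  rw [hσA] at h1
  have e1 : (jn Z A : L) = jn X A :=
    line_eq (Ne.symm hAB) h1 (mem_jn_right _ _) hBj (mem_jn_right _ _)
  have hl : (jn X A : L) ≠ l := by
    intro h; exact hA (by rw [← h]; exact mem_jn_right _ _)
  have e2 : Z = X := point_eq hl (by rw [← e1]; exact mem_jn_left _ _) hZ (mem_jn_left _ _) hX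
  rw [← e2]
  exact hc.cen

/-- the group of elations with axis `l` is abelian -/
theorem tr_comm' {l : L} {σ τ : Perm P}
    (hσ : IsTr l σ) (hτ : IsTr l τ) : σ * τ = τ * σ := by
  obtain ⟨X, hX, hcX⟩ := exists_center hσ
  obtain ⟨Z, hZ, hcZ⟩ := exists_center hτ
  by_cases hXZ : X = Z
  · subst hXZ
    -- an elation with another centre
    obtain ⟨W, hW, hWX, -⟩ := exists_third (P := P) l X X
    obtain ⟨C, hC⟩ := exists_point (P := P) l
    obtain ⟨D, hD, hDW, hDC⟩ := exists_third (P := P) (jn W C : L) W C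
    have hl : (jn W C : L) ≠ l := by
      intro h; exact hC (by rw [← h]; exact mem_jn_right _ _)
    have hDl : D ∉ l := fun h => hDW (point_eq hl hD h (mem_jn_left _ _) hW)
    obtain ⟨ρ, hρ, hρC⟩ := exists_tx' h hW hC hDl hD
    have hρ1 : ρ ≠ 1 := by
      rintro rfl
      exact hDC hρC.symm
    have h1 : σ * ρ = ρ * σ := tx_comm hX hW hWX.symm hcX hρ
    obtain ⟨V, hV, hcV⟩ := exists_center (hτ.mul hρ.tr)
    have hVX : V ≠ X := by
      rintro rfl
      have h2 : IsTX l V ρ := by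
        have h3 := (hcZ.inv hV).mul hV hcV
        have e : τ⁻¹ * (τ * ρ) = ρ := by group
        rwa [e] at h3
      exact hρ1 (IsTX.eq_one hX hW hWX.symm h2 hρ)
    have h2 : σ * (τ * ρ) = (τ * ρ) * σ := tx_comm hX hV hVX.symm hcX hcV
    have h4 : σ * τ * ρ = τ * σ * ρ := by
      calc σ * τ * ρ = σ * (τ * ρ) := by group
        _ = τ * ρ * σ := h2
        _ = τ * (ρ * σ) := by group
        _ = τ * (σ * ρ) := by rw [h1]
        _ = _ := by group
    exact mul_right_cancel h4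
  · exact tx_comm hX hZ hXZ hcX hcZ

/-- the homology `hm C m` with `C ∈ l` preserves `l`. -/
theorem hm_pres {l m : L} {C : P} (hC : C ∈ l) (hCm : C ∉ m) :
    ∀ p, p ∈ l ↔ (hm h C m hCm) p ∈ l := by
  intro p
  refine ⟨fun hp => hF_mem h hCm hC hp, fun h' => ?_⟩
  have := hF_mem h hCm hC h'
  rwa [hm_apply, hF_hF h hCm] at this

theorem hm_sq {m : L} {C : P} (hCm : C ∉ m) : hm h C m hCm * hm h C m hCm = 1 := by
  ext p
  rw [Perm.mul_apply, hm_apply, hm_apply, hF_hF h hCm]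
  rfl

/-- a homology with centre `C ∈ l` inverts the elations with centre `C` and axis `l`. -/
theorem hm_conj_center {l m : L} {C O : P}
    (hC : C ∈ l) (hCm : C ∉ m) (hO : O ∈ m) (hOl : O ∉ l) {σ : Perm P} (hσ : IsTX l C σ) :
    hm h C m hCm * σ * (hm h C m hCm)⁻¹ = σ⁻¹ := by
  set g := hm h C m hCm with hg
  have hgc : g ∈ Coll P L := hm_coll h C m hCm
  have hgl : ∀ p, p ∈ l ↔ g p ∈ l := hm_pres h hC hCm
  have hgC : g C = C := by rw [hg, hm_apply, hF_center]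
  have hgg : g * g = 1 := hm_sq h hCm
  have hτ : IsTX l C (g * σ * g⁻¹) := by
    have := IsTX.conj hC hgc hgl hσ
    rwa [hgC] at this
  have hw : IsTX l C (σ * (g * σ * g⁻¹)) := hσ.mul hC hτ
  have hcomm : σ * (g * σ * g⁻¹) = (g * σ * g⁻¹) * σ := tr_comm' h hσ.tr hτ.tr
  have hgi : g⁻¹ = g := by
    rw [inv_eq_iff_mul_eq_one]; exact hgg
  have hgw : g * (σ * (g * σ * g⁻¹)) = (σ * (g * σ * g⁻¹)) * g := by
    conv_rhs => rw [hcomm]
    rw [hgi]
    have : g * (σ * (g * σ * g)) = g * σ * g * σ * g := by group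
    rw [this]
  have hgO : g O = O := by rw [hg, hm_apply, hF_axis hO]
  have h1 : g ((σ * (g * σ * g⁻¹)) O) = (σ * (g * σ * g⁻¹)) O := by
    rw [← Perm.mul_apply, hgw, Perm.mul_apply, hgO]
  have hoff : (σ * (g * σ * g⁻¹)) O ∉ l := off_of_fix hw.tr.fix hOl
  have hm' : (σ * (g * σ * g⁻¹)) O ∈ m := by
    by_contra hcon
    exact hF_ne h hCm hcon (ne_of_mem hC hoff).symm h1
  have hj : (σ * (g * σ * g⁻¹)) O ∈ (jn C O : L) := hw.cen O hOl
  have hne : (jn C O : L) ≠ m := by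
    intro h'; exact hCm (by rw [← h']; exact mem_jn_left _ _)
  have h2 : (σ * (g * σ * g⁻¹)) O = O := point_eq hne hj hm' (mem_jn_right _ _) hO
  have h3 := hw.tr.free O hOl h2
  exact (inv_eq_of_mul_eq_one_right h3).symm

/-- a homology with axis `m ∋ O` centralises the elations with axis `l` and centre `m ∩ l`. -/
theorem hm_conj_axis {l m : L} {C O Y : P}
    (hC : C ∈ l) (hCm : C ∉ m) (hO : O ∈ m) (hOl : O ∉ l) (hYm : Y ∈ m) (hYl : Y ∈ l)
    {σ : Perm P} (hσ : IsTX l Y σ) :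
    hm h C m hCm * σ * (hm h C m hCm)⁻¹ = σ := by
  have h1 : IsTr l (hm h C m hCm * σ * (hm h C m hCm)⁻¹) :=
    hσ.tr.conj (hm_coll h C m hCm) (hm_pres h hC hCm)
  apply Tr_ext (l := l) h1 hσ.tr hOl
  have hrO : (hm h C m hCm)⁻¹ O = O := by
    rw [Perm.inv_eq_iff_eq, hm_apply, hF_axis hO]
  rw [Perm.mul_apply, Perm.mul_apply, hrO, hm_apply]
  have hBj : σ O ∈ (jn Y O : L) := hσ.cen O hOl
  have hYO : Y ≠ O := ne_of_mem hYl hOl
  have e1 : (jn Y O : L) = m := (eq_jn hYO hYm hO).symm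
  rw [e1] at hBj
  rw [hF_axis hBj]

omit h [Finite P] [Finite L] in
theorem IsTX.one' {l : L} {X : P} : IsTX l X (1 : Perm P) := ⟨IsTr.one l, fun _ _ => mem_jn_right _ _⟩

omit h in
theorem IsTX.pow {l : L} {X : P} (hX : X ∈ l) {σ : Perm P} (hσ : IsTX l X σ) (k : ℕ) :
    IsTX l X (σ ^ k) := by
  induction k with
  | zero => rw [pow_zero]; exact IsTX.one'
  | succ k ih => rw [pow_succ]; exact ih.mul hX hσ

theorem exists_tx_ne {l : L} {X : P} (hX : X ∈ l) : ∃ σ : Perm P, IsTX l X σ ∧ σ ≠ 1 := by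
  obtain ⟨C, hC⟩ := exists_point (P := P) l
  obtain ⟨D, hD, hDX, hDC⟩ := exists_third (P := P) (jn X C : L) X C
  have hl : (jn X C : L) ≠ l := by
    intro h; exact hC (by rw [← h]; exact mem_jn_right _ _)
  have hDl : D ∉ l := fun h => hDX (point_eq hl hD h (mem_jn_left _ _) hX)
  obtain ⟨ρ, hρ, hρC⟩ := exists_tx' h hX hC hDl hD
  refine ⟨ρ, hρ, ?_⟩
  rintro rfl
  exact hDC hρC.symm

theorem pow_eq_one_aux {l : L} {X Z : P} (hX : X ∈ l) (hZ : Z ∈ l) (hXZ : X ≠ Z) {σ τ : Perm P}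
    (hσ : IsTX l X σ) (hσ1 : σ ≠ 1) (hτ : IsTX l Z τ) {p : ℕ} (hp : σ ^ p = 1) : τ ^ p = 1 := by
  obtain ⟨W, hW, hcW⟩ := exists_center (hσ.tr.mul hτ.tr)
  have hWZ : W ≠ Z := by
    rintro rfl
    apply hσ1
    have h1 : IsTX l W σ := by
      have := hcW.mul hW (hτ.inv hW)
      rwa [mul_assoc, mul_inv_cancel, mul_one] at this
    exact IsTX.eq_one hX hW hXZ hσ h1
  have h1 : (σ * τ) ^ p = τ ^ p := by
    have hc : Commute σ τ := tr_comm' h hσ.tr hτ.tr
    rw [hc.mul_pow, hp, one_mul]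
  have h2 : IsTX l W (τ ^ p) := by
    rw [← h1]; exact IsTX.pow hW hcW p
  exact IsTX.eq_one hW hZ hWZ h2 (IsTX.pow hZ hτ p)

/-- all elations have the same prime order -/
theorem exists_prime (l : L) : ∃ p : ℕ, p.Prime ∧ p ≠ 2 ∧ ∀ σ : Perm P, IsTr l σ → σ ^ p = 1 := by
  classical
  obtain ⟨X, Z, hX, hZ, hXZ⟩ := exists_two_points (P := P) l
  obtain ⟨σ, hσ, hσ1⟩ := exists_tx_ne h hX
  obtain ⟨ρ, hρ, hρ1⟩ := exists_tx_ne h hZ
  have hne : orderOf σ ≠ 1 := fun h' => hσ1 (orderOf_eq_one_iff.mp h')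
  obtain ⟨p, hp, hpd⟩ := Nat.exists_prime_and_dvd hne
  have hpos : 0 < orderOf σ := orderOf_pos σ
  set σ₁ := σ ^ (orderOf σ / p) with hσ₁
  have h1 : IsTX l X σ₁ := IsTX.pow hX hσ _
  have h2 : σ₁ ^ p = 1 := by
    rw [hσ₁, ← pow_mul, Nat.div_mul_cancel hpd, pow_orderOf_eq_one]
  have h3 : σ₁ ≠ 1 := by
    intro h'
    have h4 := orderOf_dvd_of_pow_eq_one h'
    have h5 : 0 < orderOf σ / p := Nat.div_pos (Nat.le_of_dvd hpos hpd) hp.pos
    have h6 := Nat.le_of_dvd h5 h4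
    have h7 : orderOf σ / p < orderOf σ := Nat.div_lt_self hpos hp.one_lt
    omega
  have h4 : ∀ W ∈ l, W ≠ X → ∀ τ : Perm P, IsTX l W τ → τ ^ p = 1 := fun W hW hWX τ hτ =>
    pow_eq_one_aux h hX hW hWX.symm h1 h3 hτ h2
  have h5 : ∀ τ : Perm P, IsTr l τ → τ ^ p = 1 := by
    intro τ hτ
    obtain ⟨W, hW, hcW⟩ := exists_center hτ
    by_cases hWX : W = X
    · subst hWX
      exact pow_eq_one_aux h hZ hW hXZ.symm hρ hρ1 hcW (h4 Z hZ hXZ.symm ρ hρ)
    · exact h4 W hW hWX τ hcW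
  refine ⟨p, hp, ?_, h5⟩
  rintro rfl
  -- an involution has an odd number of fixed points
  have : Fintype P := Fintype.ofFinite _
  have : Fintype L := Fintype.ofFinite _
  have : Fact (Nat.Prime 2) := ⟨Nat.prime_two⟩
  let f : Function.End P := (⇑σ : P → P)
  have h6 : f ^ 2 ^ 1 = 1 := by
    rw [pow_one, pow_two]
    funext x
    show σ (σ x) = x
    have := h5 σ hσ.tr
    rw [pow_two] at this
    rw [← Perm.mul_apply, this]; rfl
  have h7 := Perm.card_fixedPoints_modEq (f := f) (p := 2) (n := 1) h6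
  rw [← Nat.card_eq_fintype_card (α := Function.fixedPoints f)] at h7
  have h8 : Function.fixedPoints σ = {p : P | p ∈ l} := by
    ext x
    constructor
    · intro hx
      by_contra hxl
      exact hσ1 (hσ.tr.free x hxl hx)
    · intro hx
      exact hσ.tr.fix x hx
  have h9 : Nat.card (Function.fixedPoints f) = ProjectivePlane.order P L + 1 := by
    show Nat.card (Function.fixedPoints σ) = _
    rw [h8]
    exact ProjectivePlane.pointCount_eq P l
  have h10 := ProjectivePlane.card_points P L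
  have hodd := h.odd
  rw [h9, h10, Nat.ModEq] at h7
  have h11 : (ProjectivePlane.order P L ^ 2) % 2 = 1 := by
    rw [Nat.pow_mod, hodd]
  omega

end

end Pool.Agent.Run7.H454
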