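import Pool.Agent.Run7.h454.Jordan2
import Pool.Agent.Char3.Spread

set_option autoImplicit false

namespace Pool.Agent.Run7.H454

open Pool.Agent.Char3

universe u v

/-- a set closed under point reflections, in a group of odd exponent, is closed under addition -/
theorem add_of_refl {G : Type*} [AddCommGroup G] {p : ℕ} (hp2 : p % 2 = 1)
    (char : ∀ x : G, p • x = 0) {S : Set G} (zero : (0 : G) ∈ S)
    (refl : ∀ x ∈ S, ∀ y ∈ S, y + y - x ∈ S) : ∀ x ∈ S, ∀ y ∈ S, x + y ∈ S := by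
  have neg : ∀ x ∈ S, -x ∈ S := by
    intro x hx
    have := refl x hx 0 zero
    rwa [add_zero, zero_sub] at this
  have mul : ∀ y ∈ S, ∀ k : ℕ, k • y ∈ S ∧ (k + 1) • y ∈ S := by
    intro y hy k
    induction k with
    | zero => exact ⟨by rw [zero_nsmul]; exact zero, by rw [zero_add, one_nsmul]; exact hy⟩
    | succ k ih =>
      refine ⟨ih.2, ?_⟩
      have := refl _ ih.1 _ ih.2
      have e : (k + 1) • y + (k + 1) • y - k • y = (k + 1 + 1) • y := by
        rw [sub_eq_iff_eq_add, ← add_nsmul, ← add_nsmul]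
        congr 1
        omega
      rwa [e] at this
  intro x hx y hy
  have h1 := (mul y hy ((p + 1) / 2)).1
  have h2 := refl _ (neg x hx) _ h1
  have e : ((p + 1) / 2) • y + ((p + 1) / 2) • y = y := by
    rw [← add_nsmul]
    have : (p + 1) / 2 + (p + 1) / 2 = p + 1 := by omega
    rw [this, add_nsmul, char, zero_add, one_nsmul]
  rw [e, sub_neg_eq_add, add_comm] at h2
  exact h2

/-- A spread of subgroups of an elementary abelian p-group (p odd) with all reflections. -/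
structure Spr2 {V : Type u} [AddCommGroup V] {Λ : Type v} (p : ℕ) (C : Λ → AddSubgroup V) :
    Prop where
  prime : p.Prime
  odd : p % 2 = 1
  char : ∀ v : V, p • v = 0
  disj : ∀ X Z, X ≠ Z → ∀ v, v ∈ C X → v ∈ C Z → v = 0
  cover : ∀ v, ∃ X, v ∈ C X
  span : ∀ X Z, X ≠ Z → ∀ v, ∃ a ∈ C X, ∃ b ∈ C Z, v = a + b
  refl : ∀ X Y, X ≠ Y → ∃ r : V →+ V, (∀ a ∈ C X, r a = a) ∧ (∀ b ∈ C Y, r b = -b) ∧
    ∀ Z, ∃ Z', ∀ v ∈ C Z, r v ∈ C Z'
  nz : ∀ X, ∃ v ∈ C X, v ≠ 0

namespace Spr2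

variable {V : Type u} [AddCommGroup V] {Λ : Type v} {C : Λ → AddSubgroup V} {p : ℕ}

/-- existence of the additive map `f` with `w + f w ∈ C Z`, `f w ∈ C Xi`. -/
theorem exists_f (h : Spr2 p C) {X0 Xi Z : Λ} (h1 : Z ≠ Xi) :
    ∃ f : C X0 →+ V, ∀ w : C X0, f w ∈ C Xi ∧ (w : V) + f w ∈ C Z := by
  classical
  have hex : ∀ v : V, ∃ b, b ∈ C Xi ∧ v + b ∈ C Z := by
    intro v
    obtain ⟨a, ha, b, hb, hv⟩ := h.span Z Xi h1 v
    refine ⟨-b, (C Xi).neg_mem hb, ?_⟩
    rw [hv, add_neg_cancel_right]; exact ha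
  choose g hg1 hg2 using hex
  have uniq : ∀ v b, b ∈ C Xi → v + b ∈ C Z → b = g v := by
    intro v b hb hvb
    have e1 : b - g v ∈ C Xi := (C Xi).sub_mem hb (hg1 v)
    have e2 : b - g v ∈ C Z := by
      have := (C Z).sub_mem hvb (hg2 v)
      rwa [add_sub_add_left_eq_sub] at this
    exact sub_eq_zero.mp (h.disj Z Xi h1 _ e2 e1)
  refine ⟨{ toFun := fun w => g w
            map_zero' := ?_
            map_add' := ?_ }, fun w => ⟨hg1 w, hg2 w⟩⟩
  · exact (uniq _ 0 (C Xi).zero_mem (by simp)).symm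
  · intro x y
    symm
    apply uniq
    · exact (C Xi).add_mem (hg1 _) (hg1 _)
    · have := (C Z).add_mem (hg2 (x : V)) (hg2 (y : V))
      have e : ((x + y : C X0) : V) + (g (x : V) + g (y : V)) =
          ((x : V) + g (x : V)) + ((y : V) + g (y : V)) := by
        rw [AddSubgroup.coe_add]; abel
      rw [e]; exact this

theorem f_unique (h : Spr2 p C) {X0 Xi Z : Λ} (h1 : Z ≠ Xi) {v b b' : V} (hb : b ∈ C Xi)
    (hb' : b' ∈ C Xi) (hv : v + b ∈ C Z) (hv' : v + b' ∈ C Z) : b = b' := by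
  have e1 : b - b' ∈ C Xi := (C Xi).sub_mem hb hb'
  have e2 : b - b' ∈ C Z := by
    have := (C Z).sub_mem hv hv'
    rwa [add_sub_add_left_eq_sub] at this
  exact sub_eq_zero.mp (h.disj Z Xi h1 _ e2 e1)

/-- **Coordinatisation of the spread by a field.** -/
theorem coord [Finite V] (h : Spr2 p C) {X0 Xi X1 : Λ} (h0i : X0 ≠ Xi) (h01 : X0 ≠ X1)
    (h1i : X1 ≠ Xi) :
    ∃ (F : Type u) (_ : Field F) (_ : Finite F) (φ : F × F → V) (ψ : Option F → Λ),
      Function.Bijective φ ∧ (∀ p q, φ (p + q) = φ p + φ q) ∧ Function.Bijective ψ ∧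
      (∀ x y, φ (x, y) ∈ C (ψ none) ↔ x = 0) ∧
      (∀ m x y, φ (x, y) ∈ C (ψ (some m)) ↔ y = m * x) := by
  classical
  obtain ⟨θ, hθ⟩ := h.exists_f (X0 := X0) (Xi := Xi) (Z := X1) h1i
  have hθinj : ∀ w : C X0, θ w = 0 → w = 0 := by
    intro w hw
    have h1 := (hθ w).2
    rw [hw, add_zero] at h1
    exact Subtype.ext (h.disj X0 X1 h01 _ w.2 h1)
  have hθinj' : Function.Injective θ := (injective_iff_map_eq_zero θ).mpr hθinj
  have hθsurj : ∀ b ∈ C Xi, ∃ w : C X0, θ w = b := by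
    intro b hb
    obtain ⟨c, hc, a, ha, hbca⟩ := h.span X1 X0 h01.symm b
    refine ⟨⟨-a, (C X0).neg_mem ha⟩, ?_⟩
    apply h.f_unique (X0 := X0) h1i (v := -a) (hθ _).1 hb (hθ ⟨-a, (C X0).neg_mem ha⟩).2
    rw [hbca]
    have : -a + (c + a) = c := by abel
    rw [this]; exact hc
  -- the spread set
  let W := C X0
  have hWfin : Finite W := inferInstance
  let E := AddMonoid.End W
  have hEfin : Finite E := DFunLike.finite _
  -- M_Z
  have hM : ∀ Z : Λ, Z ≠ Xi → ∃ M : E, ∀ w : W, (w : V) + θ (M w) ∈ C Z := by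
    intro Z hZ
    obtain ⟨f, hf⟩ := h.exists_f (X0 := X0) (Xi := Xi) (Z := Z) hZ
    have hex : ∀ w : W, ∃ w' : W, θ w' = f w := fun w => hθsurj _ (hf w).1
    choose g hg using hex
    refine ⟨{ toFun := g
              map_zero' := ?_
              map_add' := ?_ }, ?_⟩
    · apply hθinj'
      rw [hg, map_zero, map_zero]
    · intro x y
      apply hθinj'
      rw [hg, map_add, map_add, hg, hg]
    · intro w
      show (w : V) + θ (g w) ∈ C Z
      rw [hg]; exact (hf w).2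
  let isM : E → Λ → Prop := fun M Z => Z ≠ Xi ∧ ∀ w : W, (w : V) + θ (M w) ∈ C Z
  have hM_unique : ∀ M M' : E, ∀ Z, isM M Z → isM M' Z → M = M' := by
    intro M M' Z h1 h2
    apply AddMonoidHom.ext
    intro w
    apply hθinj'
    exact h.f_unique (X0 := X0) h1.1 (hθ _).1 (hθ _).1 (h1.2 w) (h2.2 w)
  -- a nonzero vector
  obtain ⟨w0', hw0', hw0ne'⟩ := h.nz X0
  let w0 : W := ⟨w0', hw0'⟩
  have hw0 : w0 ≠ 0 := fun h => hw0ne' (congrArg Subtype.val h)
  have sum_ne : ∀ w w' : W, w ≠ 0 → ∀ Z, (w : V) + θ w' ∈ C Z → Z ≠ Xi := by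
    rintro w w' hw Z hZ rfl
    apply hw
    have h1 : (w : V) ∈ C Z := by
      have := (C Z).sub_mem hZ (hθ w').1
      rwa [add_sub_cancel_right] at this
    exact Subtype.ext (h.disj X0 Z h0i _ w.2 h1)
  have hZ_unique : ∀ M : E, ∀ Z Z', isM M Z → isM M Z' → Z = Z' := by
    intro M Z Z' h1 h2
    by_contra hne
    have h3 := h.disj Z Z' hne _ (h1.2 w0) (h2.2 w0)
    have h4 : (w0 : V) = -θ (M w0) := eq_neg_of_add_eq_zero_left h3
    have h5 : (w0 : V) ∈ C Xi := by rw [h4]; exact (C Xi).neg_mem (hθ _).1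
    exact hw0 (Subtype.ext (h.disj X0 Xi h0i _ w0.2 h5))
  -- the set 𝓐
  let A0 : Set E := {M | ∃ Z, isM M Z}
  have zeroA : (0 : E) ∈ A0 := ⟨X0, h0i, fun w => by
    show (w : V) + θ 0 ∈ C X0
    rw [map_zero, add_zero]; exact w.2⟩
  have oneA : (1 : E) ∈ A0 := ⟨X1, h1i, fun w => (hθ w).2⟩
  -- transitivity
  have trans : ∀ w w' : W, w ≠ 0 → ∃ M ∈ A0, M w = w' := by
    intro w w' hw
    obtain ⟨Z, hZ⟩ := h.cover ((w : V) + θ w')
    have hZi := sum_ne w w' hw Z hZ
    obtain ⟨M, hMZ⟩ := hM Z hZi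
    refine ⟨M, ⟨Z, hZi, hMZ⟩, ?_⟩
    apply hθinj'
    exact h.f_unique (X0 := X0) hZi (hθ _).1 (hθ _).1 (hMZ w) hZ
  -- closure
  have refladd : ∀ M ∈ A0, ∀ N ∈ A0, N + N - M ∈ A0 := by
    rintro M ⟨Z, hZ, hMZ⟩ N ⟨Y, hY, hNY⟩
    obtain ⟨r, hr1, hr2, hr3⟩ := h.refl Xi Y hY.symm
    obtain ⟨Z', hZ'⟩ := hr3 Z
    have key : ∀ w : W, (w : V) + θ ((N + N - M : E) w) ∈ C Z' := by
      intro w
      have h1 := hZ' _ (hMZ (-w))
      have e1 : ((-w : W) : V) + θ (M (-w)) = -((w : V) + θ (N w)) + θ (N w - M w) := by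
        rw [map_neg, map_neg, map_sub, AddSubgroup.coe_neg]; abel
      rw [e1, map_add, map_neg, hr2 _ (hNY w), hr1 _ (hθ _).1] at h1
      have e2 : - -((w : V) + θ (N w)) + θ (N w - M w) = (w : V) + θ ((N + N - M : E) w) := by
        have e4 : (N + N - M : E) w = N w + N w - M w := rfl
        rw [e4, map_sub, map_sub, map_add, neg_neg]
        abel
      rwa [e2] at h1
    exact ⟨Z', sum_ne w0 _ hw0 Z' (key w0), key⟩
  have charE : ∀ x : E, p • x = 0 := by
    intro x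
    apply AddMonoidHom.ext
    intro w
    apply Subtype.ext
    show ((p • (x w) : W) : V) = 0
    rw [AddSubgroup.coe_nsmul]
    exact h.char _
  have negA : ∀ M ∈ A0, -M ∈ A0 := by
    intro M hM'
    have := refladd M hM' 0 zeroA
    rwa [add_zero, zero_sub] at this
  have addA : ∀ M ∈ A0, ∀ N ∈ A0, M + N ∈ A0 := add_of_refl h.odd charE zeroA refladd
  let A : AddSubgroup E :=
    { carrier := A0
      add_mem' := fun {M N} hM' hN' => addA M hM' N hN'
      zero_mem' := zeroA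
      neg_mem' := fun {M} hM' => negA M hM' }
  have memA : ∀ M : E, M ∈ A ↔ M ∈ A0 := fun M => Iff.rfl
  -- nonzero elements are units
  have injA : ∀ M ∈ A, M ≠ 0 → ∀ w : W, M w = 0 → w = 0 := by
    rintro M ⟨Z, hZ, hMZ⟩ hM0 w hw
    by_contra hwne
    have h1 := hMZ w
    rw [hw, map_zero, add_zero] at h1
    have h2 : Z = X0 := by
      by_contra hne
      exact hwne (Subtype.ext (h.disj Z X0 hne _ h1 w.2))
    apply hM0
    apply hM_unique M 0 Z ⟨hZ, hMZ⟩
    refine ⟨hZ, fun w => ?_⟩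
    show (w : V) + θ 0 ∈ C Z
    rw [map_zero, add_zero, h2]; exact w.2
  have unitA : ∀ M ∈ A, M ≠ 0 → ∃ N : E, M * N = 1 ∧ N * M = 1 := by
    intro M hMA hM0
    have hinj : Function.Injective M := (injective_iff_map_eq_zero M).mpr (injA M hMA hM0)
    have hbij : Function.Bijective M := Finite.injective_iff_bijective.mp hinj
    let e := AddEquiv.ofBijective (M : W →+ W) hbij
    refine ⟨e.symm.toAddMonoidHom, ?_, ?_⟩
    · apply AddMonoidHom.ext
      intro w
      exact e.apply_symm_apply w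
    · apply AddMonoidHom.ext
      intro w
      exact e.symm_apply_apply w
  -- inverses
  let B0 : Set E := {x | x = 0 ∨ ∃ M ∈ A, M * x = 1 ∧ x * M = 1}
  have reflB : ∀ x ∈ B0, ∀ y ∈ B0, y + y - x ∈ B0 := by
    intro x hx y hy
    rcases hy with rfl | ⟨N, hNA, hN1, hN2⟩
    · rcases hx with rfl | ⟨M, hMA, hM1, hM2⟩
      · left; simp
      · right
        refine ⟨-M, A.neg_mem hMA, ?_, ?_⟩
        · rw [add_zero, zero_sub]; exact (neg_mul_neg M x).trans hM1
        · rw [add_zero, zero_sub]; exact (neg_mul_neg x M).trans hM2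
    have hhalf : ((p + 1) / 2) • (y + y) = y := by
      rw [← two_nsmul, smul_smul]
      have : (p + 1) / 2 * 2 = p + 1 := by have := h.odd; omega
      rw [this, add_nsmul, charE, zero_add, one_nsmul]
    rcases hx with rfl | ⟨M, hMA, hM1, hM2⟩
    · right
      refine ⟨((p + 1) / 2) • N, A.nsmul_mem hNA _, ?_, ?_⟩
      · rw [sub_zero, smul_mul_assoc, ← mul_smul_comm, hhalf]; exact hN1
      · rw [sub_zero, mul_smul_comm, ← smul_mul_assoc, hhalf]; exact hN2
    by_cases hz : y + y - x = 0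
    · left; exact hz
    right
    obtain ⟨Z, hZ, hMZ⟩ := hMA
    obtain ⟨Y, hY, hNY⟩ := hNA
    have hYX0 : Y ≠ X0 := by
      rintro rfl
      have : N = 0 := hM_unique N 0 Y ⟨hY, hNY⟩ ⟨hY, fun w => by
        show (w : V) + θ 0 ∈ C Y
        rw [map_zero, add_zero]; exact w.2⟩
      rw [this, zero_mul] at hN1
      have h1 := congrArg (fun g : E => g w0) hN1
      exact hw0 h1.symm
    obtain ⟨r, hr1, hr2, hr3⟩ := h.refl X0 Y hYX0.symm
    obtain ⟨Z', hZ'⟩ := hr3 Z
    have hMM : ∀ w : W, M (x w) = w := fun w => congrArg (fun g : E => g w) hM1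
    have hNN : ∀ w : W, N (y w) = w := fun w => congrArg (fun g : E => g w) hN1
    have key : ∀ w : W, ((((y + y - x : E) w : W)) : V) + θ w ∈ C Z' := by
      intro w
      have h1 := hZ' _ (hMZ (x w))
      rw [hMM] at h1
      have h2 := hNY (y w)
      rw [hNN] at h2
      have e1 : ((x w : W) : V) + θ w = (((y w : W) : V) + θ w) + ((x w - y w : W) : V) := by
        rw [AddSubgroup.coe_sub]; abel
      rw [e1, map_add, hr2 _ h2, hr1 _ (x w - y w : W).2] at h1
      have h3 := (C Z').neg_mem h1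
      have e2 : -(-(((y w : W) : V) + θ w) + ((x w - y w : W) : V)) =
          (((y + y - x : E) w : W) : V) + θ w := by
        have e4 : (y + y - x : E) w = y w + y w - x w := rfl
        rw [e4, AddSubgroup.coe_sub, AddSubgroup.coe_sub, AddSubgroup.coe_add]
        abel
      rwa [e2] at h3
    have hZi : Z' ≠ Xi := by
      rintro rfl
      apply hz
      apply AddMonoidHom.ext
      intro w
      have h1 : (((y + y - x : E) w : W) : V) ∈ C Z' := by
        have := (C Z').sub_mem (key w) (hθ w).1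
        rwa [add_sub_cancel_right] at this
      exact Subtype.ext (h.disj X0 Z' h0i _ ((y + y - x : E) w : W).2 h1)
    obtain ⟨R, hR⟩ := hM Z' hZi
    have hR1 : R * (y + y - x) = 1 := by
      apply AddMonoidHom.ext
      intro w
      show R ((y + y - x : E) w) = w
      have h1 : θ (R ((y + y - x : E) w)) = θ w :=
        h.f_unique (X0 := X0) hZi (hθ _).1 (hθ _).1 (hR _) (key w)
      exact hθinj' h1
    exact ⟨R, ⟨Z', hZi, hR⟩, hR1, mul_eq_one_comm.mp hR1⟩
  have invadd : ∀ M ∈ A, ∀ N ∈ A, ∀ M' N' : E, M * M' = 1 → N * N' = 1 → M' + N' ≠ 0 →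
      ∃ R ∈ A, R * (M' + N') = 1 := by
    intro M hMA N hNA M' N' hM' hN' hne
    have h1 : M' ∈ B0 := Or.inr ⟨M, hMA, hM', mul_eq_one_comm.mp hM'⟩
    have h2 : N' ∈ B0 := Or.inr ⟨N, hNA, hN', mul_eq_one_comm.mp hN'⟩
    rcases add_of_refl h.odd charE (Or.inl rfl : (0 : E) ∈ B0) reflB M' h1 N' h2 with h3 | h3
    · exact absurd h3 hne
    · obtain ⟨R, hR, hR1, -⟩ := h3
      exact ⟨R, hR, hR1⟩
  -- squares
  have sqA : ∀ x ∈ A, x * x ∈ A := by
    intro a ha
    by_cases ha0 : a = 0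
    · rw [ha0, zero_mul]; exact A.zero_mem
    by_cases ha1 : a = 1
    · rw [ha1, one_mul]; exact oneA
    have hb : 1 - a ∈ A := A.sub_mem oneA ha
    have hb0 : 1 - a ≠ 0 := fun h => ha1 (sub_eq_zero.mp h).symm
    obtain ⟨a', ha', ha''⟩ := unitA a ha ha0
    obtain ⟨b', hb', hb''⟩ := unitA _ hb hb0
    have e1 : a * (a' + b') * (1 - a) = 1 := by
      calc a * (a' + b') * (1 - a) = (a * a') * (1 - a) + a * (b' * (1 - a)) := by noncomm_ring
        _ = 1 := by rw [ha', hb'', one_mul, mul_one]; exact sub_add_cancel 1 a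
    have hne : a' + b' ≠ 0 := by
      intro h'
      rw [h', mul_zero, zero_mul] at e1
      have h1 := congrArg (fun g : E => g w0) e1
      exact hw0 h1.symm
    obtain ⟨R, hR, hR1⟩ := invadd a ha (1 - a) hb a' b' ha' hb' hne
    have hR2 : (a' + b') * R = 1 := mul_eq_one_comm.mp hR1
    -- a (a'+b') = (1-a)⁻¹ = b'
    have e2 : a * (a' + b') = b' := by
      calc a * (a' + b') = a * (a' + b') * ((1 - a) * b') := by rw [hb', mul_one]
        _ = (a * (a' + b') * (1 - a)) * b' := by noncomm_ring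
        _ = b' := by rw [e1, one_mul]
    have e3 : a' + b' = a' * b' := by
      calc a' + b' = (a' * a) * (a' + b') := by rw [ha'', one_mul]
        _ = a' * (a * (a' + b')) := by noncomm_ring
        _ = a' * b' := by rw [e2]
    have e4 : R = (1 - a) * a := by
      calc R = ((1 - a) * (a * a') * b') * R := by rw [ha', mul_one, hb', one_mul]
        _ = (1 - a) * a * ((a' * b') * R) := by noncomm_ring
        _ = (1 - a) * a * ((a' + b') * R) := by rw [e3]
        _ = _ := by rw [hR2, mul_one]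
    have e5 : a * a = a - R := by rw [e4, sub_mul, one_mul, sub_sub_cancel]
    rw [e5]; exact A.sub_mem ha hR
  have commA : ∀ a ∈ A, ∀ b ∈ A, a * b = b * a := fun a ha b hb =>
    jordan_comm' h.prime h.odd charE oneA sqA (fun x hx hx0 => by
      obtain ⟨N, hN1, hN2⟩ := unitA x hx hx0
      exact ⟨⟨x, N, hN1, hN2⟩, rfl⟩) ha hb
  have mulA : ∀ a ∈ A, ∀ b ∈ A, a * b ∈ A := by
    intro a ha b hb
    apply half_mem' h.odd charE
    have := jordan_mem sqA ha hb
    rwa [← commA a ha b hb] at this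
  -- the field
  let R : Subring E :=
    { carrier := A0
      mul_mem' := fun {a b} ha hb => mulA a ha b hb
      one_mem' := oneA
      add_mem' := fun {a b} ha hb => A.add_mem ha hb
      zero_mem' := zeroA
      neg_mem' := fun {a} ha => A.neg_mem ha }
  let _ : CommRing R := { (inferInstance : Ring R) with
    mul_comm := fun a b => Subtype.ext (commA a.1 a.2 b.1 b.2) }
  have hRnt : Nontrivial R := ⟨⟨1, 0, by
    intro h'
    have h1 : (1 : E) = 0 := congrArg Subtype.val h'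
    have h2 := congrArg (fun g : E => g w0) h1
    exact hw0 h2⟩⟩
  have hRfield : IsField R := by
    refine ⟨⟨1, 0, one_ne_zero⟩, mul_comm, ?_⟩
    intro a ha
    have ha0 : a.1 ≠ 0 := fun h' => ha (Subtype.ext h')
    obtain ⟨M, hMA, hMw⟩ := trans (a.1 w0) w0 (fun h' => hw0 (injA a.1 a.2 ha0 w0 h'))
    refine ⟨⟨M, hMA⟩, ?_⟩
    apply Subtype.ext
    show a.1 * M = 1
    rw [commA a.1 a.2 M hMA]
    have h1 : M * a.1 - 1 ∈ A := A.sub_mem (mulA M hMA a.1 a.2) oneA
    by_contra hne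
    have h2 : M * a.1 - 1 ≠ 0 := fun h' => hne (sub_eq_zero.mp h')
    apply hw0
    apply injA _ h1 h2
    show M (a.1 w0) - w0 = 0
    rw [hMw, sub_self]
  let F := R
  let fld : Field F := hRfield.toField
  have hFfin : Finite F := inferInstance
  -- coordinate maps
  have hbij : ∀ w : W, ∃ x : F, x.1 w0 = w := by
    intro w
    obtain ⟨M, hMA, hMw⟩ := trans w0 w hw0
    exact ⟨⟨M, hMA⟩, hMw⟩
  have hinjF : ∀ x y : F, x.1 w0 = y.1 w0 → x = y := by
    intro x y hxy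
    by_contra hne
    have h1 : x.1 - y.1 ∈ A := A.sub_mem x.2 y.2
    have h2 : x.1 - y.1 ≠ 0 := fun h' => hne (Subtype.ext (sub_eq_zero.mp h'))
    apply hw0
    apply injA _ h1 h2
    show x.1 w0 - y.1 w0 = 0
    rw [hxy, sub_self]
  let φ : F × F → V := fun p => ((p.1.1 w0 : W) : V) + θ (p.2.1 w0)
  have hZdef : ∀ m : F, ∃ Z, isM m.1 Z := fun m => m.2
  choose Zof hZof using hZdef
  let ψ : Option F → Λ := fun o => match o with
    | none => Xi
    | some m => Zof m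
  refine ⟨F, fld, hFfin, φ, ψ, ⟨?_, ?_⟩, ?_, ⟨?_, ?_⟩, ?_, ?_⟩
  · -- φ injective
    rintro ⟨x, y⟩ ⟨x', y'⟩ hxy
    have hxy' : ((x.1 w0 : W) : V) + θ (y.1 w0) = ((x'.1 w0 : W) : V) + θ (y'.1 w0) := hxy
    have h1 : ((x.1 w0 - x'.1 w0 : W) : V) = θ (y'.1 w0 - y.1 w0) := by
      rw [AddSubgroup.coe_sub, map_sub]
      rw [sub_eq_sub_iff_add_eq_add, hxy']
      abel
    have h2 : ((x.1 w0 - x'.1 w0 : W) : V) = 0 :=
      h.disj X0 Xi h0i _ (x.1 w0 - x'.1 w0 : W).2 (by rw [h1]; exact (hθ _).1)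
    have h3 : x.1 w0 = x'.1 w0 := by
      have : (x.1 w0 - x'.1 w0 : W) = 0 := Subtype.ext h2
      exact sub_eq_zero.mp this
    rw [h2] at h1
    have h4 : y'.1 w0 = y.1 w0 := sub_eq_zero.mp (hθinj _ h1.symm)
    rw [hinjF _ _ h3, hinjF _ _ h4]
  · -- φ surjective
    intro v
    obtain ⟨a, ha, b, hb, hv⟩ := h.span X0 Xi h0i v
    obtain ⟨w, hw⟩ := hθsurj b hb
    obtain ⟨x, hx⟩ := hbij ⟨a, ha⟩
    obtain ⟨y, hy⟩ := hbij w
    refine ⟨(x, y), ?_⟩
    show ((x.1 w0 : W) : V) + θ (y.1 w0) = v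
    rw [hx, hy, hw, hv]
  · -- additive
    rintro ⟨x, y⟩ ⟨x', y'⟩
    show ((x.1 w0 + x'.1 w0 : W) : V) + θ (y.1 w0 + y'.1 w0) =
      (((x.1 w0 : W) : V) + θ (y.1 w0)) + (((x'.1 w0 : W) : V) + θ (y'.1 w0))
    rw [map_add, AddSubgroup.coe_add]
    abel
  · -- ψ injective
    rintro (_ | m) (_ | m') hmm
    · rfl
    · exact absurd hmm.symm (hZof m').1
    · exact absurd hmm (hZof m).1
    · have h1 : Zof m = Zof m' := hmm
      have h2 := hZof m
      rw [h1] at h2
      rw [Subtype.ext (hM_unique _ _ _ h2 (hZof m'))]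
  · -- ψ surjective
    intro Z
    by_cases hZ : Z = Xi
    · exact ⟨none, hZ.symm⟩
    · obtain ⟨M, hMZ⟩ := hM Z hZ
      refine ⟨some ⟨M, ⟨Z, hZ, hMZ⟩⟩, ?_⟩
      exact hZ_unique M _ _ (hZof ⟨M, ⟨Z, hZ, hMZ⟩⟩) ⟨hZ, hMZ⟩
  · intro x y
    show ((x.1 w0 : W) : V) + θ (y.1 w0) ∈ C Xi ↔ x = 0
    constructor
    · intro hx
      have h1 : ((x.1 w0 : W) : V) ∈ C Xi := by
        have := (C Xi).sub_mem hx (hθ (y.1 w0)).1
        rwa [add_sub_cancel_right] at this
      have h2 : (x.1 w0 : W) = 0 := Subtype.ext (h.disj X0 Xi h0i _ (x.1 w0 : W).2 h1)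
      apply hinjF
      rw [h2]; rfl
    · rintro rfl
      show ((0 : W) : V) + θ (y.1 w0) ∈ C Xi
      rw [AddSubgroup.coe_zero, zero_add]
      exact (hθ _).1
  · intro m x y
    show ((x.1 w0 : W) : V) + θ (y.1 w0) ∈ C (Zof m) ↔ y = m * x
    have h1 := (hZof m).2 (x.1 w0)
    constructor
    · intro hy
      have h2 := h.f_unique (X0 := X0) (hZof m).1 (hθ _).1 (hθ _).1 hy h1
      exact hinjF y (m * x) (hθinj' h2)
    · intro hy
      rw [hy]; exact h1

end Spr2

end Pool.Agent.Run7.H454
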