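import Pool.Agent.Run7.h454.Refl

set_option autoImplicit false

namespace Pool.Agent.Run7.H454

open Configuration Configuration.Nondegenerate Equiv Pool.Agent.Char3

variable {P L : Type*} [Membership P L] [ProjectivePlane P L] [Finite P] [Finite L]

open Classical in
/-- the involutory homology with centre `O` and axis `ℓ`. -/
noncomputable def hF (O : P) (l : L) (p : P) : P :=
  if h : p ∉ l ∧ p ≠ O ∧ ∃ B, RR (jn O p : L) (mt (jn O p) l) O p B then h.2.2.choose else p

theorem hF_axis {O : P} {l : L} {p : P} (hp : p ∈ l) : hF O l p = p := by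
  unfold hF
  rw [dif_neg]
  exact fun h => h.1 hp

theorem hF_center {O : P} {l : L} : hF O l O = O := by
  unfold hF
  rw [dif_neg]
  rintro ⟨h, h', -⟩
  exact h' rfl

section
variable (h : HH P L)
include h

/-- on each line through `O` the homology acts as the reflection. -/
theorem hF_spec {O : P} {l m : L} (hO : O ∉ l) (hOm : O ∈ m) {p Y : P} (hp : p ∈ m)
    (hpl : p ∉ l) (hYm : Y ∈ m) (hYl : Y ∈ l) : RR m Y O p (hF O l p) := by
  have hml : m ≠ l := fun h' => hO (h' ▸ hOm)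
  have hOY : O ≠ Y := (ne_of_mem hYl hO).symm
  have hpY : p ≠ Y := (ne_of_mem hYl hpl).symm
  by_cases hpO : p = O
  · subst hpO
    rw [hF_center]
    obtain ⟨B, hB⟩ := RR.exists h hYm hOm hOY hOm hOY
    rw [hB.fixO] at hB
    exact hB
  have hm : m = jn O p := eq_jn (Ne.symm hpO) hOm hp
  have hY : mt (jn O p) l = Y := by
    rw [← hm]; exact (eq_mt hml hYm hYl).symm
  have hex : ∃ B, RR (jn O p : L) (mt (jn O p) l) O p B := by
    rw [hY, ← hm]
    exact RR.exists h hYm hOm hOY hp hpY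
  have h1 : RR (jn O p : L) (mt (jn O p) l) O p (hF O l p) := by
    unfold hF
    rw [dif_pos ⟨hpl, hpO, hex⟩]
    exact hex.choose_spec
  rw [hY] at h1
  rw [hm]
  exact h1

theorem hF_eq {O : P} {l m : L} (hO : O ∉ l) (hOm : O ∈ m) {p Y B : P} (hp : p ∈ m)
    (hpl : p ∉ l) (hYm : Y ∈ m) (hYl : Y ∈ l) (hB : RR m Y O p B) : hF O l p = B :=
  RR.unique h hYm (hF_spec h hO hOm hp hpl hYm hYl) hB

theorem hF_mem {O : P} {l m : L} (hO : O ∉ l) (hOm : O ∈ m) {p : P} (hp : p ∈ m) :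
    hF O l p ∈ m := by
  by_cases hpl : p ∈ l
  · rw [hF_axis hpl]; exact hp
  exact (hF_spec h hO hOm hp hpl (mt_mem_left m l) (mt_mem_right m l)).mem.1

theorem hF_mem_jn {O : P} {l : L} (hO : O ∉ l) {p : P} : hF O l p ∈ (jn O p : L) :=
  hF_mem h hO (mem_jn_left _ _) (mem_jn_right _ _)

theorem hF_off {O : P} {l : L} (hO : O ∉ l) {p : P} (hp : p ∉ l) : hF O l p ∉ l := by
  have h1 := hF_spec h hO (mem_jn_left O p) (mem_jn_right O p) hp (mt_mem_left (jn O p) l)
    (mt_mem_right (jn O p) l)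
  have hl : (jn O p : L) ≠ l := by
    intro h; exact hO (by rw [← h]; exact mem_jn_left _ _)
  intro h'
  exact h1.mem.2 (eq_mt hl h1.mem.1 h')

theorem hF_hF {O : P} {l : L} (hO : O ∉ l) (p : P) : hF O l (hF O l p) = p := by
  by_cases hp : p ∈ l
  · rw [hF_axis hp, hF_axis hp]
  have h1 := hF_spec h hO (mem_jn_left O p) (mem_jn_right O p) hp (mt_mem_left (jn O p) l)
    (mt_mem_right (jn O p) l)
  exact hF_eq h hO (mem_jn_left O p) h1.mem.1 (hF_off h hO hp) (mt_mem_left (jn O p) l)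
    (mt_mem_right (jn O p) l) h1.symm

/-- the only fixed points are the centre and the points of the axis -/
theorem hF_ne {O : P} {l : L} (hO : O ∉ l) {p : P} (hp : p ∉ l) (hpO : p ≠ O) :
    hF O l p ≠ p := by
  have h1 := hF_spec h hO (mem_jn_left O p) (mem_jn_right O p) hp (mt_mem_left (jn O p) l)
    (mt_mem_right (jn O p) l)
  exact RR.ne h (mt_mem_left _ _) h1 hpO

theorem hF_collinear {O : P} {l k : L} (hO : O ∉ l)
    (hOk : O ∉ k) (hkl : k ≠ l) {X A A' : P} (hXk : X ∈ k) (hXl : X ∈ l) (hA : A ∈ k)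
    (hA' : A' ∈ k) (hAX : A ≠ X) (hAX' : A' ≠ X) :
    hF O l A' ∈ (jn X (hF O l A) : L) := by
  have hAl : A ∉ l := fun h => hAX (point_eq hkl hA h hXk hXl)
  have hAl' : A' ∉ l := fun h => hAX' (point_eq hkl hA' h hXk hXl)
  have hXO : X ≠ O := ne_of_mem hXk hOk
  have hOAk : (jn O A : L) ≠ k := by
    intro h; exact hOk (by rw [← h]; exact mem_jn_left _ _)
  have hOAk' : (jn O A' : L) ≠ k := by
    intro h; exact hOk (by rw [← h]; exact mem_jn_left _ _)
  have hOAl : (jn O A : L) ≠ l := by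
    intro h; exact hO (by rw [← h]; exact mem_jn_left _ _)
  have hOAl' : (jn O A' : L) ≠ l := by
    intro h; exact hO (by rw [← h]; exact mem_jn_left _ _)
  have hXj : X ∉ (jn O A : L) := fun h => hAX (point_eq hOAk (mem_jn_right _ _) hA h hXk)
  have hXj' : X ∉ (jn O A' : L) := fun h => hAX' (point_eq hOAk' (mem_jn_right _ _) hA' h hXk)
  set Y : P := mt (jn O A : L) l with hY
  set Y' : P := mt (jn O A' : L) l with hY'
  have hYl : Y ∈ l := mt_mem_right _ _
  have hYl' : Y' ∈ l := mt_mem_right _ _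
  have hYj : Y ∈ (jn O A : L) := mt_mem_left _ _
  have hYj' : Y' ∈ (jn O A' : L) := mt_mem_left _ _
  have hYX : Y ≠ X := ne_of_mem hYj hXj
  have h1 : RR (jn O A : L) Y O A (hF O l A) :=
    hF_spec h hO (mem_jn_left _ _) (mem_jn_right _ _) hAl hYj hYl
  have h2 := RR.pers h hXj hXj' hYj h1
  have e1 : Y' = pr X (jn O A' : L) Y := eq_pr hXj' hYX hXl hYl hYl' hYj'
  have e2 : pr X (jn O A' : L) O = O := pr_self hXj' (mem_jn_left _ _)
  have e3 : A' = pr X (jn O A' : L) A := eq_pr hXj' hAX hXk hA hA' (mem_jn_right _ _)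
  rw [← e1, e2, ← e3] at h2
  rw [hF_eq h hO (mem_jn_left _ _) (mem_jn_right _ _) hAl' hYj' hYl' h2]
  exact pr_mem_jn _ _ _

/-- the homology as a permutation. -/
noncomputable def hm (O : P) (l : L) (hO : O ∉ l) : Perm P :=
  Function.Involutive.toPerm (hF O l) (hF_hF h hO)

theorem hm_apply (O : P) (l : L) (hO : O ∉ l) (p : P) : hm h O l hO p = hF O l p := rfl

theorem hm_coll (O : P) (l : L) (hO : O ∉ l) : hm h O l hO ∈ Coll P L := by
  intro k
  by_cases hkl : k = l
  · subst hkl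
    refine ⟨k, fun p => ?_⟩
    rw [hm_apply]
    by_cases hp : p ∈ k
    · rw [hF_axis hp]
    · exact iff_of_false hp (hF_off h hO hp)
  by_cases hOk : O ∈ k
  · refine ⟨k, fun p => ⟨fun hp => hF_mem h hO hOk hp, fun h' => ?_⟩⟩
    have := hF_mem h hO hOk h'
    rwa [hm_apply, hF_hF h hO] at this
  -- general line
  set X : P := mt k l with hX
  have hXk : X ∈ k := mt_mem_left _ _
  have hXl : X ∈ l := mt_mem_right _ _
  obtain ⟨A, hA, hAX⟩ : ∃ A, A ∈ k ∧ A ≠ X := by
    obtain ⟨p, q, hp, hq, hpq⟩ := exists_two_points (P := P) k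
    by_cases h : p = X
    · exact ⟨q, hq, fun h' => hpq (h.trans h'.symm)⟩
    · exact ⟨p, hp, h⟩
  have hAl : A ∉ l := fun h => hAX (point_eq hkl hA h hXk hXl)
  have key : ∀ (k₁ : L) (B : P), O ∉ k₁ → k₁ ≠ l → X ∈ k₁ → B ∈ k₁ → B ≠ X →
      ∀ p, p ∈ k₁ → hF O l p ∈ (jn X (hF O l B) : L) := by
    intro k₁ B h1 h2 h4 h5 h6 p hp
    by_cases hpX : p = X
    · rw [hpX, hF_axis hXl]; exact mem_jn_left _ _
    · exact hF_collinear h hO h1 h2 h4 hXl h5 hp h6 hpX
  refine ⟨jn X (hF O l A), fun p => ⟨key k A hOk hkl hXk hA hAX p, fun h' => ?_⟩⟩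
  -- converse
  have hB : hF O l A ∉ l := hF_off h hO hAl
  have hk1 : (jn X (hF O l A) : L) ≠ l := by
    intro h
    have h' : hF O l A ∈ (jn X (hF O l A) : L) := mem_jn_right _ _
    rw [h] at h'
    exact hB h'
  have hBX : hF O l A ≠ X := (ne_of_mem hXl hB).symm
  have hAO : A ≠ O := ne_of_mem hA hOk
  have hBO : hF O l A ≠ O := by
    intro h'
    have := hF_hF h hO A
    rw [h', hF_center] at this
    exact hAO this.symm
  have hOk1 : O ∉ (jn X (hF O l A) : L) := by
    intro h'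
    have e1 : (jn X (hF O l A) : L) = jn O (hF O l A) := eq_jn hBO.symm h' (mem_jn_right _ _)
    have e2 : (jn O A : L) = jn O (hF O l A) := eq_jn hBO.symm (mem_jn_left _ _)
      (hF_mem_jn h hO)
    have e3 : A ∈ (jn X (hF O l A) : L) := by rw [e1, ← e2]; exact mem_jn_right _ _
    have e4 : (jn X (hF O l A) : L) = k := line_eq hAX e3 (mem_jn_left _ _) hA hXk
    exact hOk (e4 ▸ h')
  have h2 := key _ _ hOk1 hk1 (mem_jn_left _ _) (mem_jn_right _ _) hBX _ h'
  rw [hm_apply, hF_hF h hO, hF_hF h hO] at h2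
  have h5 : (jn X A : L) = k := (eq_jn hAX.symm hXk hA).symm
  rwa [h5] at h2

/-! ### elations -/

theorem prod_isTr {l : L} {B M : P} (hB : B ∉ l)
    (hM : M ∉ l) (hBM : M ≠ B) : IsTr l (hm h B l hB * hm h M l hM) := by
  refine ⟨mul_mem (hm_coll h B l hB) (hm_coll h M l hM), ?_, ?_⟩
  · intro p hp
    rw [Perm.mul_apply, hm_apply, hm_apply, hF_axis hp, hF_axis hp]
  · intro p hp h'
    exfalso
    rw [Perm.mul_apply, hm_apply, hm_apply] at h'
    have h1 : hF M l p = hF B l p := by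
      rw [← hF_hF h hB (hF M l p), h']
    by_cases hpM : p = M
    · subst hpM
      rw [hF_center] at h1
      exact hF_ne h hB hp hBM h1.symm
    by_cases hpB : p = B
    · subst hpB
      rw [hF_center] at h1
      exact hF_ne h hM hp (Ne.symm hBM) h1
    have hne : hF M l p ≠ p := hF_ne h hM hp hpM
    have m1 := hF_mem_jn h hM (p := p)
    have m2 := hF_mem_jn h hB (p := p)
    rw [← h1] at m2
    have e1 : (jn M p : L) = jn B p :=
      line_eq hne m1 (mem_jn_right _ _) m2 (mem_jn_right _ _)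
    have k1 := hF_spec h hM (mem_jn_left M p) (mem_jn_right M p) hp (mt_mem_left (jn M p) l)
      (mt_mem_right (jn M p) l)
    have k2 := hF_spec h hB (mem_jn_left B p) (mem_jn_right B p) hp (mt_mem_left (jn B p) l)
      (mt_mem_right (jn B p) l)
    rw [← e1, ← h1] at k2
    exact hBM (RR.mid_unique h (mt_mem_left _ _) k1 k2 hne.symm)

theorem exists_tr'' {l : L} {A B : P} (hA : A ∉ l)
    (hB : B ∉ l) : ∃ σ : Perm P, IsTr l σ ∧ σ A = B := by
  by_cases hAB : A = B
  · subst hAB; exact ⟨1, IsTr.one l, rfl⟩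
  have hYl : (mt (jn A B : L) l : P) ∈ l := mt_mem_right _ _
  have hYj : (mt (jn A B : L) l : P) ∈ (jn A B : L) := mt_mem_left _ _
  obtain ⟨M, hM⟩ := RR.mid_exists h hYj (mem_jn_left A B) (ne_of_mem hYl hA).symm
    (mem_jn_right A B) (ne_of_mem hYl hB).symm hAB
  obtain ⟨hMm, hMY, -⟩ := id hM
  have hl : (jn A B : L) ≠ l := by
    intro h; exact hA (by rw [← h]; exact mem_jn_left _ _)
  have hMl : M ∉ l := fun h' => hMY (eq_mt hl hMm h')
  have e : hF M l A = B := hF_eq h hMl hMm (mem_jn_left A B) hA hYj hYl hM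
  have hMB : M ≠ B := by
    rintro rfl
    have := hF_hF h hMl A
    rw [e, hF_center] at this
    exact hAB this.symm
  refine ⟨hm h B l hB * hm h M l hMl, prod_isTr h hB hMl hMB, ?_⟩
  rw [Perm.mul_apply, hm_apply, hm_apply, e, hF_center]

end

end Pool.Agent.Run7.H454
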