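import Pool.Agent.Char3.InvRing

set_option autoImplicit false

namespace Pool.Agent.Run7.H454

open Pool.Agent.Char3

section InvRing

theorem charP_of_smul {B : Type*} [Ring B] [Nontrivial B] {p : ℕ} (hp : p.Prime)
    (char : ∀ x : B, p • x = 0) : CharP B p := by
  have h1 : ((p : ℕ) : B) = 0 := by
    have := char 1
    rwa [nsmul_eq_mul, mul_one] at this
  have h2 := ringChar.dvd h1
  rcases (Nat.dvd_prime hp).mp h2 with h3 | h3
  · exfalso
    have h4 := ringChar.spec B 1
    rw [h3] at h4
    have h5 := h4.mpr (dvd_refl 1)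
    rw [Nat.cast_one] at h5
    exact one_ne_zero h5
  · exact ringChar.of_eq h3

variable {B : Type*} [Ring B] [Finite B] (st : B → B)

/-- finite rings with involution all of whose nonzero symmetric elements are units, generated by
symmetric elements, in prime characteristic, are commutative. -/
theorem inv_ring_comm' {p : ℕ} (hp : p.Prime) (char : ∀ x : B, p • x = 0) (st_add : ∀ x y, st (x + y) = st x + st y)
    (st_mul : ∀ x y, st (x * y) = st y * st x) (st_st : ∀ x, st (st x) = x)
    (unit : ∀ x, st x = x → x ≠ 0 → IsUnit x)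
    (gen : ∀ z : B, (∀ s, st s = s → s * z = z * s) → ∀ y, y * z = z * y) (x y : B) :
    x * y = y * x := by
  classical
  -- basic facts
  have st_zero : st 0 = 0 := by
    have := st_add 0 0
    rw [add_zero] at this
    exact left_eq_add.mp this
  have st_neg : ∀ x, st (-x) = - st x := by
    intro x
    have h := st_add x (-x)
    rw [add_neg_cancel, st_zero] at h
    exact (neg_eq_of_add_eq_zero_right h.symm).symm
  have st_sub : ∀ x y, st (x - y) = st x - st y := by
    intro x y; rw [sub_eq_add_neg, st_add, st_neg, ← sub_eq_add_neg]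
  have st_one : st 1 = 1 := by
    have h := st_mul (st 1) 1
    rw [mul_one, st_st, mul_one] at h
    exact h.symm
  have st_inj : ∀ x, st x = 0 → x = 0 := by
    intro x hx
    rw [← st_st x, hx, st_zero]
  have st_unit : ∀ x, IsUnit (st x) → IsUnit x := by
    rintro x ⟨u, hu⟩
    have h1 : st x * (u⁻¹ : Bˣ).val = 1 := by rw [← hu]; simp
    have h2 := congrArg st h1
    rw [st_mul, st_st, st_one] at h2
    exact IsUnit.of_mul_eq_one_right _ h2
  have ru : ∀ x y : B, IsUnit (x * y) → IsUnit x := by
    rintro x y ⟨u, hu⟩
    have h1 : x * (y * (u⁻¹ : Bˣ).val) = 1 := by rw [← mul_assoc, ← hu]; simp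
    exact IsUnit.of_mul_eq_one _ h1
  rcases subsingleton_or_nontrivial B with hB | hB
  · exact Subsingleton.elim _ _
  have lemN : ∀ x : B, x ≠ 0 → x * st x = 0 → (∀ s, st s = s → x * s * st x = 0) ∧
      (∀ s, st s = s → st x * s * x = 0) ∧ ¬ IsUnit x := by
    intro x hx hxx
    have hnu : ¬ IsUnit x := by
      intro hu
      apply hx
      apply st_inj
      exact hu.mul_right_eq_zero.mp hxx
    have hnu' : ¬ IsUnit (st x) := fun h => hnu (st_unit x h)
    have hxs : st x ≠ 0 := fun h => hx (st_inj x h)
    refine ⟨?_, ?_, hnu⟩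
    · intro s hs
      by_contra hne
      have h1 : st (x * s * st x) = x * s * st x := by
        rw [st_mul, st_mul, st_st, hs, mul_assoc]
      have h2 := unit _ h1 hne
      rw [mul_assoc] at h2
      exact hnu (ru _ _ h2)
    · intro s hs
      by_contra hne
      have h1 : st (st x * s * x) = st x * s * x := by
        rw [st_mul, st_mul, st_st, hs, mul_assoc]
      have h2 := unit _ h1 hne
      rw [mul_assoc] at h2
      exact hnu' (ru _ _ h2)
  by_cases hA : ∀ x : B, x * st x = 0 → x = 0
  · -- domain
    apply domain_comm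
    intro a b hab
    by_cases ha : a = 0
    · left; exact ha
    right
    have h1 : a * st a ≠ 0 := fun h => ha (hA a h)
    have h2 : st (a * st a) = a * st a := by rw [st_mul, st_st]
    have h3 := ru _ _ (unit _ h2 h1)
    exact h3.mul_right_eq_zero.mp hab
  push Not at hA
  by_cases hB1 : ∃ x : B, x * st x = 0 ∧ x + st x ≠ 0
  · -- central idempotent
    obtain ⟨x₀, hx0, ht0⟩ := hB1
    have hx0ne : x₀ ≠ 0 := by
      rintro rfl; apply ht0; rw [st_zero, add_zero]
    obtain ⟨n1, n2, n3⟩ := lemN x₀ hx0ne hx0
    have hsx : st x₀ * x₀ = 0 := by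
      have := n2 1 st_one
      rwa [mul_one] at this
    have hts : st (x₀ + st x₀) = x₀ + st x₀ := by rw [st_add, st_st, add_comm]
    obtain ⟨t, ht⟩ := unit _ hts ht0
    have hxt : x₀ * (t : B) = x₀ * x₀ := by rw [ht, mul_add, hx0, add_zero]
    have htx : (t : B) * x₀ = x₀ * x₀ := by rw [ht, add_mul, hsx, add_zero]
    have hcomm : (t : B) * x₀ = x₀ * t := by rw [htx, hxt]
    have hcomm' : (t⁻¹ : Bˣ).val * x₀ = x₀ * (t⁻¹ : Bˣ).val := by
      calc (t⁻¹ : Bˣ).val * x₀ = (t⁻¹ : Bˣ).val * (x₀ * t) * (t⁻¹ : Bˣ).val := by
            rw [mul_assoc, mul_assoc, Units.mul_inv, mul_one]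
        _ = (t⁻¹ : Bˣ).val * (t * x₀) * (t⁻¹ : Bˣ).val := by rw [hcomm]
        _ = x₀ * (t⁻¹ : Bˣ).val := by rw [← mul_assoc, Units.inv_mul, one_mul]
    obtain ⟨e, he⟩ : ∃ e : B, e = (t⁻¹ : Bˣ).val * x₀ := ⟨_, rfl⟩
    have hee : e * e = e := by
      calc e * e = (t⁻¹ : Bˣ).val * (x₀ * (t⁻¹ : Bˣ).val) * x₀ := by rw [he]; noncomm_ring
        _ = (t⁻¹ : Bˣ).val * ((t⁻¹ : Bˣ).val * x₀) * x₀ := by rw [hcomm']
        _ = (t⁻¹ : Bˣ).val * (t⁻¹ : Bˣ).val * (x₀ * x₀) := by noncomm_ring
        _ = (t⁻¹ : Bˣ).val * (t⁻¹ : Bˣ).val * (t * x₀) := by rw [htx]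
        _ = (t⁻¹ : Bˣ).val * ((t⁻¹ : Bˣ).val * t) * x₀ := by noncomm_ring
        _ = e := by rw [Units.inv_mul, mul_one, ← he]
    have hst_inv : st (t⁻¹ : Bˣ).val = (t⁻¹ : Bˣ).val := by
      have h1 : (t : B) * (t⁻¹ : Bˣ).val = 1 := Units.mul_inv t
      have h2 := congrArg st h1
      rw [st_mul, st_one, ht, hts, ← ht] at h2
      calc st (t⁻¹ : Bˣ).val = st (t⁻¹ : Bˣ).val * (t * (t⁻¹ : Bˣ).val) := by
            rw [Units.mul_inv, mul_one]
        _ = (st (t⁻¹ : Bˣ).val * t) * (t⁻¹ : Bˣ).val := by rw [mul_assoc]
        _ = _ := by rw [h2, one_mul]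
    have hste : st e = 1 - e := by
      have h1 : st x₀ = t - x₀ := by rw [ht]; abel
      rw [he, st_mul, hst_inv, h1, sub_mul, Units.mul_inv, ← hcomm']
    have he0 : e ≠ 0 := by
      intro h
      apply hx0ne
      have : (t : B) * e = x₀ := by rw [he, ← mul_assoc, Units.mul_inv, one_mul]
      rw [← this, h, mul_zero]
    have hese : e * st e = 0 := by rw [hste, mul_sub, mul_one, hee, sub_self]
    obtain ⟨m1, m2, m3⟩ := lemN e he0 hese
    have hcen : ∀ y, y * e = e * y := by
      apply gen
      intro s hs
      have k1 := m1 s hs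
      have k2 := m2 s hs
      rw [hste, mul_sub, mul_one, sub_eq_zero] at k1
      rw [hste, sub_mul, one_mul, sub_mul, sub_eq_zero] at k2
      rw [k2, ← k1]
    -- corner domain
    have hcor : ∀ a b : B, (e * a * e) * (e * b * e) = (e * b * e) * (e * a * e) := by
      apply corner_comm hee he0
      intro a b hab
      by_contra hcon
      push Not at hcon
      obtain ⟨ha, hb⟩ := hcon
      -- units from symmetric elements
      have key : ∀ y : B, e * y * e ≠ 0 → IsUnit (e * y * e + st (e * y * e)) := by
        intro y hy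
        apply unit
        · rw [st_add, st_st, add_comm]
        · intro h
          apply hy
          have h1 : e * (e * y * e + st (e * y * e)) = e * y * e := by
            have h2 : e * st (e * y * e) = 0 := by
              rw [st_mul, ← mul_assoc, hese, zero_mul]
            rw [mul_add, h2, add_zero, ← mul_assoc, ← mul_assoc, hee]
          rw [← h1, h, mul_zero]
      have hu := (key a ha).mul (key b hb)
      -- the product has zero e-component
      have h1 : e * ((e * a * e + st (e * a * e)) * (e * b * e + st (e * b * e))) = 0 := by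
        have h2 : e * st (e * a * e) = 0 := by
          rw [st_mul, ← mul_assoc, hese, zero_mul]
        have h3 : e * (e * a * e) = e * a * e := by rw [← mul_assoc, ← mul_assoc, hee]
        have h4 : (e * a * e) * st (e * b * e) = 0 := by
          rw [st_mul, st_mul]
          calc e * a * e * (st e * (st b * st e)) = e * a * (e * st e) * (st b * st e) := by
                noncomm_ring
            _ = 0 := by rw [hese]; simp
        have h5 : e * (e * a * e + st (e * a * e)) = e * a * e := by
          rw [mul_add, h2, add_zero, h3]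
        rw [← mul_assoc, h5, mul_add, hab, h4, add_zero]
      have h5 : e = 0 := hu.mul_left_eq_zero.mp h1
      exact he0 h5
    have hcor' : ∀ a b : B, e * (a * b) = e * (b * a) := by
      intro a b
      have h1 := hcor a b
      have h2 : ∀ a : B, e * a * e = e * a := by
        intro a; rw [mul_assoc, hcen a, ← mul_assoc, hee]
      rw [h2, h2] at h1
      have h3 : ∀ a b : B, (e * a) * (e * b) = e * (a * b) := by
        intro a b
        calc (e * a) * (e * b) = e * (a * e) * b := by noncomm_ring
          _ = e * (e * a) * b := by rw [hcen]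
          _ = (e * e) * (a * b) := by noncomm_ring
          _ = _ := by rw [hee]
      rw [h3, h3] at h1
      exact h1
    have h1 := hcor' x y
    have h2 := congrArg st (hcor' (st x) (st y))
    rw [st_mul, st_mul, st_mul, st_mul, st_st, st_st, hste, mul_sub, mul_sub, mul_one, mul_one,
      hcen, hcen, hcor' y x] at h2
    have h3 : y * x = x * y := by
      have := h2
      rwa [sub_left_inj] at this
    exact h3.symm
  · push Not at hB1
    obtain ⟨x₀, hx0, hx0ne⟩ := hA
    obtain ⟨n1, n2, n3⟩ := lemN x₀ hx0ne hx0
    have hneg : st x₀ = - x₀ := by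
      have := hB1 x₀ hx0
      exact (neg_eq_of_add_eq_zero_right this).symm
    have hxu : ∀ u, x₀ * u = st u * x₀ := by
      intro u
      have h1 : (x₀ * u) * st (x₀ * u) = 0 := by
        rw [st_mul]
        have h2 : st (u * st u) = u * st u := by rw [st_mul, st_st]
        have := n1 _ h2
        calc x₀ * u * (st u * st x₀) = x₀ * (u * st u) * st x₀ := by noncomm_ring
          _ = 0 := this
      have h2 := hB1 _ h1
      rw [st_mul, hneg, mul_neg, ← sub_eq_add_neg, sub_eq_zero] at h2
      exact h2
    have hcen : ∀ y, y * x₀ = x₀ * y := by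
      apply gen
      intro s hs
      rw [hxu s, hs]
    have hann : ∀ v w, x₀ * (v * w) = x₀ * (w * v) := by
      intro v w
      have h1 : x₀ * (v * w) = st (v * w) * x₀ := hxu _
      rw [h1, st_mul, mul_assoc, ← hxu v, ← mul_assoc, hcen, mul_assoc, ← mul_assoc]
      -- goal: x₀ * st w * v = ...
      rw [← hcen, mul_assoc, ← mul_assoc]
      rw [← hxu w, mul_assoc]
    have hy : ∀ y, x₀ * y = 0 → st y = - y := by
      intro y hxy
      have h1 : x₀ * (y + st y) = 0 := by
        rw [mul_add, hxy, zero_add, hxu, st_st, hcen, hxy]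
      have h2 : st (y + st y) = y + st y := by rw [st_add, st_st, add_comm]
      have h3 : y + st y = 0 := by
        by_contra h
        have h4 := unit _ h2 h
        exact hx0ne (h4.mul_left_eq_zero.mp h1)
      exact (neg_eq_of_add_eq_zero_right h3).symm
    -- symmetric elements commute
    have hsym : ∀ a b, st a = a → st b = b → a * b = b * a := by
      intro a b ha hb
      set c := a * b - b * a with hc
      have hxc : x₀ * c = 0 := by rw [hc, mul_sub, hann, sub_self]
      have hstc : st c = - c := hy c hxc
      have hac : a * c = c * a := by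
        have h1 : x₀ * (c * a) = 0 := by rw [← mul_assoc, hxc, zero_mul]
        have h2 := hy _ h1
        rw [st_mul, ha, hstc, mul_neg, neg_inj] at h2
        exact h2
      by_cases ha0 : a = 0
      · rw [ha0]; simp
      have hau : IsUnit a := unit a ha ha0
      have hpow : ∀ k : ℕ, a ^ k * b - b * a ^ k = k • (a ^ (k - 1) * c) := by
        intro k
        induction k with
        | zero => simp
        | succ k ih =>
          have hcomm : a ^ k * c = c * a ^ k := by
            have : Commute a c := hac
            exact this.pow_left k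
          have h1 : a ^ (k + 1) * b - b * a ^ (k + 1) =
              a * (a ^ k * b - b * a ^ k) + c * a ^ k := by
            rw [hc, pow_succ']; noncomm_ring
          rw [h1, ih, ← hcomm]
          rcases k with _ | k
          · simp
          · rw [Nat.add_sub_cancel, Nat.add_sub_cancel, succ_nsmul (a ^ (k + 1) * c),
              mul_smul_comm, ← mul_assoc, ← pow_succ']
      -- orders
      have hfo : 0 < orderOf a := by
        have h1 : IsOfFinOrder hau.unit := isOfFinOrder_of_finite _
        have h2 : orderOf hau.unit = orderOf a := by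
          rw [← orderOf_units]; rfl
        rw [← h2]
        exact h1.orderOf_pos
      have hN := pow_orderOf_eq_one a
      have h3 : ¬ p ∣ orderOf a := by
        rintro ⟨N', hN'⟩
        have hst_pow : ∀ k, st (a ^ k) = a ^ k := by
          intro k
          induction k with
          | zero => rw [pow_zero, st_one]
          | succ k ih => rw [pow_succ, st_mul, ih, ha, ← pow_succ, pow_succ']
        have hz : a ^ N' - 1 = 0 := by
          by_contra hne
          have hu := unit _ (by rw [st_sub, st_one, hst_pow]) hne
          have hu3 : IsUnit ((a ^ N' - 1) ^ p) := hu.pow p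
          have h4 : (a ^ N' - 1) ^ p = 0 := by
            have : Fact p.Prime := ⟨hp⟩
            have : CharP B p := charP_of_smul hp char
            rw [sub_pow_char_of_commute p (Commute.one_right _), ← pow_mul, mul_comm N' p, ← hN', hN,
              one_pow, sub_self]
          rw [h4] at hu3
          exact not_isUnit_zero hu3
        rw [sub_eq_zero] at hz
        have h5 := orderOf_dvd_of_pow_eq_one hz
        have h6 : N' ≠ 0 := by
          rintro rfl
          rw [hN', mul_zero] at hfo
          exact lt_irrefl _ hfo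
        have h7 := Nat.le_of_dvd (Nat.pos_of_ne_zero h6) h5
        have h8 : 2 * N' ≤ p * N' := Nat.mul_le_mul_right _ hp.two_le
        omega
      have h4 := hpow (orderOf a)
      rw [hN, one_mul, mul_one, sub_self] at h4
      set N := orderOf a with hNdef
      have h6 : a ^ (N - 1) * c = 0 := by
        have h7 : addOrderOf (a ^ (N - 1) * c) ∣ N := addOrderOf_dvd_of_nsmul_eq_zero h4.symm
        have h8 : addOrderOf (a ^ (N - 1) * c) ∣ p := addOrderOf_dvd_of_nsmul_eq_zero (char _)
        have h9 : Nat.Coprime p N := (Nat.Prime.coprime_iff_not_dvd hp).mpr h3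
        have h10 := Nat.dvd_gcd h8 h7
        rw [Nat.coprime_iff_gcd_eq_one.mp h9] at h10
        exact AddMonoid.addOrderOf_eq_one_iff.mp (Nat.dvd_one.mp h10)
      have h7 : c = 0 := (hau.pow (N - 1)).mul_right_eq_zero.mp h6
      exact sub_eq_zero.mp h7
    -- conclusion
    have hsc : ∀ s, st s = s → ∀ y, y * s = s * y := by
      intro s hs
      apply gen
      intro s' hs'
      exact hsym s' s hs' hs
    exact gen y (fun s hs => (hsc s hs y).symm) x

end InvRing

end Pool.Agent.Run7.H454
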