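import Pool.Agent.Char3.Tour3

set_option autoImplicit false

namespace Pool.Agent.Run7.H454

open Equiv MulAction Pool.Agent.Char3

variable {Ω : Type*}

/-- involutions of the group of automorphisms and antiautomorphisms with fixed point `O` -/
structure IsInv (S : Ω → Ω → ℤˣ) (O : Ω) (t : Perm Ω) : Prop where
  mem : t ∈ pmAut S
  sq : t * t = 1
  fix : t O = O
  ne : t ≠ 1

variable {S : Ω → Ω → ℤˣ}

theorem IsInv.app {O : Ω} {t : Perm Ω} (h : IsInv S O t) (x : Ω) : t (t x) = x := by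
  rw [← Perm.mul_apply, h.sq]; rfl

theorem rev_of_invol (hS : Skew S) {t : Perm Ω} (hm : t ∈ pmAut S) (hsq : t * t = 1) (hne : t ≠ 1) :
    Rev S t := by
  obtain ⟨x, hx⟩ : ∃ x, t x ≠ x := by
    by_contra hcon
    push Not at hcon
    exact hne (Perm.ext hcon)
  apply rev_of_swap hS hm hx.symm
  have : t (t x) = x := by rw [← Perm.mul_apply, hsq]; rfl
  rw [this]
  exact hS x (t x) hx.symm

theorem IsInv.rev (hS : Skew S) {O : Ω} {t : Perm Ω} (h : IsInv S O t) : Rev S t :=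
  rev_of_invol hS h.mem h.sq h.ne

theorem IsInv.nofix (hS : Skew S) {O : Ω} {t : Perm Ω} (h : IsInv S O t) {x : Ω} (hx : x ≠ O) :
    t x ≠ x := fun h' => hx (rev_fixed_unique (h.rev hS) h' h.fix)

variable [Finite Ω]

theorem exists_invol_swap (hS : Skew S)
    (h2t : ∀ A B A' B' : Ω, A ≠ B → A' ≠ B' → ∃ g ∈ pmAut S, g A = A' ∧ g B = B') {A B : Ω}
    (hAB : A ≠ B) : ∃ t ∈ pmAut S, t * t = 1 ∧ t A = B := by
  obtain ⟨g, hg, hgA, hgB⟩ := h2t A B B A hAB hAB.symm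
  have h1 : g * g ∈ stab2 S A B := by
    refine ⟨mul_mem hg hg, ?_, ?_⟩
    · rw [Perm.mul_apply, hgA, hgB]
    · rw [Perm.mul_apply, hgB, hgA]
  obtain ⟨r, hr⟩ : ∃ r, r = Nat.card (stab2 S A B) := ⟨_, rfl⟩
  have hodd : r % 2 = 1 := by
    have := odd_stab2 hS hAB
    rw [← hr] at this
    omega
  have h2 : (g * g) ^ r = 1 := by
    have := pow_card_eq_one' (x := (⟨g * g, h1⟩ : stab2 S A B))
    rw [← hr] at this
    exact congrArg Subtype.val this
  have hfix : ∀ k : ℕ, ((g * g) ^ k) A = A := by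
    intro k
    have : (g * g) ^ k ∈ stab2 S A B := pow_mem h1 k
    exact this.2.1
  refine ⟨g ^ r, pow_mem hg r, ?_, ?_⟩
  · rw [← (Commute.refl g).mul_pow, h2]
  · have : g ^ r = g * (g * g) ^ (r / 2) := by
      rw [← pow_two, ← pow_mul, ← pow_succ']
      congr 1
      omega
    rw [this, Perm.mul_apply, hfix, hgA]

theorem exists_fix {t : Perm Ω} (hodd : ¬ 2 ∣ Nat.card Ω) (hsq : t * t = 1) : ∃ x, t x = x := by
  classical
  haveI : Fintype Ω := Fintype.ofFinite _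
  haveI : Fact (Nat.Prime 2) := ⟨Nat.prime_two⟩
  apply Perm.exists_fixed_point_of_prime (p := 2) (n := 1)
  · rwa [← Nat.card_eq_fintype_card]
  · rw [pow_one, pow_two, hsq]

theorem exists_mid (hS : Skew S)
    (h2t : ∀ A B A' B' : Ω, A ≠ B → A' ≠ B' → ∃ g ∈ pmAut S, g A = A' ∧ g B = B')
    (hodd : ¬ 2 ∣ Nat.card Ω) {A B : Ω}
    (hAB : A ≠ B) : ∃ C t, IsInv S C t ∧ t A = B := by
  obtain ⟨t, h1, h2, h3⟩ := exists_invol_swap hS h2t hAB
  obtain ⟨C, hC⟩ := exists_fix hodd h2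
  refine ⟨C, t, ⟨h1, h2, hC, ?_⟩, h3⟩
  rintro rfl
  exact hAB h3

theorem exists_isInv (hS : Skew S)
    (h2t : ∀ A B A' B' : Ω, A ≠ B → A' ≠ B' → ∃ g ∈ pmAut S, g A = A' ∧ g B = B')
    (hodd : ¬ 2 ∣ Nat.card Ω) {O O' : Ω} (hO : O ≠ O') : ∃ t, IsInv S O t := by
  obtain ⟨C, t, ht, hA⟩ := exists_mid hS h2t hodd hO
  obtain ⟨C', hC'⟩ : ∃ C', C ≠ C' := by
    by_cases h : C = O
    · exact ⟨O', by rw [h]; exact hO⟩
    · exact ⟨O, h⟩
  obtain ⟨g, hg, hgC, -⟩ := h2t C C' O O' hC' hO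
  refine ⟨g * t * g⁻¹, ⟨mul_mem (mul_mem hg ht.mem) (inv_mem hg), ?_, ?_, ?_⟩⟩
  · have : g * t * g⁻¹ * (g * t * g⁻¹) = g * (t * t) * g⁻¹ := by group
    rw [this, ht.sq]; group
  · rw [Perm.mul_apply, Perm.mul_apply]
    have : g⁻¹ O = C := by rw [Perm.inv_eq_iff_eq, hgC]
    rw [this, ht.fix, hgC]
  · intro h
    apply ht.ne
    have : t = g⁻¹ * (g * t * g⁻¹) * g := by group
    rw [this, h]; group

/-- the fixed point of an involution moving `A` to `B` is unique -/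
theorem mid_unique (hS : Skew S)
    (h2t : ∀ A B A' B' : Ω, A ≠ B → A' ≠ B' → ∃ g ∈ pmAut S, g A = A' ∧ g B = B')
    {A B C C' : Ω} (hAB : A ≠ B) {t t' : Perm Ω} (ht : IsInv S C t) (ht' : IsInv S C' t')
    (h : t A = B) (h' : t' A = B) : C = C' :=
  fourth_unique hS h2t hAB ht.mem ht'.mem ht.sq ht'.sq h h' ht.fix ht'.fix

/-- there is only one involution with a given fixed point -/
theorem isInv_unique (hS : Skew S)
    (h2t : ∀ A B A' B' : Ω, A ≠ B → A' ≠ B' → ∃ g ∈ pmAut S, g A = A' ∧ g B = B')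
    (hodd : ¬ 2 ∣ Nat.card Ω) {O : Ω} {t t' : Perm Ω} (ht : IsInv S O t) (ht' : IsInv S O t') :
    t = t' := by
  classical
  apply Equiv.ext
  intro A
  by_cases hA : A = O
  · rw [hA, ht.fix, ht'.fix]
  -- the midpoint map
  have hex : ∀ B : {B : Ω // B ≠ A}, ∃ C : {C : Ω // C ≠ A}, ∃ t, IsInv S C.1 t ∧ t A = B.1 := by
    rintro ⟨B, hB⟩
    obtain ⟨C, t, h1, h2⟩ := exists_mid hS h2t hodd (A := A) (B := B) (Ne.symm hB)
    refine ⟨⟨C, ?_⟩, t, h1, h2⟩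
    rintro rfl
    rw [h1.fix] at h2
    exact hB h2.symm
  choose f hf using hex
  have hsurj : Function.Surjective f := by
    rintro ⟨C, hC⟩
    obtain ⟨τ, hτ⟩ := exists_isInv hS h2t hodd hC
    have hτA : τ A ≠ A := hτ.nofix hS (Ne.symm hC)
    refine ⟨⟨τ A, hτA⟩, ?_⟩
    obtain ⟨τ', h1, h2⟩ := hf ⟨τ A, hτA⟩
    apply Subtype.ext
    exact mid_unique hS h2t (A := A) (B := τ A) hτA.symm h1 hτ h2 rfl
  have hinj : Function.Injective f := Finite.injective_iff_surjective.mpr hsurj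
  have key : ∀ {t : Perm Ω} (ht : IsInv S O t),
      f ⟨t A, ht.nofix hS hA⟩ = ⟨O, Ne.symm hA⟩ := by
    intro t ht
    obtain ⟨τ', h1, h2⟩ := hf ⟨t A, ht.nofix hS hA⟩
    apply Subtype.ext
    exact mid_unique hS h2t (A := A) (B := t A) (ht.nofix hS hA).symm h1 ht h2 rfl
  have := hinj ((key ht).trans (key ht').symm)
  exact congrArg Subtype.val this

end Pool.Agent.Run7.H454
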