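import Pool.Agent.Run7.h454.Latin

set_option autoImplicit false

namespace Pool.Agent.Run7.H454

open Configuration Configuration.Nondegenerate Equiv Pool.Agent.Char3

variable {P L : Type*} [Membership P L] [ProjectivePlane P L] [Finite P] [Finite L]

variable (P L) in
/-- the relation between the signs expressing that all translations are even -/
def BR : Prop := ∀ (X Y Z : P) (l a b : L), Y ∈ l → Y ∈ a → Y ∈ b → a ≠ l → b ≠ l → X ∈ l →
  Z ∈ l → X ≠ Y → Z ≠ Y → be X a * be Z a = be X b * be Z b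

theorem exists_enc (l : L) (X : P) (h : X ∈ l) :
    ∃ e : {k : L // X ∈ k} ≃ Option (Fin (ProjectivePlane.order P L)), e ⟨l, h⟩ = none := by
  classical
  let e0 : {k : L // X ∈ k} ≃ Option (Fin (ProjectivePlane.order P L)) :=
    (eP X).trans (Finite.equivFinOfCardEq (α := Option (Fin (ProjectivePlane.order P L)))
      (by simp)).symm
  refine ⟨e0.trans (Equiv.swap (e0 ⟨l, h⟩) none), ?_⟩
  rw [Equiv.trans_apply, Equiv.swap_apply_left]

noncomputable def enc (l : L) (X : P) (h : X ∈ l) :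
    {k : L // X ∈ k} ≃ Option (Fin (ProjectivePlane.order P L)) := (exists_enc l X h).choose

theorem enc_l (l : L) (X : P) (h : X ∈ l) : enc l X h ⟨l, h⟩ = none := (exists_enc l X h).choose_spec

theorem enc_symm_none (l : L) (X : P) (h : X ∈ l) : (enc l X h).symm none = ⟨l, h⟩ := by
  rw [Equiv.symm_apply_eq, enc_l]

omit [Finite P] [Finite L] in
/-- projection of pencils through the line `a`. -/
noncomputable def rho (X Z : P) (a : L) (hX : X ∉ a) (hZ : Z ∉ a) :
    {k : L // X ∈ k} ≃ {k : L // Z ∈ k} := (pen X a hX).trans (pen Z a hZ).symm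

omit [Finite P] [Finite L] in
theorem rho_coe (X Z : P) (a : L) (hX : X ∉ a) (hZ : Z ∉ a) (k : {k : L // X ∈ k}) :
    (rho X Z a hX hZ k : L) = jn Z (mt k.1 a : P) := rfl

omit [Finite P] [Finite L] in
theorem rho_eq {X Z : P} {a : L} (hX : X ∉ a) (hZ : Z ∉ a) {k k' : L} (hk : X ∈ k) (hk' : Z ∈ k')
    {p : P} (hpk : p ∈ k) (hpa : p ∈ a) (hpk' : p ∈ k') :
    rho X Z a hX hZ ⟨k, hk⟩ = ⟨k', hk'⟩ := by
  apply Subtype.ext
  rw [rho_coe]
  have h1 : k ≠ a := fun h => hX (h ▸ hk)
  have h2 : p = mt k a := eq_mt h1 hpk hpa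
  rw [← h2]
  exact (eq_jn (ne_of_mem hpa hZ).symm hk' hpk').symm

theorem be_mul_be {X Z : P} {a : L} (hX : X ∉ a) (hZ : Z ∉ a) :
    be X a * be Z a = Perm.sign ((eP X).symm.trans ((rho X Z a hX hZ).trans (eP Z))) := by
  have h1 : be X a = Perm.sign ((eP X).symm.trans ((pen X a hX).trans (eL a))) := by
    unfold be; rw [dif_pos hX]
  have h2 : be Z a = Perm.sign ((eP Z).symm.trans ((pen Z a hZ).trans (eL a))) := by
    unfold be; rw [dif_pos hZ]
  rw [h1, h2, ← Perm.sign_symm ((eP Z).symm.trans ((pen Z a hZ).trans (eL a))), mul_comm,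
    ← Perm.sign_mul]
  congr 1
  apply Equiv.ext
  intro x
  simp only [Equiv.trans_apply, Perm.mul_apply, Equiv.symm_trans_apply, Equiv.symm_symm,
    Equiv.symm_apply_apply, rho]

/-- an auxiliary identification -/
noncomputable def gg (P L : Type*) [Membership P L] [ProjectivePlane P L] [Finite P] [Finite L] :
    Option (Fin (ProjectivePlane.order P L)) ≃ Fin (ProjectivePlane.order P L + 1) :=
  Finite.equivFinOfCardEq (by simp)

noncomputable def kap (l : L) (X : P) (h : X ∈ l) : ℤˣ :=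
  Perm.sign ((eP X).symm.trans ((enc l X h).trans (gg P L)))

/-- the affine permutation -/
noncomputable def taf (l : L) (X Z : P) (hX : X ∈ l) (hZ : Z ∈ l) (a : L) (hXa : X ∉ a)
    (hZa : Z ∉ a) : Perm (Option (Fin (ProjectivePlane.order P L))) :=
  (enc l X hX).symm.trans ((rho X Z a hXa hZa).trans (enc l Z hZ))

theorem taf_none (l : L) (X Z : P) (hX : X ∈ l) (hZ : Z ∈ l) (a : L) (hXa : X ∉ a)
    (hZa : Z ∉ a) : taf l X Z hX hZ a hXa hZa none = none := by
  unfold taf
  rw [Equiv.trans_apply, Equiv.trans_apply, enc_symm_none]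
  have : rho X Z a hXa hZa ⟨l, hX⟩ = ⟨l, hZ⟩ :=
    rho_eq hXa hZa hX hZ (mt_mem_left l a) (mt_mem_right l a) (mt_mem_left l a)
  rw [this, enc_l]

theorem be_mul_be' (l : L) (X Z : P) (hX : X ∈ l) (hZ : Z ∈ l) (a : L) (hXa : X ∉ a)
    (hZa : Z ∉ a) : be X a * be Z a = kap l X hX * kap l Z hZ *
      Perm.sign (removeNone (taf l X Z hX hZ a hXa hZa)) := by
  have h1 : Perm.sign (removeNone (taf l X Z hX hZ a hXa hZa)) =
      Perm.sign (taf l X Z hX hZ a hXa hZa) := by
    have := map_equiv_removeNone (taf l X Z hX hZ a hXa hZa)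
    rw [taf_none, Equiv.swap_self] at this
    rw [← Equiv.optionCongr_sign, this]
    congr 1
  have h2 : Perm.sign (taf l X Z hX hZ a hXa hZa) =
      Perm.sign ((gg P L).symm.trans ((taf l X Z hX hZ a hXa hZa).trans (gg P L))) := by
    exact (Perm.sign_symm_trans_trans _ (gg P L)).symm
  have h3 : (eP X).symm.trans ((rho X Z a hXa hZa).trans (eP Z)) =
      (((eP X).symm.trans ((enc l X hX).trans (gg P L))).trans
        ((gg P L).symm.trans ((taf l X Z hX hZ a hXa hZa).trans (gg P L)))).trans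
        ((eP Z).symm.trans ((enc l Z hZ).trans (gg P L))).symm := by
    apply Equiv.ext
    intro x
    simp [taf]
  rw [h1, h2, be_mul_be hXa hZa, h3, Perm.sign_trans, Perm.sign_trans, Perm.sign_symm]
  unfold kap
  ac_rfl

/-- the line with number `i` through `X` -/
noncomputable def LN (l : L) (X : P) (hX : X ∈ l) (i : Fin (ProjectivePlane.order P L)) : L :=
  ((enc l X hX).symm (some i)).1

theorem mem_LN (l : L) (X : P) (hX : X ∈ l) (i : Fin (ProjectivePlane.order P L)) :
    X ∈ LN l X hX i := ((enc l X hX).symm (some i)).2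

theorem LN_ne (l : L) (X : P) (hX : X ∈ l) (i : Fin (ProjectivePlane.order P L)) :
    LN l X hX i ≠ l := by
  intro h
  have h1 : (enc l X hX).symm (some i) = ⟨l, hX⟩ := Subtype.ext h
  rw [← enc_symm_none] at h1
  exact absurd ((enc l X hX).symm.injective h1) (by simp)

theorem enc_eq (l : L) (X : P) (hX : X ∈ l) (i : Fin (ProjectivePlane.order P L)) (k : L)
    (hk : X ∈ k) : enc l X hX ⟨k, hk⟩ = some i ↔ k = LN l X hX i := by
  rw [← Equiv.eq_symm_apply]
  constructor
  · intro h; exact congrArg Subtype.val h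
  · intro h; exact Subtype.ext h

theorem rem_eq (l : L) {X Z : P} (hX : X ∈ l) (hZ : Z ∈ l) {a : L} (hXa : X ∉ a)
    (hZa : Z ∉ a) {i j : Fin (ProjectivePlane.order P L)} {p : P} (hpi : p ∈ LN l X hX i)
    (hpa : p ∈ a) (hpj : p ∈ LN l Z hZ j) :
    removeNone (taf l X Z hX hZ a hXa hZa) i = j := by
  have h1 : taf l X Z hX hZ a hXa hZa (some i) = some j := by
    unfold taf
    rw [Equiv.trans_apply, Equiv.trans_apply]
    have : rho X Z a hXa hZa ((enc l X hX).symm (some i)) = (enc l Z hZ).symm (some j) :=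
      rho_eq hXa hZa (mem_LN l X hX i) (mem_LN l Z hZ j) hpi hpa hpj
    rw [this, Equiv.apply_symm_apply]
  have h2 := removeNone_some (taf l X Z hX hZ a hXa hZa) (x := i) ⟨j, h1⟩
  rw [h1] at h2
  exact Option.some_injective _ h2

theorem rem_spec (l : L) {X Z : P} (hX : X ∈ l) (hZ : Z ∈ l) {a : L} (hXa : X ∉ a)
    (hZa : Z ∉ a) (i : Fin (ProjectivePlane.order P L)) :
    ∃ p : P, p ∈ LN l X hX i ∧ p ∈ a ∧
      p ∈ LN l Z hZ (removeNone (taf l X Z hX hZ a hXa hZa) i) := by
  set p : P := mt (LN l X hX i) a with hp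
  have hp1 : p ∈ LN l X hX i := mt_mem_left _ _
  have hp2 : p ∈ a := mt_mem_right _ _
  have hpl : p ∉ l := by
    intro h
    have : p = X := point_eq (LN_ne l X hX i) hp1 h (mem_LN l X hX i) hX
    exact hXa (this ▸ hp2)
  have hk : (jn Z p : L) ≠ l := by
    intro h; exact hpl (by rw [← h]; exact mem_jn_right _ _)
  obtain ⟨j, hj⟩ : ∃ j, enc l Z hZ ⟨jn Z p, mem_jn_left _ _⟩ = some j := by
    rw [← Option.ne_none_iff_exists']
    intro h
    rw [← enc_l l Z hZ] at h
    exact hk (congrArg Subtype.val ((enc l Z hZ).injective h))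
  rw [enc_eq] at hj
  have hpj : p ∈ LN l Z hZ j := by rw [← hj]; exact mem_jn_right _ _
  refine ⟨p, hp1, hp2, ?_⟩
  rw [rem_eq l hX hZ hXa hZa hp1 hp2 hpj]
  exact hpj

/-- **the parity identity** in planes all of whose translations are even -/
theorem sig_pow (hB : BR P L) {l : L} {O X Y Z : P} (hX : X ∈ l) (hY : Y ∈ l) (hZ : Z ∈ l)
    (hXY : X ≠ Y) (hYZ : Y ≠ Z) (hXZ : X ≠ Z) (hO : O ∉ l) :
    ((be Y (jn O X : L) * be Z (jn O X : L)) * (be X (jn O Z : L) * be Y (jn O Z : L)) *
      (be Z (jn O Y : L) * be X (jn O Y : L))) ^ (ProjectivePlane.order P L) =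
      (-1) ^ (ProjectivePlane.order P L * (ProjectivePlane.order P L - 1) / 2) := by
  classical
  have off : ∀ {U V : P} {k : L}, U ∈ l → V ∈ l → U ≠ V → V ∈ k → k ≠ l → U ∉ k := by
    intro U V k hU hV hUV hVk hkl h
    exact hUV (point_eq hkl h hU hVk hV)
  let r : Fin (ProjectivePlane.order P L) → Perm (Fin (ProjectivePlane.order P L)) := fun i =>
    removeNone (taf l Y Z hY hZ (LN l X hX i)
      (off hY hX hXY.symm (mem_LN l X hX i) (LN_ne l X hX i))
      (off hZ hX hXZ.symm (mem_LN l X hX i) (LN_ne l X hX i)))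
  let m : Fin (ProjectivePlane.order P L) → Perm (Fin (ProjectivePlane.order P L)) := fun i =>
    removeNone (taf l X Y hX hY (LN l Z hZ i)
      (off hX hZ hXZ (mem_LN l Z hZ i) (LN_ne l Z hZ i))
      (off hY hZ hYZ (mem_LN l Z hZ i) (LN_ne l Z hZ i)))
  let c : Fin (ProjectivePlane.order P L) → Perm (Fin (ProjectivePlane.order P L)) := fun i =>
    removeNone (taf l Z X hZ hX (LN l Y hY i)
      (off hZ hY hYZ.symm (mem_LN l Y hY i) (LN_ne l Y hY i))
      (off hX hY hXY (mem_LN l Y hY i) (LN_ne l Y hY i)))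
  have key := latin_parity (ProjectivePlane.order P L) r m c
    (by
      intro x y
      obtain ⟨p, h1, h2, h3⟩ := rem_spec l hY hZ
        (off hY hX hXY.symm (mem_LN l X hX x) (LN_ne l X hX x))
        (off hZ hX hXZ.symm (mem_LN l X hX x) (LN_ne l X hX x)) y
      exact rem_eq l hX hY _ _ h2 h3 h1)
    (by
      intro x y
      obtain ⟨p, h1, h2, h3⟩ := rem_spec l hY hZ
        (off hY hX hXY.symm (mem_LN l X hX x) (LN_ne l X hX x))
        (off hZ hX hXZ.symm (mem_LN l X hX x) (LN_ne l X hX x)) y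
      exact rem_eq l hZ hX _ _ h3 h1 h2)
  have hOl : ∀ U : P, (jn O U : L) ≠ l := by
    intro U h; exact hO (by rw [← h]; exact mem_jn_left _ _)
  have e1 : ∀ i, Perm.sign (r i) = (be Y (jn O X : L) * be Z (jn O X : L)) *
      (kap l Y hY * kap l Z hZ) := by
    intro i
    have h1 := be_mul_be' l Y Z hY hZ (LN l X hX i)
      (off hY hX hXY.symm (mem_LN l X hX i) (LN_ne l X hX i))
      (off hZ hX hXZ.symm (mem_LN l X hX i) (LN_ne l X hX i))
    have h2 := hB Y X Z l (LN l X hX i) (jn O X) hX (mem_LN l X hX i) (mem_jn_right _ _)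
      (LN_ne l X hX i) (hOl X) hY hZ hXY.symm hXZ.symm
    rw [← h2, h1]
    calc Perm.sign (r i) = (kap l Y hY * kap l Y hY) * (kap l Z hZ * kap l Z hZ) *
          Perm.sign (r i) := by rw [units_mul_self, units_mul_self]; simp
      _ = _ := by simp only [r]; ac_rfl
  have e2 : ∀ i, Perm.sign (m i) = (be X (jn O Z : L) * be Y (jn O Z : L)) *
      (kap l X hX * kap l Y hY) := by
    intro i
    have h1 := be_mul_be' l X Y hX hY (LN l Z hZ i)
      (off hX hZ hXZ (mem_LN l Z hZ i) (LN_ne l Z hZ i))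
      (off hY hZ hYZ (mem_LN l Z hZ i) (LN_ne l Z hZ i))
    have h2 := hB X Z Y l (LN l Z hZ i) (jn O Z) hZ (mem_LN l Z hZ i) (mem_jn_right _ _)
      (LN_ne l Z hZ i) (hOl Z) hX hY hXZ hYZ
    rw [← h2, h1]
    calc Perm.sign (m i) = (kap l X hX * kap l X hX) * (kap l Y hY * kap l Y hY) *
          Perm.sign (m i) := by rw [units_mul_self, units_mul_self]; simp
      _ = _ := by simp only [m]; ac_rfl
  have e3 : ∀ i, Perm.sign (c i) = (be Z (jn O Y : L) * be X (jn O Y : L)) *
      (kap l Z hZ * kap l X hX) := by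
    intro i
    have h1 := be_mul_be' l Z X hZ hX (LN l Y hY i)
      (off hZ hY hYZ.symm (mem_LN l Y hY i) (LN_ne l Y hY i))
      (off hX hY hXY (mem_LN l Y hY i) (LN_ne l Y hY i))
    have h2 := hB Z Y X l (LN l Y hY i) (jn O Y) hY (mem_LN l Y hY i) (mem_jn_right _ _)
      (LN_ne l Y hY i) (hOl Y) hZ hX hYZ.symm hXY
    rw [← h2, h1]
    calc Perm.sign (c i) = (kap l Z hZ * kap l Z hZ) * (kap l X hX * kap l X hX) *
          Perm.sign (c i) := by rw [units_mul_self, units_mul_self]; simp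
      _ = _ := by simp only [c]; ac_rfl
  rw [Finset.prod_congr rfl (fun i _ => e1 i), Finset.prod_congr rfl (fun i _ => e2 i),
    Finset.prod_congr rfl (fun i _ => e3 i), Finset.prod_const, Finset.prod_const,
    Finset.prod_const, Finset.card_univ, Fintype.card_fin, ← mul_pow, ← mul_pow] at key
  rw [← key]
  congr 1
  generalize be Y (jn O X : L) * be Z (jn O X : L) = p1
  generalize be X (jn O Z : L) * be Y (jn O Z : L) = p2
  generalize be Z (jn O Y : L) * be X (jn O Y : L) = p3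
  symm
  calc p1 * (kap l Y hY * kap l Z hZ) * (p2 * (kap l X hX * kap l Y hY)) *
      (p3 * (kap l Z hZ * kap l X hX)) = (kap l X hX * kap l X hX) * (kap l Y hY * kap l Y hY) *
        (kap l Z hZ * kap l Z hZ) * (p1 * p2 * p3) := by ac_rfl
    _ = _ := by rw [units_mul_self, units_mul_self, units_mul_self]; simp

end Pool.Agent.Run7.H454
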