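import Pool.Agent.Char3.Nabla

set_option autoImplicit false

namespace Pool.Agent.Run7.H454

open Equiv

/-- sign of the swap of the two coordinates -/
theorem sign_swap_coord (n : ℕ) :
    Perm.sign (Equiv.prodComm (Fin n) (Fin n)) = (-1) ^ (n * (n - 1) / 2) := by
  have hsq : (Equiv.prodComm (Fin n) (Fin n) : Perm (Fin n × Fin n)) ^ 2 = 1 := by
    ext p <;> simp [pow_two]
  rw [Perm.sign_of_pow_two_eq_one hsq]
  have h1 : Fintype.card (Function.fixedPoints (Equiv.prodComm (Fin n) (Fin n))) = n := by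
    rw [← Nat.card_eq_fintype_card]
    have : (Function.fixedPoints (Equiv.prodComm (Fin n) (Fin n))) =
        Set.range (fun i : Fin n => (i, i)) := by
      ext ⟨i, j⟩
      simp only [Function.mem_fixedPoints, Function.IsFixedPt, Equiv.prodComm_apply, Prod.swap_prod_mk,
        Prod.mk.injEq, Set.mem_range]
      constructor
      · rintro ⟨h, -⟩
        exact ⟨i, rfl, h.symm⟩
      · rintro ⟨k, h1, h2⟩
        exact ⟨h2.symm.trans h1, h1.symm.trans h2⟩
    rw [this, Nat.card_coe_set_eq, ← Set.image_univ, Set.ncard_image_of_injective _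
      (fun a b h => (Prod.mk.inj h).1), Set.ncard_univ]
    simp
  rw [h1, Fintype.card_prod, Fintype.card_fin]
  congr 2
  rw [Nat.mul_sub, mul_one]

/-- parity identity for Latin squares -/
theorem latin_parity (n : ℕ) (r m c : Fin n → Perm (Fin n))
    (h1 : ∀ x y, m (r x y) x = y) (h2 : ∀ x y, c y (r x y) = x) :
    (∏ x, Perm.sign (r x)) * (∏ z, Perm.sign (m z)) * (∏ y, Perm.sign (c y)) =
      (-1) ^ (n * (n - 1) / 2) := by
  have : (Equiv.prodComm (Fin n) (Fin n) : Perm (Fin n × Fin n)) =
      (prodCongrRight c : Perm (Fin n × Fin n)) * ((prodCongrLeft m : Perm (Fin n × Fin n)) *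
        (prodCongrRight r : Perm (Fin n × Fin n))) := by
    apply Equiv.ext
    rintro ⟨x, y⟩
    simp [Perm.mul_apply, h1, h2]
  rw [← sign_swap_coord, this, Perm.sign_mul, Perm.sign_mul, Perm.sign_prodCongrRight,
    Perm.sign_prodCongrRight, Perm.sign_prodCongrLeft]
  ac_rfl

end Pool.Agent.Run7.H454
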