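import Pool.Agent.Run7.h454.Lat2

set_option autoImplicit false

namespace Pool.Agent.Run7.H454

open Configuration Configuration.Nondegenerate Equiv Pool.Agent.Char3

variable {P L : Type*} [Membership P L] [ProjectivePlane P L] [Finite P] [Finite L]

theorem sg_neg (hB : BR P L) (hn : ProjectivePlane.order P L % 4 = 3) {l : L} {O X Y Z : P}
    (hX : X ∈ l) (hY : Y ∈ l) (hZ : Z ∈ l)
    (hXY : X ≠ Y) (hYZ : Y ≠ Z) (hXZ : X ≠ Z) (hO : O ∉ l) :
    (be Y (jn O X : L) * be Z (jn O X : L)) * (be X (jn O Z : L) * be Y (jn O Z : L)) *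
      (be Z (jn O Y : L) * be X (jn O Y : L)) = -1 := by
  have key := sig_pow hB hX hY hZ hXY hYZ hXZ hO
  generalize (be Y (jn O X : L) * be Z (jn O X : L)) * (be X (jn O Z : L) * be Y (jn O Z : L)) *
      (be Z (jn O Y : L) * be X (jn O Y : L)) = u at key
  obtain ⟨k, hk⟩ : ∃ k, ProjectivePlane.order P L = 4 * k + 3 :=
    ⟨ProjectivePlane.order P L / 4, by omega⟩
  have h1 : u ^ ProjectivePlane.order P L = u := by
    rw [hk, show 4 * k + 3 = 2 * (2 * k + 1) + 1 by ring, pow_succ, pow_mul, pow_two,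
      units_mul_self, one_pow, one_mul]
  have h2 : ProjectivePlane.order P L * (ProjectivePlane.order P L - 1) / 2 =
      2 * ((2 * k + 1) * (2 * k + 1)) + (2 * k + 1) := by
    rw [hk]
    have : (4 * k + 3) * (4 * k + 3 - 1) = (2 * ((2 * k + 1) * (2 * k + 1)) + (2 * k + 1)) * 2 := by
      rw [show 4 * k + 3 - 1 = 4 * k + 2 by omega]; ring
    rw [this, Nat.mul_div_cancel _ (by norm_num)]
  rw [h1, h2] at key
  rw [key]
  apply Odd.neg_one_pow
  exact ⟨(2 * k + 1) * (2 * k + 1) + k, by ring⟩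

theorem not_two (hB : BR P L) : ProjectivePlane.order P L % 4 ≠ 2 := by
  intro hn
  obtain ⟨O₁, -⟩ := @ProjectivePlane.exists_config P L _ _
  obtain ⟨l, hO⟩ := exists_line (L := L) O₁
  have hcard := ProjectivePlane.two_lt_pointCount P l
  obtain ⟨X, Y, hX, hY, hXY⟩ : ∃ p q : P, p ∈ l ∧ q ∈ l ∧ p ≠ q := by
    obtain ⟨p, hp⟩ := exists_point_on (P := P) l
    obtain ⟨m, hm⟩ := exists_line (L := L) p
    refine ⟨p, mt l m, hp, mt_mem_left _ _, ?_⟩
    intro h
    exact hm (by rw [h]; exact mt_mem_right _ _)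
  obtain ⟨Z, hZ, hZX, hZY⟩ : ∃ c : P, c ∈ l ∧ c ≠ X ∧ c ≠ Y := by
    unfold pointCount at hcard
    by_contra hcon
    push Not at hcon
    have h2 : {p : P | p ∈ l} ⊆ {X, Y} := by
      intro p hp
      by_cases h : p = X
      · left; exact h
      · right; exact hcon p hp h
    have h3 := Set.ncard_le_ncard h2 (Set.toFinite _)
    have h4 : ({X, Y} : Set P).ncard ≤ 2 := Set.ncard_insert_le _ _ |>.trans (by simp)
    have h5 : {p : P | p ∈ l}.ncard = Nat.card {p : P // p ∈ l} := rfl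
    omega
  have key := sig_pow hB hX hY hZ hXY hZY.symm hZX.symm hO
  generalize (be Y (jn O₁ X : L) * be Z (jn O₁ X : L)) * (be X (jn O₁ Z : L) * be Y (jn O₁ Z : L)) *
      (be Z (jn O₁ Y : L) * be X (jn O₁ Y : L)) = u at key
  obtain ⟨k, hk⟩ : ∃ k, ProjectivePlane.order P L = 4 * k + 2 :=
    ⟨ProjectivePlane.order P L / 4, by omega⟩
  have h1 : u ^ ProjectivePlane.order P L = 1 := by
    rw [hk, show 4 * k + 2 = 2 * (2 * k + 1) by ring, pow_mul, pow_two,
      units_mul_self, one_pow]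
  have h2 : ProjectivePlane.order P L * (ProjectivePlane.order P L - 1) / 2 =
      2 * (k * (4 * k + 3)) + 1 := by
    rw [hk]
    have : (4 * k + 2) * (4 * k + 2 - 1) = (2 * (k * (4 * k + 3)) + 1) * 2 := by
      rw [show 4 * k + 2 - 1 = 4 * k + 1 by omega]; ring
    rw [this, Nat.mul_div_cancel _ (by norm_num)]
  rw [h1, h2, Odd.neg_one_pow ⟨_, rfl⟩] at key
  exact absurd key (by decide)

theorem gam_indep' (hB : BR P L) (hn : ProjectivePlane.order P L % 2 = 1) {a b m : L}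
    {Y X : P} (hY : Y ∈ m) (hX : X ∈ m) (hXY : X ≠ Y) (hYa : Y ∈ a) (hYb : Y ∈ b)
    (ham : a ≠ m) (hbm : b ≠ m) : gam a m Y X = gam b m Y X := by
  classical
  unfold gam
  set r := be X a * be X b with hr
  have h1 : ∀ W ∈ (pf m).erase Y, be W a = r * be W b := by
    intro W hW
    rw [Finset.mem_erase, mem_pf] at hW
    have h := hB W Y X m a b hY hYa hYb ham hbm hW.2 hX hW.1 hXY
    calc be W a = (be W a * be X a) * be X a := by rw [mul_assoc, units_mul_self, mul_one]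
      _ = (be W b * be X b) * be X a := by rw [h]
      _ = r * be W b := by rw [hr]; ac_rfl
  rw [Finset.prod_congr rfl h1, Finset.prod_mul_distrib, Finset.prod_const,
    Finset.card_erase_of_mem (mem_pf.mpr hY), card_pf, Nat.add_sub_cancel]
  have h2 : r ^ ProjectivePlane.order P L = r := by
    obtain ⟨k, hk⟩ : ∃ k, ProjectivePlane.order P L = 2 * k + 1 :=
      ⟨ProjectivePlane.order P L / 2, by omega⟩
    rw [hk, pow_succ, pow_mul, pow_two, units_mul_self, one_pow, one_mul]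
  rw [h2]
  calc r * (∏ i ∈ (pf m).erase Y, be i b) * be X a
      = (be X a * be X a) * ((∏ i ∈ (pf m).erase Y, be i b) * be X b) := by rw [hr]; ac_rfl
    _ = _ := by rw [units_mul_self, one_mul]

theorem nab_skew' (hB : BR P L) (hn : ProjectivePlane.order P L % 4 = 3) {m : L} {X Y Z : P}
    (hX : X ∈ m) (hY : Y ∈ m) (hZ : Z ∈ m) (hXY : X ≠ Y) (hYZ : Y ≠ Z) (hXZ : X ≠ Z) :
    nab m X Y Z = - nab m X Z Y := by
  classical
  obtain ⟨O, hO⟩ := exists_point (P := P) m
  have hn2 : ProjectivePlane.order P L % 2 = 1 := by omega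
  have am : ∀ W : P, (jn O W : L) ≠ m := by
    intro W h
    exact hO (by rw [← h]; exact mem_jn_left _ _)
  have h1 := sg_neg hB hn hX hY hZ hXY hYZ hXZ hO
  have g1 : ∀ U V : P, U ∈ m → V ∈ m → U ≠ V → gam (oth m V) m V U = gam (jn O V : L) m V U := by
    intro U V hU hV hUV
    exact gam_indep' hB hn2 hV hU hUV (mem_oth _ _) (mem_jn_right _ _) (oth_ne _ _) (am V)
  have e : nab m X Y Z * nab m X Z Y = -1 := by
    unfold nab
    rw [g1 X Y hX hY hXY, g1 Y Z hY hZ hYZ, g1 Z X hZ hX hXZ.symm, g1 X Z hX hZ hXZ,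
      g1 Z Y hZ hY hYZ.symm, g1 Y X hY hX hXY.symm]
    unfold gam
    generalize (∏ W ∈ (pf m).erase Y, be W (jn O Y : L)) = p1
    generalize (∏ W ∈ (pf m).erase Z, be W (jn O Z : L)) = p2
    generalize (∏ W ∈ (pf m).erase X, be W (jn O X : L)) = p3
    rw [← h1]
    calc _ = (p1 * p1) * (p2 * p2) * (p3 * p3) * (be Y (jn O X : L) * be Z (jn O X : L) *
          (be X (jn O Z : L) * be Y (jn O Z : L)) * (be Z (jn O Y : L) * be X (jn O Y : L))) := by
            ac_rfl
      _ = _ := by simp only [units_mul_self, one_mul]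
  calc nab m X Y Z = (nab m X Y Z * nab m X Z Y) * nab m X Z Y := by
        rw [mul_assoc, units_mul_self, mul_one]
    _ = _ := by rw [e]; simp

theorem nab_pers' (hB : BR P L) (hn : ProjectivePlane.order P L % 2 = 1) {Q : P} {m m1 : L}
    (hm : Q ∉ m) (hm1 : Q ∉ m1) : ∃ K : ℤˣ, ∀ X Y Z : P, X ∈ m → Y ∈ m → Z ∈ m → X ≠ Y → Y ≠ Z →
      X ≠ Z → nab m1 (pr Q m1 X) (pr Q m1 Y) (pr Q m1 Z) = K * nab m X Y Z := by
  classical
  let kap : P → ℤˣ := fun W => be W (oth (jn Q W : L) Q) * be (pr Q m1 W) (oth (jn Q W : L) Q)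
  have hkap : ∀ W ∈ m, ∀ a : L, Q ∈ a → a ≠ jn Q W → be W a * be (pr Q m1 W) a = kap W := by
    intro W hW a hQa ha
    exact hB W Q (pr Q m1 W) (jn Q W) a _ (mem_jn_left Q W) hQa (mem_oth _ _) ha (oth_ne _ _) (mem_jn_right _ _)
      (pr_mem_jn _ _ _) (ne_of_mem hW hm) (pr_ne hm1 _)
  -- main relation
  have main : ∀ X Y : P, X ∈ m → Y ∈ m → X ≠ Y →
      gam (oth m1 (pr Q m1 Y)) m1 (pr Q m1 Y) (pr Q m1 X) =
        (∏ W ∈ pf m, kap W) * kap X * kap Y * gam (oth m Y) m Y X := by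
    intro X Y hX hY hXY
    have hY1 : pr Q m1 Y ∈ m1 := pr_mem _ _ _
    have hX1 : pr Q m1 X ∈ m1 := pr_mem _ _ _
    have hXY1 : pr Q m1 X ≠ pr Q m1 Y := fun h => hXY (pr_inj hm hm1 hX hY h)
    have ham : (jn Q Y : L) ≠ m := by
      intro h; exact hm (by rw [← h]; exact mem_jn_left _ _)
    have ham1 : (jn Q Y : L) ≠ m1 := by
      intro h; exact hm1 (by rw [← h]; exact mem_jn_left _ _)
    rw [gam_indep' hB hn hY hX hXY (mem_oth _ _) (mem_jn_right Q Y) (oth_ne _ _) ham,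
      gam_indep' hB hn hY1 hX1 hXY1 (mem_oth _ _) (pr_mem_jn Q m1 Y) (oth_ne _ _) ham1]
    unfold gam
    have e1 : ∏ W ∈ (pf m1).erase (pr Q m1 Y), be W (jn Q Y : L) =
        ∏ W ∈ (pf m).erase Y, be (pr Q m1 W) (jn Q Y : L) := by
      symm
      apply Finset.prod_bij (fun W _ => pr Q m1 W)
      · intro W hW
        rw [Finset.mem_erase, mem_pf] at hW ⊢
        exact ⟨fun h => hW.1 (pr_inj hm hm1 hW.2 hY h), pr_mem _ _ _⟩
      · intro W hW V hV h
        rw [Finset.mem_erase, mem_pf] at hW hV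
        exact pr_inj hm hm1 hW.2 hV.2 h
      · intro V hV
        rw [Finset.mem_erase, mem_pf] at hV
        refine ⟨pr Q m V, ?_, pr_pr hm1 hm hV.2⟩
        rw [Finset.mem_erase, mem_pf]
        refine ⟨?_, pr_mem _ _ _⟩
        intro h
        apply hV.1
        rw [← h, pr_pr hm1 hm hV.2]
      · intro W hW; rfl
    have hane : ∀ W, W ∈ m → W ≠ Y → (jn Q Y : L) ≠ jn Q W := by
      intro W hW hWY h
      have : (jn Q Y : L) = m :=
        line_eq hWY (by rw [h]; exact mem_jn_right _ _) (mem_jn_right _ _) hW hY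
      exact ham this
    have e2 : (∏ W ∈ (pf m).erase Y, be W (jn Q Y : L)) *
        (∏ W ∈ (pf m).erase Y, be (pr Q m1 W) (jn Q Y : L)) = ∏ W ∈ (pf m).erase Y, kap W := by
      rw [← Finset.prod_mul_distrib]
      apply Finset.prod_congr rfl
      intro W hW
      rw [Finset.mem_erase, mem_pf] at hW
      exact hkap W hW.2 _ (mem_jn_left _ _) (hane W hW.2 hW.1)
    have e3 : be X (jn Q Y : L) * be (pr Q m1 X) (jn Q Y : L) = kap X :=
      hkap X hX _ (mem_jn_left _ _) (hane X hX hXY)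
    have e4 : (∏ W ∈ pf m, kap W) = kap Y * ∏ W ∈ (pf m).erase Y, kap W :=
      (Finset.mul_prod_erase _ _ (mem_pf.mpr hY)).symm
    rw [e1, e4, ← e2, ← e3]
    generalize (∏ W ∈ (pf m).erase Y, be W (jn Q Y : L)) = p1
    generalize (∏ W ∈ (pf m).erase Y, be (pr Q m1 W) (jn Q Y : L)) = p2
    generalize kap Y = k
    generalize be X (jn Q Y : L) = b1
    generalize be (pr Q m1 X) (jn Q Y : L) = b2
    calc p2 * b2 = (k * k) * (p1 * p1) * (b1 * b1) * (p2 * b2) := by
          rw [units_mul_self, units_mul_self, units_mul_self]; simp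
      _ = _ := by ac_rfl
  refine ⟨∏ W ∈ pf m, kap W, ?_⟩
  intro X Y Z hX hY hZ hXY hYZ hXZ
  unfold nab
  rw [main X Y hX hY hXY, main Y Z hY hZ hYZ, main Z X hZ hX hXZ.symm]
  generalize (∏ W ∈ pf m, kap W) = K
  generalize kap X = x
  generalize kap Y = y
  generalize kap Z = z
  generalize gam (oth m Y) m Y X = g1
  generalize gam (oth m Z) m Z Y = g2
  generalize gam (oth m X) m X Z = g3
  calc _ = (K * K) * (x * x) * (y * y) * (z * z) * (K * (g1 * g2 * g3)) := by ac_rfl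
    _ = _ := by rw [units_mul_self, units_mul_self, units_mul_self, units_mul_self]; simp

end Pool.Agent.Run7.H454
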