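import Pool.Agent.Run7.h454.Uniq2
import Pool.Agent.Run7.h454.Invo
import Pool.Agent.Char3.Trans

set_option autoImplicit false

namespace Pool.Agent.Run7.H454

open Configuration Configuration.Nondegenerate Equiv Pool.Agent.Char3

variable {P L : Type*} [Membership P L] [ProjectivePlane P L] [Finite P] [Finite L]

variable (P L) in
/-- the standing hypothesis -/
structure HH : Prop where
  br : BR P L
  mod : ProjectivePlane.order P L % 4 = 3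

namespace HH

theorem odd (h : HH P L) : ProjectivePlane.order P L % 2 = 1 := by
  have := h.mod
  omega

end HH

theorem card_Om {m : L} {Y : P} (hY : Y ∈ m) : Nat.card (Om m Y) = ProjectivePlane.order P L := by
  classical
  have h1 : Nat.card {p : P // p ∈ m} = ProjectivePlane.order P L + 1 :=
    ProjectivePlane.pointCount_eq P m
  have h2 : Nat.card (Om m Y) = ({⟨Y, hY⟩}ᶜ : Set {p : P // p ∈ m}).ncard := by
    rw [← Nat.card_coe_set_eq]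
    apply Nat.card_congr
    apply Equiv.subtypeEquivRight
    intro x
    constructor
    · intro h h'
      exact h (congrArg Subtype.val (Set.mem_singleton_iff.mp h'))
    · intro h h'
      exact h (Set.mem_singleton_iff.mpr (Subtype.ext h'))
  rw [h2, Set.ncard_compl, h1, Set.ncard_singleton]
  omega

theorem odd_Om (h : HH P L) {m : L} {Y : P} (hY : Y ∈ m) : ¬ 2 ∣ Nat.card (Om m Y) := by
  rw [card_Om hY]
  have := h.odd
  omega

/-- the reflection relation on a line `m` with distinguished point `Y`: the involution with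
fixed point `O` maps `A` to `B`. -/
def RR (m : L) (Y O A B : P) : Prop :=
  ∃ (hO : O ∈ m) (hOY : O ≠ Y) (hA : A ∈ m) (hAY : A ≠ Y) (t : Perm (Om m Y)),
    IsInv (TS m Y) ⟨⟨O, hO⟩, hOY⟩ t ∧ ((t ⟨⟨A, hA⟩, hAY⟩ : Om m Y) : P) = B

section
variable (h : HH P L)
include h

theorem RR.exists {m : L} {Y O A : P} (hY : Y ∈ m) (hO : O ∈ m) (hOY : O ≠ Y) (hA : A ∈ m)
    (hAY : A ≠ Y) : ∃ B, RR m Y O A B := by
  obtain ⟨O', hO', hOY', hOO'⟩ := exists_third (P := P) m Y O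
  obtain ⟨t, ht⟩ := exists_isInv (TS_skew' h.br h.mod hY) (TS_2trans' h.br h.odd hY) (odd_Om h hY)
    (O := ⟨⟨O, hO⟩, hOY⟩) (O' := ⟨⟨O', hO'⟩, hOY'⟩)
    (fun h' => hOO' (congrArg (fun x => x.1.1) h').symm)
  exact ⟨_, hO, hOY, hA, hAY, t, ht, rfl⟩

theorem RR.unique {m : L} {Y O A B B' : P} (hY : Y ∈ m) (h1 : RR m Y O A B)
    (h2 : RR m Y O A B') : B = B' := by
  obtain ⟨hO, hOY, hA, hAY, t, ht, e⟩ := h1
  obtain ⟨hO', hOY', hA', hAY', t', ht', e'⟩ := h2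
  rw [← e, ← e', isInv_unique (TS_skew' h.br h.mod hY) (TS_2trans' h.br h.odd hY) (odd_Om h hY)
    ht ht']

omit h in
theorem RR.symm {m : L} {Y O A B : P} (h1 : RR m Y O A B) : RR m Y O B A := by
  obtain ⟨hO, hOY, hA, hAY, t, ht, e⟩ := h1
  subst e
  refine ⟨hO, hOY, (t ⟨⟨A, hA⟩, hAY⟩).1.2, (t ⟨⟨A, hA⟩, hAY⟩).2, t, ht, ?_⟩
  exact congrArg (fun x => x.1.1) (ht.app ⟨⟨A, hA⟩, hAY⟩)

omit h in
theorem RR.mem {m : L} {Y O A B : P} (h1 : RR m Y O A B) : B ∈ m ∧ B ≠ Y := by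
  obtain ⟨hO, hOY, hA, hAY, t, ht, e⟩ := h1
  subst e
  exact ⟨(t ⟨⟨A, hA⟩, hAY⟩).1.2, (t ⟨⟨A, hA⟩, hAY⟩).2⟩

omit h in
theorem RR.fixO {m : L} {Y O B : P} (h1 : RR m Y O O B) : B = O := by
  obtain ⟨hO, hOY, hA, hAY, t, ht, e⟩ := h1
  rw [← e, ht.fix]

theorem RR.ne {m : L} {Y O A B : P} (hY : Y ∈ m) (h1 : RR m Y O A B) (hAO : A ≠ O) : B ≠ A := by
  obtain ⟨hO, hOY, hA, hAY, t, ht, e⟩ := h1
  rw [← e]
  intro h'
  have : t ⟨⟨A, hA⟩, hAY⟩ ≠ ⟨⟨A, hA⟩, hAY⟩ :=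
    ht.nofix (TS_skew' h.br h.mod hY) (fun h'' => hAO (congrArg (fun x => x.1.1) h''))
  exact this (Subtype.ext (Subtype.ext h'))

theorem RR.mid_unique {m : L} {Y O O' A B : P} (hY : Y ∈ m) (h1 : RR m Y O A B)
    (h2 : RR m Y O' A B) (hAB : A ≠ B) : O = O' := by
  obtain ⟨hO, hOY, hA, hAY, t, ht, e⟩ := h1
  obtain ⟨hO', hOY', hA', hAY', t', ht', e'⟩ := h2
  have hB : B ∈ m ∧ B ≠ Y := RR.mem ⟨hO, hOY, hA, hAY, t, ht, e⟩
  have := Pool.Agent.Run7.H454.mid_unique (TS_skew' h.br h.mod hY) (TS_2trans' h.br h.odd hY)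
    (A := ⟨⟨A, hA⟩, hAY⟩) (B := ⟨⟨B, hB.1⟩, hB.2⟩)
    (fun h' => hAB (congrArg (fun x => x.1.1) h')) ht ht'
    (Subtype.ext (Subtype.ext e)) (Subtype.ext (Subtype.ext e'))
  exact congrArg (fun x => x.1.1) this

theorem RR.mid_exists {m : L} {Y A B : P} (hY : Y ∈ m) (hA : A ∈ m) (hAY : A ≠ Y) (hB : B ∈ m)
    (hBY : B ≠ Y) (hAB : A ≠ B) : ∃ O, RR m Y O A B := by
  obtain ⟨⟨⟨C, hC⟩, hCY⟩, t, h1, h2⟩ := exists_mid (TS_skew' h.br h.mod hY)
    (TS_2trans' h.br h.odd hY) (odd_Om h hY) (A := ⟨⟨A, hA⟩, hAY⟩) (B := ⟨⟨B, hB⟩, hBY⟩)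
    (fun h' => hAB (congrArg (fun x => x.1.1) h'))
  exact ⟨C, hC, hCY, hA, hAY, t, h1, by rw [h2]⟩

end

/-- transport along a bijection preserving the structure -/
theorem IsInv.conj {Ω Ω' : Type*} {S : Ω → Ω → ℤˣ} {S' : Ω' → Ω' → ℤˣ} (φ : Ω ≃ Ω') (K : ℤˣ)
    (hφ : ∀ A B, A ≠ B → S' (φ A) (φ B) = K * S A B) {O : Ω} {t : Perm Ω} (ht : IsInv S O t) :
    IsInv S' (φ O) (φ.symm.trans (t.trans φ)) := by
  have hap : ∀ x, (φ.symm.trans (t.trans φ)) x = φ (t (φ.symm x)) := fun x => rfl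
  refine ⟨?_, ?_, ?_, ?_⟩
  · obtain ⟨ε, hε⟩ := ht.mem
    refine ⟨ε, ?_⟩
    intro A B hAB
    have hne : φ.symm A ≠ φ.symm B := φ.symm.injective.ne hAB
    rw [hap, hap, hφ _ _ (t.injective.ne hne), hε _ _ hne]
    have h2 := hφ _ _ hne
    rw [Equiv.apply_symm_apply, Equiv.apply_symm_apply] at h2
    rw [h2]
    ac_rfl
  · apply Equiv.ext
    intro x
    rw [Perm.mul_apply, hap, hap, Equiv.symm_apply_apply, ht.app, Equiv.apply_symm_apply]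
    rfl
  · rw [hap, Equiv.symm_apply_apply, ht.fix]
  · intro h
    apply ht.ne
    apply Equiv.ext
    intro x
    have := Equiv.congr_fun h (φ x)
    rw [hap, Equiv.symm_apply_apply] at this
    exact φ.injective this

theorem RR.pers (h : HH P L) {m m' : L} {X Y O A B : P} (hX : X ∉ m) (hX' : X ∉ m') (hY : Y ∈ m)
    (h1 : RR m Y O A B) : RR m' (pr X m' Y) (pr X m' O) (pr X m' A) (pr X m' B) := by
  obtain ⟨hO, hOY, hA, hAY, t, ht, e⟩ := h1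
  obtain ⟨K, hK⟩ := nab_pers' h.br h.odd hX hX'
  let φ : Om m Y ≃ Om m' (pr X m' Y) := Equiv.subtypeEquiv (Char3.pers X m m' hX hX') (by
    rintro ⟨x, hx⟩
    apply not_congr
    constructor
    · rintro rfl; rfl
    · intro h'; exact pr_inj hX hX' hx hY h')
  have hφ : ∀ A : Om m Y, ((φ A : Om m' (pr X m' Y)) : P) = pr X m' (A : P) := fun A => rfl
  have hS : ∀ A B, A ≠ B → TS m' (pr X m' Y) (φ A) (φ B) = K * TS m Y A B := by
    intro A B hAB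
    unfold TS
    rw [hφ, hφ]
    exact hK Y A B hY A.1.2 B.1.2 A.2.symm (fun h' => hAB (Subtype.ext (Subtype.ext h'))) B.2.symm
  have key := ht.conj φ K hS
  have hO' : pr X m' O ≠ pr X m' Y := fun h' => hOY (pr_inj hX hX' hO hY h')
  have hA' : pr X m' A ≠ pr X m' Y := fun h' => hAY (pr_inj hX hX' hA hY h')
  refine ⟨pr_mem _ _ _, hO', pr_mem _ _ _, hA', φ.symm.trans (t.trans φ), key, ?_⟩
  have e1 : φ.symm ⟨⟨pr X m' A, pr_mem _ _ _⟩, hA'⟩ = ⟨⟨A, hA⟩, hAY⟩ := by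
    rw [Equiv.symm_apply_eq]
    rfl
  have e2 : (φ.symm.trans (t.trans φ)) ⟨⟨pr X m' A, pr_mem _ _ _⟩, hA'⟩ =
      φ (t ⟨⟨A, hA⟩, hAY⟩) := by
    rw [Equiv.trans_apply, Equiv.trans_apply, e1]
  rw [e2, hφ, e]

end Pool.Agent.Run7.H454
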