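import Pool.Agent.Run7.h454.Final2

set_option autoImplicit false

namespace Pool.Agent.Run7.H454

open Configuration Configuration.Nondegenerate Equiv Pool.Agent.Char3

variable {P L : Type*} [Membership P L]

/-- `a`, `b`, `c` lie on a common line -/
def Col (L : Type*) [Membership P L] (a b c : P) : Prop := ∃ k : L, a ∈ k ∧ b ∈ k ∧ c ∈ k

/-- the sign of a permutation of a finite type -/
noncomputable def sgn {α : Type*} [Finite α] (τ : Equiv.Perm α) : ℤˣ :=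
  @Equiv.Perm.sign α (Classical.decEq α) (Fintype.ofFinite α) τ

variable (P L) in
/-- All translations are even. -/
def EvenTranslations [Finite P] : Prop :=
  ∀ (X Y Z : P) (l a b : L), X ∈ l → Y ∈ l → Z ∈ l → X ≠ Y → Z ≠ Y → Y ∈ a → Y ∈ b → a ≠ l →
    b ≠ l → ∀ τ : Equiv.Perm {p : P // p ∈ a},
      (∀ p : {p : P // p ∈ a}, ∃ q : P, q ∈ b ∧ Col L X p.1 q ∧ Col L Z q (τ p).1) → sgn τ = 1

variable (P L) in
/-- the hexagon condition -/
def Hexagonal : Prop :=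
  ∀ (l : L) (O X Y Z : P), O ∉ l → X ∈ l → Y ∈ l → Z ∈ l → X ≠ Y → Y ≠ Z → X ≠ Z →
    ∀ p₁ p₂ p₃ p₄ p₅ p₆ : P, p₁ ≠ O → p₁ ∉ l → p₂ ≠ O → p₂ ∉ l → p₃ ≠ O → p₃ ∉ l →
      p₄ ≠ O → p₄ ∉ l → p₅ ≠ O → p₅ ∉ l → p₆ ≠ O → p₆ ∉ l →
      Col L O Y p₁ → Col L Z p₁ p₂ → Col L O X p₂ → Col L Y p₂ p₃ → Col L O Z p₃ →
      Col L X p₃ p₄ → Col L O Y p₄ → Col L Z p₄ p₅ → Col L O X p₅ → Col L Y p₅ p₆ →
      Col L O Z p₆ → Col L X p₆ p₁

variable (P L) in
/-- the diagonal points of a quadrangle are never collinear -/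
def NoFano : Prop :=
  ∀ a b c d : P, ¬ Col L a b c → ¬ Col L a b d → ¬ Col L a c d → ¬ Col L b c d →
    ∀ e f g : P, Col L a b e → Col L c d e → Col L a c f → Col L b d f → Col L a d g →
      Col L b c g → ¬ Col L e f g

variable [ProjectivePlane P L] [Finite P] [Finite L]

theorem BR_of_even (h : EvenTranslations P L) : BR P L := by
  classical
  intro X Y Z l a b hYl hYa hYb hal hbl hXl hZl hXY hZY
  have hXa : X ∉ a := fun h => hXY (point_eq hal.symm hXl h hYl hYa)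
  have hXb : X ∉ b := fun h => hXY (point_eq hbl.symm hXl h hYl hYb)
  have hZa : Z ∉ a := fun h => hZY (point_eq hal.symm hZl h hYl hYa)
  have hZb : Z ∉ b := fun h => hZY (point_eq hbl.symm hZl h hYl hYb)
  let t : Equiv.Perm {p : P // p ∈ a} := (pers X a b hXa hXb).trans (pers Z b a hZb hZa)
  have h1 : sg t = be X a * be X b * (be Z b * be Z a) := by
    simp only [t]
    rw [sg_trans, sg_pers, sg_pers]
  have h2 : sgn t = 1 := by
    apply h X Y Z l a b hXl hYl hZl hXY hZY hYa hYb hal hbl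
    rintro ⟨p, hp⟩
    refine ⟨pr X b p, pr_mem _ _ _, ⟨jn X p, mem_jn_left _ _, mem_jn_right _ _, pr_mem_jn _ _ _⟩,
      ⟨jn Z (pr X b p), mem_jn_left _ _, mem_jn_right _ _, ?_⟩⟩
    exact pr_mem_jn _ _ _
  have h3 : sg t = 1 := by
    rw [← h2]
    exact @sg_self P L _ _ _ _ a (Classical.decEq _) (Fintype.ofFinite _) t
  rw [h3] at h1
  rcases Int.units_eq_one_or (be X a) with e1 | e1 <;>
  rcases Int.units_eq_one_or (be X b) with e2 | e2 <;>
  rcases Int.units_eq_one_or (be Z a) with e3 | e3 <;>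
  rcases Int.units_eq_one_or (be Z b) with e4 | e4 <;>
  simp_all

variable (L) in
/-- the sign of the six-fold projectivity -/
noncomputable def S6 (O X Y Z : P) : ℤˣ :=
  (be Y (jn O X : L) * be Z (jn O X : L)) * (be X (jn O Z : L) * be Y (jn O Z : L)) *
      (be Z (jn O Y : L) * be X (jn O Y : L))

theorem BR_of_const (hn : ProjectivePlane.order P L % 2 = 1)
    (hS : ∀ (l : L) (X Y Z O O' : P), X ∈ l → Y ∈ l → Z ∈ l → X ≠ Y → Y ≠ Z → X ≠ Z →
      O ∉ l → O' ∉ l → S6 L O X Y Z = S6 L O' X Y Z) : BR P L := by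
  classical
  intro X Y Z l a b hYl hYa hYb hal hbl hXl hZl hXY hZY
  by_cases hXZ : X = Z
  · rw [hXZ, units_mul_self, units_mul_self]
  obtain ⟨O₀, hO₀a, hO₀Y, -⟩ := exists_third (P := P) a Y Y
  have hO₀l : O₀ ∉ l := fun h' => hO₀Y (point_eq hal hO₀a h' hYa hYl)
  -- the product over the points of a line `k` through `Y`
  let G : P → ℤˣ := fun O => be Y (jn O X : L) * be Z (jn O X : L)
  let G' : P → ℤˣ := fun O => be X (jn O Z : L) * be Y (jn O Z : L)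
  have main : ∀ k : L, Y ∈ k → k ≠ l → S6 L O₀ X Y Z =
      (∏ O ∈ (pf k).erase Y, G O) * (∏ O ∈ (pf k).erase Y, G' O) * (be Z k * be X k) := by
    intro k hYk hkl
    have h1 : ∏ O ∈ (pf k).erase Y, S6 L O X Y Z = S6 L O₀ X Y Z := by
      have : ∀ O ∈ (pf k).erase Y, S6 L O X Y Z = S6 L O₀ X Y Z := by
        intro O hO
        rw [Finset.mem_erase, mem_pf] at hO
        exact hS l X Y Z O O₀ hXl hYl hZl hXY hZY.symm hXZ
          (fun h' => hO.1 (point_eq hkl hO.2 h' hYk hYl)) hO₀l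
      rw [Finset.prod_congr rfl this, Finset.prod_const, Finset.card_erase_of_mem
        (mem_pf.mpr hYk), card_pf, Nat.add_sub_cancel]
      obtain ⟨j, hj⟩ : ∃ j, ProjectivePlane.order P L = 2 * j + 1 :=
        ⟨ProjectivePlane.order P L / 2, by omega⟩
      rw [hj, pow_succ, pow_mul, pow_two, units_mul_self, one_pow, one_mul]
    rw [← h1]
    have h2 : ∀ O ∈ (pf k).erase Y, S6 L O X Y Z = G O * G' O * (be Z k * be X k) := by
      intro O hO
      rw [Finset.mem_erase, mem_pf] at hO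
      have : (jn O Y : L) = k := (eq_jn hO.1 hO.2 hYk).symm
      unfold S6
      rw [this]
    rw [Finset.prod_congr rfl h2, Finset.prod_mul_distrib, Finset.prod_mul_distrib,
      Finset.prod_const, Finset.card_erase_of_mem
        (mem_pf.mpr hYk), card_pf, Nat.add_sub_cancel]
    congr 1
    obtain ⟨j, hj⟩ : ∃ j, ProjectivePlane.order P L = 2 * j + 1 :=
      ⟨ProjectivePlane.order P L / 2, by omega⟩
    rw [hj, pow_succ, pow_mul, pow_two, units_mul_self, one_pow, one_mul]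
  have hXa : X ∉ a := fun h => hXY (point_eq hal.symm hXl h hYl hYa)
  have hXb : X ∉ b := fun h => hXY (point_eq hbl.symm hXl h hYl hYb)
  have hZa : Z ∉ a := fun h => hZY (point_eq hal.symm hZl h hYl hYa)
  have hZb : Z ∉ b := fun h => hZY (point_eq hbl.symm hZl h hYl hYb)
  -- invariance of the products
  have inv : ∀ (W : P) (g : L → ℤˣ), W ∉ a → W ∉ b →
      ∏ O ∈ (pf a).erase Y, g (jn O W) = ∏ O ∈ (pf b).erase Y, g (jn O W) := by
    intro W g hWa hWb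
    apply Finset.prod_bij (fun O _ => pr W b O)
    · intro O hO
      rw [Finset.mem_erase, mem_pf] at hO ⊢
      refine ⟨?_, pr_mem _ _ _⟩
      intro h'
      apply hO.1
      apply pr_inj hWa hWb hO.2 hYa
      rw [h', pr_self hWb hYb]
    · intro O hO O' hO' h'
      rw [Finset.mem_erase, mem_pf] at hO hO'
      exact pr_inj hWa hWb hO.2 hO'.2 h'
    · intro O hO
      rw [Finset.mem_erase, mem_pf] at hO
      refine ⟨pr W a O, ?_, pr_pr hWb hWa hO.2⟩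
      rw [Finset.mem_erase, mem_pf]
      refine ⟨?_, pr_mem _ _ _⟩
      intro h'
      apply hO.1
      apply pr_inj hWb hWa hO.2 hYb
      rw [h', pr_self hWa hYa]
    · intro O hO
      rw [Finset.mem_erase, mem_pf] at hO
      have h1 : O ≠ W := ne_of_mem hO.2 hWa
      have h2 : pr W b O ≠ W := pr_ne hWb O
      have h3 : (jn O W : L) = jn (pr W b O) W := by
        apply eq_jn h2
        · rw [jn_comm' h1]; exact pr_mem_jn _ _ _
        · exact mem_jn_right _ _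
      rw [h3]
  have e1 := main a hYa hal
  have e2 := main b hYb hbl
  have e3 : ∏ O ∈ (pf a).erase Y, G O = ∏ O ∈ (pf b).erase Y, G O :=
    inv X (fun k => be Y k * be Z k) hXa hXb
  have e4 : ∏ O ∈ (pf a).erase Y, G' O = ∏ O ∈ (pf b).erase Y, G' O :=
    inv Z (fun k => be X k * be Y k) hZa hZb
  rw [e3, e4, e2] at e1
  have e5 := mul_left_cancel e1
  rw [mul_comm (be Z a), mul_comm (be Z b)] at e5
  exact e5.symm

omit [Finite P] [Finite L] in
theorem pr_ok {l k k' : L} {O W p : P} (hO : O ∉ l) (hOk : O ∈ k) (hOk' : O ∈ k') (hW : W ∈ l)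
    (hWk : W ∉ k) (hWk' : W ∉ k') (hp : p ∈ k) (hpO : p ≠ O) (hpl : p ∉ l) :
    pr W k' p ≠ O ∧ pr W k' p ∉ l := by
  constructor
  · intro h
    apply hpO
    apply pr_inj hWk hWk' hp hOk
    rw [h, pr_self hWk' hOk']
  · intro h
    have h1 : pr W k' p ∈ (jn W p : L) := pr_mem_jn _ _ _
    have h2 : (jn W p : L) = l := line_eq (pr_ne hWk' p) h1 (mem_jn_left _ _) h hW
    exact hpl (by rw [← h2]; exact mem_jn_right _ _)

omit [Finite P] [Finite L] in
theorem hex_ss (h : Hexagonal P L) {m l : L} {O Y X Z : P} (c : Cfg m l O Y X Z)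
    (p : {p : P // p ∈ m}) : c.s (c.s p) = p := by
  obtain ⟨A, hA⟩ := p
  by_cases hAO : A = O
  · subst hAO; rw [c.s_O, c.s_O]
  by_cases hAY : A = Y
  · subst hAY; rw [c.s_Y, c.s_Y]
  have hAl : A ∉ l := fun h' => hAY (point_eq c.hlm h' hA c.hYl c.hYm)
  apply Subtype.ext
  rw [Cfg.s_coe, Cfg.s_coe]
  simp only
  obtain ⟨a2, b2⟩ := pr_ok c.O_l c.hOm (mem_jn_left O X) c.hZl c.Z_m c.Z_kX hA hAO hAl
  obtain ⟨a3, b3⟩ := pr_ok c.O_l (mem_jn_left O X) (mem_jn_left O Z) c.hYl c.Y_kX c.Y_kZ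
    (pr_mem Z (jn O X) A) a2 b2
  obtain ⟨a4, b4⟩ := pr_ok c.O_l (mem_jn_left O Z) c.hOm c.hXl c.X_kZ c.X_m
    (pr_mem Y (jn O Z) (pr Z (jn O X) A)) a3 b3
  set p2 := pr Z (jn O X : L) A with hp2
  set p3 := pr Y (jn O Z : L) p2 with hp3
  set p4 := pr X m p3 with hp4
  obtain ⟨a5, b5⟩ := pr_ok c.O_l c.hOm (mem_jn_left O X) c.hZl c.Z_m c.Z_kX
    (pr_mem X m p3) a4 b4
  obtain ⟨a6, b6⟩ := pr_ok c.O_l (mem_jn_left O X) (mem_jn_left O Z) c.hYl c.Y_kX c.Y_kZ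
    (pr_mem Z (jn O X) p4) a5 b5
  set p5 := pr Z (jn O X : L) p4 with hp5
  set p6 := pr Y (jn O Z : L) p5 with hp6
  have key := h l O X Y Z c.O_l c.hXl c.hYl c.hZl c.hXY c.hZY.symm c.hXZ A p2 p3 p4 p5 p6
    hAO hAl a2 b2 a3 b3 a4 b4 a5 b5 a6 b6
    ⟨m, c.hOm, c.hYm, hA⟩
    ⟨jn Z A, mem_jn_left _ _, mem_jn_right _ _, pr_mem_jn _ _ _⟩
    ⟨jn O X, mem_jn_left _ _, mem_jn_right _ _, pr_mem _ _ _⟩
    ⟨jn Y p2, mem_jn_left _ _, mem_jn_right _ _, pr_mem_jn _ _ _⟩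
    ⟨jn O Z, mem_jn_left _ _, mem_jn_right _ _, pr_mem _ _ _⟩
    ⟨jn X p3, mem_jn_left _ _, mem_jn_right _ _, pr_mem_jn _ _ _⟩
    ⟨m, c.hOm, c.hYm, pr_mem _ _ _⟩
    ⟨jn Z p4, mem_jn_left _ _, mem_jn_right _ _, pr_mem_jn _ _ _⟩
    ⟨jn O X, mem_jn_left _ _, mem_jn_right _ _, pr_mem _ _ _⟩
    ⟨jn Y p5, mem_jn_left _ _, mem_jn_right _ _, pr_mem_jn _ _ _⟩
    ⟨jn O Z, mem_jn_left _ _, mem_jn_right _ _, pr_mem _ _ _⟩
  obtain ⟨k, hk1, hk2, hk3⟩ := key
  exact (eq_pr c.X_m (ne_of_mem c.hXl b6).symm hk1 hk2 hk3 hA).symm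

omit [Finite P] [Finite L] in
theorem fano_nofix (h : NoFano P L) {m l : L} {O Y X Z : P} (c : Cfg m l O Y X Z)
    {A : P} (hA : A ∈ m) (hAO : A ≠ O) (hAY : A ≠ Y) : (c.s ⟨A, hA⟩ : P) ≠ A := by
  have hAl : A ∉ l := fun h' => hAY (point_eq c.hlm h' hA c.hYl c.hYm)
  rw [Cfg.s_coe]
  simp only
  intro heq
  obtain ⟨a2, b2⟩ := pr_ok c.O_l c.hOm (mem_jn_left O X) c.hZl c.Z_m c.Z_kX hA hAO hAl
  obtain ⟨a3, b3⟩ := pr_ok c.O_l (mem_jn_left O X) (mem_jn_left O Z) c.hYl c.Y_kX c.Y_kZ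
    (pr_mem Z (jn O X) A) a2 b2
  set p2 := pr Z (jn O X : L) A with hp2
  set p3 := pr Y (jn O Z : L) p2 with hp3
  have m2 : p2 ∈ (jn O X : L) := pr_mem _ _ _
  have m3 : p3 ∈ (jn O Z : L) := pr_mem _ _ _
  have hne : (jn O X : L) ≠ jn O Z := by
    intro h'
    exact c.X_kZ (by rw [← h']; exact mem_jn_right _ _)
  have hAj : A ∈ (jn X p3 : L) := by
    have := pr_mem_jn X m p3
    rwa [heq] at this
  refine h X Z p2 p3 ?_ ?_ ?_ ?_ Y O A ⟨l, c.hXl, c.hZl, c.hYl⟩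
    ⟨jn Y p2, mem_jn_right _ _, pr_mem_jn _ _ _, mem_jn_left _ _⟩
    ⟨jn O X, mem_jn_right _ _, m2, mem_jn_left _ _⟩
    ⟨jn O Z, mem_jn_right _ _, m3, mem_jn_left _ _⟩
    ⟨jn X p3, mem_jn_left _ _, mem_jn_right _ _, hAj⟩
    ⟨jn Z A, mem_jn_left _ _, pr_mem_jn _ _ _, mem_jn_right _ _⟩
    ⟨m, c.hYm, c.hOm, hA⟩
  · rintro ⟨k, h1, h2, h3⟩
    exact b2 (line_eq c.hXZ h1 h2 c.hXl c.hZl ▸ h3)
  · rintro ⟨k, h1, h2, h3⟩
    exact b3 (line_eq c.hXZ h1 h2 c.hXl c.hZl ▸ h3)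
  · rintro ⟨k, h1, h2, h3⟩
    have : k = jn O X := line_eq (ne_of_mem c.hXl b2) h1 h2 (mem_jn_right _ _) m2
    rw [this] at h3
    exact a3 (point_eq hne h3 m3 (mem_jn_left _ _) (mem_jn_left _ _))
  · rintro ⟨k, h1, h2, h3⟩
    have : k = jn O Z := line_eq (ne_of_mem c.hZl b3) h1 h3 (mem_jn_right _ _) m3
    rw [this] at h2
    exact a2 (point_eq hne m2 h2 (mem_jn_left _ _) (mem_jn_left _ _))

theorem sg_hex (h : Hexagonal P L) (h' : NoFano P L) {m l : L}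
    {O Y X Z : P} (c : Cfg m l O Y X Z) :
    sg c.s = (-1) ^ ((ProjectivePlane.order P L + 1 - 2) / 2) := by
  classical
  have : Fintype {p : P // p ∈ m} := Fintype.ofFinite _
  have hsq : c.s ^ 2 = 1 := by
    ext p
    rw [pow_two, Equiv.Perm.mul_apply, hex_ss h c]
    rfl
  rw [sg_self, Equiv.Perm.sign_of_pow_two_eq_one hsq]
  have hcard : Fintype.card {p : P // p ∈ m} = ProjectivePlane.order P L + 1 := by
    rw [← Nat.card_eq_fintype_card]
    exact ProjectivePlane.pointCount_eq P m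
  have hfix : Fintype.card (Function.fixedPoints c.s) = 2 := by
    have h1 : Function.fixedPoints c.s = {⟨O, c.hOm⟩, ⟨Y, c.hYm⟩} := by
      ext ⟨A, hA⟩
      simp only [Function.mem_fixedPoints, Function.IsFixedPt, Set.mem_insert_iff,
        Set.mem_singleton_iff]
      constructor
      · intro h1
        by_contra hcon
        push Not at hcon
        apply fano_nofix h' c hA (fun h => hcon.1 (Subtype.ext h)) (fun h => hcon.2 (Subtype.ext h))
        exact Subtype.ext_iff.mp h1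
      · rintro (h1 | h1)
        · rw [h1]; exact c.s_O
        · rw [h1]; exact c.s_Y
    rw [← Nat.card_eq_fintype_card, h1, Nat.card_coe_set_eq, Set.ncard_pair]
    intro h1
    exact c.hOY (Subtype.ext_iff.mp h1)
  rw [hcard, hfix]

/-- hexagonal Fano-free planes of odd order have even translations -/
theorem BR_of_hex (h : Hexagonal P L) (h' : NoFano P L)
    (hn : ProjectivePlane.order P L % 2 = 1) : BR P L := by
  apply BR_of_const hn
  have key : ∀ (l : L) (X Y Z O : P), X ∈ l → Y ∈ l → Z ∈ l → X ≠ Y → Y ≠ Z → X ≠ Z →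
      O ∉ l → S6 L O X Y Z = (-1) ^ ((ProjectivePlane.order P L + 1 - 2) / 2) := by
    intro l X Y Z O hX hY hZ hXY hYZ hXZ hO
    have c : Cfg (jn O Y : L) l O Y X Z :=
      ⟨mem_jn_right _ _, mem_jn_left _ _, (ne_of_mem hY hO).symm, hY,
        fun h' => hO (by rw [h']; exact mem_jn_left _ _), hX, hZ, hXY, hYZ.symm, hXZ⟩
    rw [← sg_hex h h' c, c.sg_s']
    unfold S6
    ac_rfl
  intro l X Y Z O O' hX hY hZ hXY hYZ hXZ hO hO'
  rw [key l X Y Z O hX hY hZ hXY hYZ hXZ hO, key l X Y Z O' hX hY hZ hXY hYZ hXZ hO']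

end Pool.Agent.Run7.H454
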