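import Pool.Agent.Run7.h454.Nab2
import Pool.Agent.Char3.Unique

set_option autoImplicit false

namespace Pool.Agent.Run7.H454

open Configuration Configuration.Nondegenerate Equiv Pool.Agent.Char3

variable {P L : Type*} [Membership P L] [ProjectivePlane P L] [Finite P] [Finite L]

theorem good_pers' (hB : BR P L) (hn : ProjectivePlane.order P L % 2 = 1) {Q : P} {m m1 : L}
    (hm : Q ∉ m) (hm1 : Q ∉ m1) : Good (pers Q m m1 hm hm1) := by
  obtain ⟨K, hK⟩ := nab_pers' hB hn hm hm1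
  refine ⟨K, ?_⟩
  intro X Y Z hXY hYZ hXZ
  exact hK X Y Z X.2 Y.2 Z.2 (fun h => hXY (Subtype.ext h)) (fun h => hYZ (Subtype.ext h))
    (fun h => hXZ (Subtype.ext h))

theorem TS_skew' (hB : BR P L) (hn : ProjectivePlane.order P L % 4 = 3) {m : L} {Y : P}
    (hY : Y ∈ m) : Skew (TS m Y) := by
  intro A B hAB
  have h1 : (A : P) ≠ (B : P) := fun h => hAB (Subtype.ext (Subtype.ext h))
  exact nab_skew' hB hn hY B.1.2 A.1.2 B.2.symm h1.symm A.2.symm

theorem TS_2trans' (hBR : BR P L) (hn : ProjectivePlane.order P L % 2 = 1) {m : L} {Y : P}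
    (hY : Y ∈ m) : ∀ A B A' B' : Om m Y, A ≠ B → A' ≠ B' →
      ∃ g ∈ pmAut (TS m Y), g A = A' ∧ g B = B' := by
  rintro ⟨⟨A, hA⟩, hAY⟩ ⟨⟨B, hB⟩, hBY⟩ ⟨⟨A', hA'⟩, hAY'⟩ ⟨⟨B', hB'⟩, hBY'⟩ hAB hAB'
  simp only [ne_eq] at hAY hBY hAY' hBY'
  have hne : A ≠ B := by
    intro h
    exact hAB (Subtype.ext (Subtype.ext h))
  have hne' : A' ≠ B' := by
    intro h
    exact hAB' (Subtype.ext (Subtype.ext h))
  -- choose X off m, and a line k through Y, k ≠ m, not through X
  obtain ⟨X, hX⟩ := exists_point (P := P) m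
  have hXY : X ≠ Y := fun h => hX (h ▸ hY)
  have hXA : X ≠ A := fun h => hX (h ▸ hA)
  -- a third point on XA
  obtain ⟨V, hV, hVX, hVA⟩ : ∃ V, V ∈ (jn X A : L) ∧ V ≠ X ∧ V ≠ A := by
    have h1 := ProjectivePlane.two_lt_pointCount P (jn X A : L)
    unfold pointCount at h1
    by_contra hcon
    push Not at hcon
    have h2 : {p : P | p ∈ (jn X A : L)} ⊆ {X, A} := by
      intro p hp
      by_cases h : p = X
      · left; exact h
      · right; exact hcon p hp h
    have h3 := Set.ncard_le_ncard h2 (Set.toFinite _)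
    have h4 : ({X, A} : Set P).ncard ≤ 2 := Set.ncard_insert_le _ _ |>.trans (by simp)
    have h5 : {p : P | p ∈ (jn X A : L)}.ncard = Nat.card {p : P // p ∈ (jn X A : L)} := rfl
    omega
  have hXAm : (jn X A : L) ≠ m := by
    intro h; exact hX (by rw [← h]; exact mem_jn_left _ _)
  have hVm : V ∉ m := fun h => hVA (point_eq hXAm hV h (mem_jn_right _ _) hA)
  have hVY : V ≠ Y := fun h => hVm (h ▸ hY)
  set k : L := jn Y V with hk
  have hYk : Y ∈ k := mem_jn_left _ _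
  have hkm : k ≠ m := by
    intro h; exact hVm (by rw [← h]; exact mem_jn_right _ _)
  have hXk : X ∉ k := by
    intro h
    have h1 : k = (jn X A : L) := line_eq hVX (mem_jn_right _ _) h hV (mem_jn_left _ _)
    have h2 : A ∈ k := by rw [h1]; exact mem_jn_right _ _
    exact hAY (point_eq hkm h2 hA hYk hY)
  set A1 := pr X k A with hA1
  set B1 := pr X k B with hB1
  have hA1k : A1 ∈ k := pr_mem _ _ _
  have hB1k : B1 ∈ k := pr_mem _ _ _
  have hAB1 : A1 ≠ B1 := fun h => hne (pr_inj hX hXk hA hB h)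
  have hY1 : pr X k Y = Y := pr_self hXk hYk
  have hA1Y : A1 ≠ Y := by
    intro h
    rw [← hY1] at h
    exact hAY (pr_inj hX hXk hA hY h)
  have hB1Y : B1 ≠ Y := by
    intro h
    rw [← hY1] at h
    exact hBY (pr_inj hX hXk hB hY h)
  have hA1m : A1 ∉ m := fun h => hA1Y (point_eq hkm hA1k h hYk hY)
  have hB1m : B1 ∉ m := fun h => hB1Y (point_eq hkm hB1k h hYk hY)
  have hA'k : A' ∉ k := fun h => hAY' (point_eq hkm h hA' hYk hY)
  have hB'k : B' ∉ k := fun h => hBY' (point_eq hkm h hB' hYk hY)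
  have hlines : (jn A' A1 : L) ≠ jn B' B1 := by
    intro h
    have h1 : (jn A' A1 : L) = k :=
      line_eq hAB1 (mem_jn_right _ _) (by rw [h]; exact mem_jn_right _ _) hA1k hB1k
    exact hA'k (by rw [← h1]; exact mem_jn_left _ _)
  set Z : P := mt (jn A' A1 : L) (jn B' B1) with hZ
  have hZ1 : Z ∈ (jn A' A1 : L) := mt_mem_left _ _
  have hZ2 : Z ∈ (jn B' B1 : L) := mt_mem_right _ _
  have hA'A1 : (jn A' A1 : L) ≠ k := by
    intro h; exact hA'k (by rw [← h]; exact mem_jn_left _ _)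
  have hB'B1 : (jn B' B1 : L) ≠ k := by
    intro h; exact hB'k (by rw [← h]; exact mem_jn_left _ _)
  have hA'A1m : (jn A' A1 : L) ≠ m := by
    intro h; exact hA1m (by rw [← h]; exact mem_jn_right _ _)
  have hB'B1m : (jn B' B1 : L) ≠ m := by
    intro h; exact hB1m (by rw [← h]; exact mem_jn_right _ _)
  have hZk : Z ∉ k := by
    intro h
    have h1 : Z = A1 := point_eq hA'A1 hZ1 h (mem_jn_right _ _) hA1k
    have h2 : Z = B1 := point_eq hB'B1 hZ2 h (mem_jn_right _ _) hB1k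
    exact hAB1 (h1.symm.trans h2)
  have hZm : Z ∉ m := by
    intro h
    have h1 : Z = A' := point_eq hA'A1m hZ1 h (mem_jn_left _ _) hA'
    have h2 : Z = B' := point_eq hB'B1m hZ2 h (mem_jn_left _ _) hB'
    exact hne' (h1.symm.trans h2)
  have eA : A' = pr Z m A1 :=
    eq_pr hZm (ne_of_mem hA1k hZk) hZ1 (mem_jn_right _ _) (mem_jn_left _ _) hA'
  have eB : B' = pr Z m B1 :=
    eq_pr hZm (ne_of_mem hB1k hZk) hZ2 (mem_jn_right _ _) (mem_jn_left _ _) hB'
  let φ : Perm {p : P // p ∈ m} := (pers X m k hX hXk).trans (pers Z k m hZk hZm)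
  have hφY : φ ⟨Y, hY⟩ = ⟨Y, hY⟩ := by
    apply Subtype.ext
    show pr Z m (pr X k Y) = Y
    rw [hY1, pr_self hZm hY]
  have hφ : Good φ := (good_pers' hBR hn hX hXk).trans (good_pers' hBR hn hZk hZm)
  refine ⟨restr hY φ hφY, restr_mem hY φ hφY hφ, ?_, ?_⟩
  · apply Subtype.ext
    apply Subtype.ext
    exact eA.symm
  · apply Subtype.ext
    apply Subtype.ext
    exact eB.symm

end Pool.Agent.Run7.H454
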